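import Pool.Agent.RadF.Ell
import Pool.Agent.Lib_helper71.MC.Asm2

/-!
Assembly of the maximal estimate from the layers.
-/

open MeasureTheory Set Filter Topology Metric
open scoped ENNReal Pointwise RealInnerProductSpace ContDiff

namespace Pool.Agent.RadF

open Pool.Agent.MC

variable {n : ℕ}

/-- A majorant for the sets in a class. -/
def MajFor (𝒦 : Set (En n) → Prop) (γ : ℝ → En n) (a b p0 : ℝ) (Cm : ℝ≥0∞) : Prop :=
  ∀ K : Set (En n), IsOpen K → Bornology.IsBounded K → 𝒦 K →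
    ∃ M : En n → ℝ≥0∞, Measurable M ∧ ∫⁻ x, M x ≤ Cm * volume K ∧
      ∀ (x : En n) (t : ℝ), 0 < t → volume (Ioo a b ∩ {s | x - t • γ s ∈ K}) ^ p0 ≤ M x

/-- Functions all of whose superlevel sets are unions of at most `m` open sets from a class. -/
def Lev (𝒦 : Set (En n) → Prop) (m : ℕ) (f : En n → ℝ) : Prop :=
  ∀ v : ℝ, 0 < v → ∃ K : Fin m → Set (En n), (∀ i, IsOpen (K i) ∧ 𝒦 (K i)) ∧
    {y | v < |f y|} = ⋃ i, K i

/-- The maximal estimate for the whole curve. -/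
theorem asm (𝒦 : Set (En n) → Prop) (γ : ℝ → En n) (hγc : Continuous γ) (a b : ℝ) (hab : a < b)
    (p0 p : ℝ) (h1 : 1 ≤ p0) (h2 : p0 < p) (Cm : ℝ≥0∞) (hCm : Cm ≠ ⊤)
    (Hm : MajFor 𝒦 γ a b p0 Cm) :
    ∃ C D : ℝ≥0∞, C ≠ ⊤ ∧ D ≠ ⊤ ∧
    ∀ (N : ℕ) (f : En n → ℝ), Continuous f → HasCompactSupport f → Lev 𝒦 N f →
      ∃ A : En n → ℝ≥0∞, Measurable A ∧
        ∫⁻ x, A x ≤ C * (N : ℝ≥0∞) ^ p0 * ∫⁻ y, ENNReal.ofReal (|f y| ^ p) ∧
        ∀ (x : En n) (t : ℝ), 0 < t →
          ∫⁻ s in Ioo a b, ENNReal.ofReal |f (x - t • γ s)| ≤ D * A x ^ (1 / p) := by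
  have hp00 : 0 < p0 := by linarith
  have hpp : 0 < p := by linarith
  have hp1 : 1 ≤ p := by linarith
  obtain ⟨D, hDt, hD0, HD⟩ := layer_sum p0 p hp00 h2
  set G : ℝ≥0∞ := ∑' m : ℤ, ENNReal.ofReal ((1 / 2 : ℝ) ^ m.natAbs) with hG
  have hGt : G ≠ ⊤ := tsum_geom (by norm_num) (by norm_num)
  set B : ℝ := b - a + 1 with hB
  have hB1 : 1 ≤ B := by linarith
  have hB0 : 0 < B := by linarith
  refine ⟨Cm * G, 2 * (ENNReal.ofReal B * D), ENNReal.mul_ne_top hCm hGt,
    ENNReal.mul_ne_top (by simp) (ENNReal.mul_ne_top ENNReal.ofReal_ne_top hDt), ?_⟩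
  intro N f hf hfc hlev
  have hNt : (N : ℝ≥0∞) ≠ ⊤ := ENNReal.natCast_ne_top N
  set K : ℤ → Set (En n) := fun l => {y | (2 : ℝ) ^ l < |f y|} with hK
  have hKo : ∀ l, IsOpen (K l) := fun l => isOpen_lt continuous_const hf.abs
  have hKb : ∀ l, Bornology.IsBounded (K l) := by
    intro l
    refine (hfc.isCompact.isBounded).subset ?_
    intro y hy
    apply subset_tsupport
    rw [Function.mem_support]
    intro h0
    have h3 : (2 : ℝ) ^ l < |f y| := hy
    rw [h0, abs_zero] at h3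
    exact absurd h3 (not_lt.2 (by positivity))
  choose K' hK1 hK2 using fun l : ℤ => hlev ((2 : ℝ) ^ l) (by positivity)
  have hsub : ∀ l i, K' l i ⊆ K l := by
    intro l i
    show K' l i ⊆ {y | (2 : ℝ) ^ l < |f y|}
    rw [hK2 l]
    exact subset_iUnion (K' l) i
  choose m0 hm1 hm2 hm3 using fun (l : ℤ) (i : Fin N) =>
    Hm (K' l i) (hK1 l i).1 ((hKb l).subset (hsub l i)) (hK1 l i).2
  set m : ℤ → En n → ℝ≥0∞ := fun l x => (N : ℝ≥0∞) ^ (p0 - 1) * ∑ i, m0 l i x with hm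
  have hmm : ∀ l, Measurable (m l) := fun l =>
    (Finset.measurable_sum _ fun i _ => hm1 l i).const_mul _
  have hmi : ∀ l, ∫⁻ x, m l x ≤ Cm * (N : ℝ≥0∞) ^ p0 * volume (K l) := by
    intro l
    simp only [hm]
    rw [lintegral_const_mul _ (Finset.measurable_sum _ fun i _ => hm1 l i),
      lintegral_finsetSum _ fun i _ => hm1 l i]
    have h3 : ∑ i : Fin N, ∫⁻ x, m0 l i x ≤ ∑ _i : Fin N, Cm * volume (K l) := by
      apply Finset.sum_le_sum
      intro i _
      refine (hm2 l i).trans ?_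
      gcongr
      exact hsub l i
    rw [Finset.sum_const, Finset.card_univ, Fintype.card_fin, nsmul_eq_mul] at h3
    rcases Nat.eq_zero_or_pos N with hN | hN
    · subst hN
      simp
    · have hN0 : (N : ℝ≥0∞) ≠ 0 := by exact_mod_cast hN.ne'
      calc (N : ℝ≥0∞) ^ (p0 - 1) * ∑ i : Fin N, ∫⁻ x, m0 l i x
          ≤ (N : ℝ≥0∞) ^ (p0 - 1) * ((N : ℝ≥0∞) * (Cm * volume (K l))) := by gcongr
        _ = Cm * ((N : ℝ≥0∞) ^ (p0 - 1) * (N : ℝ≥0∞)) * volume (K l) := by ring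
        _ = Cm * (N : ℝ≥0∞) ^ p0 * volume (K l) := by
            congr 2
            conv_lhs => rw [← ENNReal.rpow_one (N : ℝ≥0∞), ← ENNReal.rpow_mul, one_mul,
              ← ENNReal.rpow_add _ _ hN0 hNt]
            congr 1
            ring
  set V : Set (En n) → En n → ℝ → ℝ≥0∞ := fun K x t => volume (Ioo a b ∩ {s | x - t • γ s ∈ K})
    with hV
  have hmx : ∀ (l : ℤ) (x : En n) (t : ℝ), 0 < t → V (K l) x t ^ p0 ≤ m l x := by
    intro l x t ht
    have hsub : Ioo a b ∩ {s | x - t • γ s ∈ K l} ⊆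
        ⋃ i, Ioo a b ∩ {s | x - t • γ s ∈ K' l i} := by
      rintro s ⟨hs, hs2⟩
      have h3 : x - t • γ s ∈ {y | (2 : ℝ) ^ l < |f y|} := hs2
      rw [hK2 l] at h3
      obtain ⟨i, hi⟩ := mem_iUnion.1 h3
      exact mem_iUnion.2 ⟨i, hs, hi⟩
    calc V (K l) x t ^ p0
        ≤ (∑ i, V (K' l i) x t) ^ p0 := by
          apply ENNReal.rpow_le_rpow _ hp00.le
          exact (measure_mono hsub).trans (measure_iUnion_fintype_le _ _)
      _ ≤ (N : ℝ≥0∞) ^ (p0 - 1) * ∑ i, V (K' l i) x t ^ p0 := by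
          have h3 := ENNReal.rpow_sum_le_const_mul_sum_rpow Finset.univ
            (fun i => V (K' l i) x t) h1
          simpa using h3
      _ ≤ m l x := by
          simp only [hm]
          gcongr with i
          exact hm3 l i x t ht
  set A : En n → ℝ≥0∞ := fun x => ∑' l : ℤ, ENNReal.ofReal (((2 : ℝ) ^ l) ^ p) * m l x with hA
  have hAm : Measurable A := Measurable.ennreal_tsum fun l => (hmm l).const_mul _
  refine ⟨A, hAm, ?_, ?_⟩
  · set Q : ℝ≥0∞ := Cm * (N : ℝ≥0∞) ^ p0 with hQ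
    calc ∫⁻ x, A x = ∑' l : ℤ, ∫⁻ x, ENNReal.ofReal (((2 : ℝ) ^ l) ^ p) * m l x :=
          lintegral_tsum fun l => ((hmm l).const_mul _).aemeasurable
      _ ≤ ∑' l : ℤ, Q * ∫⁻ y, (if (2 : ℝ) ^ l < |f y| then
            ENNReal.ofReal (((2 : ℝ) ^ l) ^ p) else 0) := by
          apply ENNReal.tsum_le_tsum
          intro l
          rw [lintegral_const_mul _ (hmm l)]
          have h4 : ∫⁻ y, (if (2 : ℝ) ^ l < |f y| then
              ENNReal.ofReal (((2 : ℝ) ^ l) ^ p) else 0) =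
              ENNReal.ofReal (((2 : ℝ) ^ l) ^ p) * volume (K l) := by
            have h5 : (fun y => if (2 : ℝ) ^ l < |f y| then
                ENNReal.ofReal (((2 : ℝ) ^ l) ^ p) else 0) =
                (K l).indicator fun _ => ENNReal.ofReal (((2 : ℝ) ^ l) ^ p) := by
              funext y
              by_cases h : (2 : ℝ) ^ l < |f y|
              · rw [if_pos h, indicator_of_mem (show y ∈ K l from h)]
              · rw [if_neg h, indicator_of_notMem (show y ∉ K l from h)]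
            rw [h5, lintegral_indicator_const (hKo l).measurableSet]
          rw [h4]
          calc ENNReal.ofReal (((2 : ℝ) ^ l) ^ p) * ∫⁻ x, m l x
              ≤ ENNReal.ofReal (((2 : ℝ) ^ l) ^ p) * (Q * volume (K l)) := by
                gcongr
                exact hmi l
            _ = _ := by ring
      _ = Q * ∫⁻ y, ∑' l : ℤ, (if (2 : ℝ) ^ l < |f y| then
            ENNReal.ofReal (((2 : ℝ) ^ l) ^ p) else 0) := by
          rw [ENNReal.tsum_mul_left, lintegral_tsum]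
          intro l
          exact (Measurable.ite (hKo l).measurableSet measurable_const
            measurable_const).aemeasurable
      _ ≤ Q * ∫⁻ y, G * ENNReal.ofReal (|f y| ^ p) := by
          gcongr with y
          exact layer_pow p hp1 _ (abs_nonneg _)
      _ = Cm * G * (N : ℝ≥0∞) ^ p0 * ∫⁻ y, ENNReal.ofReal (|f y| ^ p) := by
          rw [lintegral_const_mul' _ _ hGt, hQ]
          ring
  · intro x t ht
    set τ : ℤ → ℝ≥0∞ := fun l => ENNReal.ofReal B⁻¹ * V (K l) x t with hτ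
    have hVB : ∀ l, V (K l) x t ≤ ENNReal.ofReal B := by
      intro l
      refine (measure_mono inter_subset_left).trans ?_
      rw [Real.volume_Ioo]
      exact ENNReal.ofReal_le_ofReal (by linarith)
    have hBB : ENNReal.ofReal B * ENNReal.ofReal B⁻¹ = 1 := by
      rw [← ENNReal.ofReal_mul hB0.le, mul_inv_cancel₀ hB0.ne', ENNReal.ofReal_one]
    have hτ1 : ∀ l, τ l ≤ 1 := by
      intro l
      calc τ l ≤ ENNReal.ofReal B⁻¹ * ENNReal.ofReal B := by
            simp only [hτ]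
            gcongr
            exact hVB l
        _ = 1 := by rw [mul_comm, hBB]
    have hτV : ∀ l, τ l ≤ V (K l) x t := by
      intro l
      calc τ l ≤ 1 * V (K l) x t := by
            simp only [hτ]
            gcongr
            rw [ENNReal.ofReal_le_one]
            exact inv_le_one_of_one_le₀ hB1
        _ = _ := one_mul _
    have hAl : ∀ l : ℤ, ENNReal.ofReal (((2 : ℝ) ^ l) ^ p) * τ l ^ p0 ≤ A x := by
      intro l
      calc ENNReal.ofReal (((2 : ℝ) ^ l) ^ p) * τ l ^ p0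
          ≤ ENNReal.ofReal (((2 : ℝ) ^ l) ^ p) * m l x := by
            gcongr
            exact (ENNReal.rpow_le_rpow (hτV l) hp00.le).trans (hmx l x t ht)
        _ ≤ A x := ENNReal.le_tsum (f := fun l : ℤ =>
            ENNReal.ofReal (((2 : ℝ) ^ l) ^ p) * m l x) l
    have hmeas : ∀ l : ℤ, Measurable fun s : ℝ => if (2 : ℝ) ^ l < |f (x - t • γ s)| then
        ENNReal.ofReal ((2 : ℝ) ^ l) else 0 := by
      intro l
      refine Measurable.ite ?_ measurable_const measurable_const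
      exact ((hKo l).preimage (by fun_prop : Continuous fun s => x - t • γ s)).measurableSet
    calc ∫⁻ s in Ioo a b, ENNReal.ofReal |f (x - t • γ s)|
        ≤ ∫⁻ s in Ioo a b, 2 * ∑' l : ℤ, (if (2 : ℝ) ^ l < |f (x - t • γ s)| then
            ENNReal.ofReal ((2 : ℝ) ^ l) else 0) :=
          lintegral_mono fun s => layer_le _ (abs_nonneg _)
      _ = 2 * ∑' l : ℤ, ∫⁻ s in Ioo a b, (if (2 : ℝ) ^ l < |f (x - t • γ s)| then
            ENNReal.ofReal ((2 : ℝ) ^ l) else 0) := by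
          rw [lintegral_const_mul' _ _ (by simp), lintegral_tsum]
          intro l
          exact (hmeas l).aemeasurable
      _ = 2 * ∑' l : ℤ, ENNReal.ofReal ((2 : ℝ) ^ l) * V (K l) x t := by
          congr 2
          funext l
          have h5 : (fun s => if (2 : ℝ) ^ l < |f (x - t • γ s)| then
              ENNReal.ofReal ((2 : ℝ) ^ l) else 0) =
              {s | x - t • γ s ∈ K l}.indicator fun _ => ENNReal.ofReal ((2 : ℝ) ^ l) := by
            funext s
            by_cases h : (2 : ℝ) ^ l < |f (x - t • γ s)|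
            · rw [if_pos h, indicator_of_mem (show s ∈ {s | x - t • γ s ∈ K l} from h)]
            · rw [if_neg h, indicator_of_notMem (show s ∉ {s | x - t • γ s ∈ K l} from h)]
          have hms : MeasurableSet {s | x - t • γ s ∈ K l} :=
            ((hKo l).preimage (by fun_prop : Continuous fun s => x - t • γ s)).measurableSet
          rw [h5, lintegral_indicator_const hms, Measure.restrict_apply hms, inter_comm]
      _ = 2 * (ENNReal.ofReal B * ∑' l : ℤ, ENNReal.ofReal ((2 : ℝ) ^ l) * τ l) := by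
          congr 1
          rw [← ENNReal.tsum_mul_left]
          congr 1
          funext l
          simp only [hτ]
          calc ENNReal.ofReal ((2 : ℝ) ^ l) * V (K l) x t
              = (ENNReal.ofReal B * ENNReal.ofReal B⁻¹) *
                  (ENNReal.ofReal ((2 : ℝ) ^ l) * V (K l) x t) := by rw [hBB, one_mul]
            _ = _ := by ring
      _ ≤ 2 * (ENNReal.ofReal B * (D * A x ^ (1 / p))) := by
          gcongr
          exact HD _ _ hτ1 hAl
      _ = 2 * (ENNReal.ofReal B * D) * A x ^ (1 / p) := by ring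

/-- The estimate of the norms. -/
theorem norm_bound (𝒦 : Set (En n) → Prop) (γ : ℝ → En n) (hγc : Continuous γ) (a b : ℝ)
    (hab : a < b) (ψ : ℝ → ℝ) (hψ : Continuous ψ) (hsupp : tsupport ψ ⊆ Ioo a b)
    (p0 p : ℝ) (h1 : 1 ≤ p0) (h2 : p0 < p) (Cm : ℝ≥0∞) (hCm : Cm ≠ ⊤)
    (Hm : MajFor 𝒦 γ a b p0 Cm) :
    ∃ C : ℝ≥0∞, C ≠ ⊤ ∧ ∀ (N : ℕ) (f : En n → ℝ), Continuous f → HasCompactSupport f →
      Lev 𝒦 N f → eLpNorm (Mx γ ψ f) (ENNReal.ofReal p) volume ≤
        C * (N : ℝ≥0∞) ^ (p0 / p) * eLpNorm f (ENNReal.ofReal p) volume := by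
  have hpp : 0 < p := by linarith
  obtain ⟨C, D, hC, hD, H⟩ := asm 𝒦 γ hγc a b hab p0 p h1 h2 Cm hCm Hm
  obtain ⟨B, hB⟩ : ∃ B, ∀ s ∈ Icc a b, ‖ψ s‖ ≤ B :=
    isCompact_Icc.exists_bound_of_continuousOn hψ.continuousOn
  set E : ℝ≥0∞ := ENNReal.ofReal B * D with hE
  have hEt : E ≠ ⊤ := ENNReal.mul_ne_top ENNReal.ofReal_ne_top hD
  have hp1 : 0 ≤ 1 / p := by positivity
  refine ⟨E * C ^ (1 / p), ENNReal.mul_ne_top hEt (ENNReal.rpow_ne_top_of_nonneg hp1 hC), ?_⟩
  intro N f hf hfc hlev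
  obtain ⟨A, hA1, hA2, hA3⟩ := H N f hf hfc hlev
  have hpt : ∀ x, ‖Mx γ ψ f x‖ₑ ≤ E * A x ^ (1 / p) := by
    intro x
    apply enorm_Mx_le
    intro t ht
    have h3 : ENNReal.ofReal |∫ s : ℝ, ψ s * f (x - t • γ s)| ≤
        ∫⁻ s, ‖ψ s * f (x - t • γ s)‖ₑ := by
      rw [← Real.norm_eq_abs, ofReal_norm_eq_enorm]
      exact enorm_integral_le_lintegral_enorm _
    have h4 : ∀ s, ‖ψ s * f (x - t • γ s)‖ₑ ≤ (Ioo a b).indicator
        (fun s => ENNReal.ofReal B * ENNReal.ofReal |f (x - t • γ s)|) s := by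
      intro s
      by_cases hs : s ∈ Ioo a b
      · rw [indicator_of_mem hs, ← ofReal_norm_eq_enorm, norm_mul,
          ENNReal.ofReal_mul (norm_nonneg _), Real.norm_eq_abs (f _)]
        gcongr
        exact hB s (Ioo_subset_Icc_self hs)
      · have h0 : ψ s = 0 := by
          by_contra h0
          exact hs (hsupp (subset_tsupport _ h0))
        rw [h0, zero_mul, enorm_zero]
        exact zero_le
    calc ENNReal.ofReal |∫ s : ℝ, ψ s * f (x - t • γ s)|
        ≤ ∫⁻ s, (Ioo a b).indicator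
            (fun s => ENNReal.ofReal B * ENNReal.ofReal |f (x - t • γ s)|) s :=
          h3.trans (lintegral_mono h4)
      _ = ENNReal.ofReal B * ∫⁻ s in Ioo a b, ENNReal.ofReal |f (x - t • γ s)| := by
          rw [lintegral_indicator measurableSet_Ioo, lintegral_const_mul' _ _ ENNReal.ofReal_ne_top]
      _ ≤ ENNReal.ofReal B * (D * A x ^ (1 / p)) := by
          gcongr
          exact hA3 x t ht
      _ = E * A x ^ (1 / p) := by rw [hE, mul_assoc]
  have hSi : ∫⁻ x, A x ≤ C * (N : ℝ≥0∞) ^ p0 * ∫⁻ y, ‖f y‖ₑ ^ p := by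
    have h3 : ∫⁻ y, ENNReal.ofReal (|f y| ^ p) = ∫⁻ y, ‖f y‖ₑ ^ p := by
      congr 1
      funext y
      rw [← ENNReal.ofReal_rpow_of_nonneg (abs_nonneg _) hpp.le, ← Real.norm_eq_abs,
        ofReal_norm_eq_enorm]
    rw [← h3]
    exact hA2
  have hq0 : ENNReal.ofReal p ≠ 0 := by
    rw [Ne, ENNReal.ofReal_eq_zero]
    linarith
  have hqt : (ENNReal.ofReal p).toReal = p := ENNReal.toReal_ofReal hpp.le
  rw [eLpNorm_eq_lintegral_rpow_enorm_toReal hq0 ENNReal.ofReal_ne_top,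
    eLpNorm_eq_lintegral_rpow_enorm_toReal hq0 ENNReal.ofReal_ne_top, hqt]
  calc (∫⁻ x, ‖Mx γ ψ f x‖ₑ ^ p) ^ (1 / p)
      ≤ (∫⁻ x, (E * A x ^ (1 / p)) ^ p) ^ (1 / p) := by
        gcongr with x
        exact hpt x
    _ = (E ^ p * ∫⁻ x, A x) ^ (1 / p) := by
        have h4 : ∀ x, (E * A x ^ (1 / p)) ^ p = E ^ p * A x := by
          intro x
          rw [ENNReal.mul_rpow_of_nonneg _ _ hpp.le, ← ENNReal.rpow_mul, one_div,
            inv_mul_cancel₀ hpp.ne', ENNReal.rpow_one]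
        simp only [h4]
        rw [lintegral_const_mul _ hA1]
    _ ≤ (E ^ p * (C * (N : ℝ≥0∞) ^ p0 * ∫⁻ y, ‖f y‖ₑ ^ p)) ^ (1 / p) := by
        gcongr
    _ = E * C ^ (1 / p) * (N : ℝ≥0∞) ^ (p0 / p) * (∫⁻ x, ‖f x‖ₑ ^ p) ^ (1 / p) := by
        rw [ENNReal.mul_rpow_of_nonneg _ _ hp1, ENNReal.mul_rpow_of_nonneg _ _ hp1,
          ENNReal.mul_rpow_of_nonneg _ _ hp1, ← ENNReal.rpow_mul, ← ENNReal.rpow_mul,
          mul_one_div_cancel hpp.ne', ENNReal.rpow_one, mul_one_div]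
        ring

end Pool.Agent.RadF
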