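import Pool.Agent.RadF.Major

/-!
The majorant for sets which consist of homothetic ellipsoids with a common centre.
-/

open MeasureTheory Set Filter Topology Metric
open scoped ENNReal RealInnerProductSpace ContDiff

namespace Pool.Agent.RadF

open Pool.Agent.MC

variable {n : ℕ}

/-- Unions of ellipsoids `‖L (y - z)‖ = r` with a common centre `z`. -/
def ERad (L : En n ≃L[ℝ] En n) (K : Set (En n)) : Prop :=
  ∃ z : En n, ∀ x y : En n, ‖L (x - z)‖ = ‖L (y - z)‖ → x ∈ K → y ∈ K

/-- The majorant. -/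
theorem majorL (hn : 4 ≤ n) (γ : ℝ → En n) (a b : ℝ) (hab : a < b) (hγ : ContDiff ℝ ∞ γ)
    (hnd : ∀ s ∈ Icc a b, LinearIndependent ℝ (fun k : Fin n => iteratedDeriv ((k : ℕ) + 1) γ s))
    (L : En n ≃L[ℝ] En n) (p0 : ℝ) (h1 : (n : ℝ) < p0) (h2 : p0 < 2 * n) :
    ∃ C : ℝ≥0∞, C ≠ ⊤ ∧ ∀ K : Set (En n), IsOpen K → Bornology.IsBounded K → ERad L K →
      ∃ M : En n → ℝ≥0∞, Measurable M ∧ ∫⁻ x, M x ≤ C * volume K ∧
        ∀ (x : En n) (t : ℝ), 0 < t →
          volume (Ioo a b ∩ {s | x - t • γ s ∈ K}) ^ p0 ≤ M x := by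
  set δ : ℝ → En n := fun s => L (γ s) with hδd
  have hδ : ContDiff ℝ ∞ δ := L.contDiff.comp hγ
  have hit : ∀ (k : ℕ) (s : ℝ), iteratedDeriv k δ s = L (iteratedDeriv k γ s) := by
    intro k
    induction k with
    | zero =>
      intro s
      simp [hδd]
    | succ k ih =>
      intro s
      have h : iteratedDeriv k δ = fun s => L (iteratedDeriv k γ s) := funext ih
      have hd : HasDerivAt (iteratedDeriv k γ) (deriv (iteratedDeriv k γ) s) s :=
        (hγ.differentiable_iteratedDeriv k (by exact_mod_cast WithTop.coe_lt_top _) s).hasDerivAt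
      rw [iteratedDeriv_succ, h, iteratedDeriv_succ]
      exact ((L : En n →L[ℝ] En n).hasFDerivAt.comp_hasDerivAt s hd).deriv
  have hnd' : ∀ s ∈ Icc a b,
      LinearIndependent ℝ (fun k : Fin n => iteratedDeriv ((k : ℕ) + 1) δ s) := by
    intro s hs
    have h3 := (hnd s hs).map' (L.toLinearEquiv : En n →ₗ[ℝ] En n) (LinearEquiv.ker _)
    have h4 : (fun k : Fin n => iteratedDeriv ((k : ℕ) + 1) δ s) =
        (L.toLinearEquiv : En n →ₗ[ℝ] En n) ∘ fun k : Fin n => iteratedDeriv ((k : ℕ) + 1) γ s := by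
      funext k
      exact hit _ s
    rw [h4]
    exact h3
  obtain ⟨C, hC, H⟩ := major hn δ a b hab hδ hnd' p0 h1 h2
  refine ⟨C, hC, ?_⟩
  intro K hK hKb hKr
  obtain ⟨z, hz⟩ := hKr
  set K' : Set (En n) := {y | L.symm y + z ∈ K} with hK'
  have hK'o : IsOpen K' := hK.preimage (by fun_prop : Continuous fun y => L.symm y + z)
  have hK'b : Bornology.IsBounded K' := by
    obtain ⟨R, hR⟩ := isBounded_iff_forall_norm_le.1 hKb
    rw [isBounded_iff_forall_norm_le]
    refine ⟨‖(L : En n →L[ℝ] En n)‖ * (R + ‖z‖), ?_⟩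
    intro y hy
    have h3 : ‖L.symm y + z‖ ≤ R := hR _ hy
    have h4 : ‖L.symm y‖ ≤ R + ‖z‖ := by
      have := norm_sub_le (L.symm y + z) z
      rw [add_sub_cancel_right] at this
      linarith
    calc ‖y‖ = ‖(L : En n →L[ℝ] En n) (L.symm y)‖ := by
          rw [ContinuousLinearEquiv.coe_coe, L.apply_symm_apply]
      _ ≤ ‖(L : En n →L[ℝ] En n)‖ * ‖L.symm y‖ := ContinuousLinearMap.le_opNorm _ _
      _ ≤ _ := by gcongr
  have hK'r : RadSet K' := by
    intro x y hxy hx
    refine hz (L.symm x + z) (L.symm y + z) ?_ hx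
    rw [add_sub_cancel_right, add_sub_cancel_right, L.apply_symm_apply, L.apply_symm_apply]
    exact hxy
  obtain ⟨M, hM, hI, hB⟩ := H K' hK'o hK'b hK'r
  have hdet : LinearMap.det (L.toLinearEquiv : En n →ₗ[ℝ] En n) ≠ 0 :=
    (LinearEquiv.isUnit_det' L.toLinearEquiv).ne_zero
  have hLm : Measurable fun x : En n => L x := L.continuous.measurable
  refine ⟨fun x => M (L (x - z)), hM.comp (L.continuous.measurable.comp (by fun_prop)), ?_, ?_⟩
  · have e1 : ∫⁻ x, M (L (x - z)) = ∫⁻ x, M (L x) :=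
      lintegral_sub_right_eq_self (fun x => M (L x)) z
    have e2 : ∫⁻ x, M (L x) =
        ENNReal.ofReal |(LinearMap.det (L.toLinearEquiv : En n →ₗ[ℝ] En n))⁻¹| * ∫⁻ x, M x := by
      have h3 := Measure.map_linearMap_addHaar_eq_smul_addHaar (volume : Measure (En n)) hdet
      rw [← smul_eq_mul, ← lintegral_smul_measure, ← h3]
      exact (lintegral_map hM hLm).symm
    have e3 : volume K' =
        ENNReal.ofReal |LinearMap.det (L.toLinearEquiv : En n →ₗ[ℝ] En n)| * volume K := by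
      have h3 : K' = L.symm ⁻¹' ((fun x => x + z) ⁻¹' K) := rfl
      rw [h3, Measure.addHaar_preimage_continuousLinearEquiv, measure_preimage_add_right]
      rfl
    rw [e1, e2]
    calc ENNReal.ofReal |(LinearMap.det (L.toLinearEquiv : En n →ₗ[ℝ] En n))⁻¹| * ∫⁻ x, M x
        ≤ ENNReal.ofReal |(LinearMap.det (L.toLinearEquiv : En n →ₗ[ℝ] En n))⁻¹| *
            (C * (ENNReal.ofReal |LinearMap.det (L.toLinearEquiv : En n →ₗ[ℝ] En n)| *
              volume K)) := by
          rw [← e3]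
          gcongr
      _ = (ENNReal.ofReal |(LinearMap.det (L.toLinearEquiv : En n →ₗ[ℝ] En n))⁻¹| *
            ENNReal.ofReal |LinearMap.det (L.toLinearEquiv : En n →ₗ[ℝ] En n)|) *
              (C * volume K) := by ring
      _ = C * volume K := by
          rw [← ENNReal.ofReal_mul (abs_nonneg _), ← abs_mul, inv_mul_cancel₀ hdet, abs_one,
            ENNReal.ofReal_one, one_mul]
  · intro x t ht
    refine le_trans (le_of_eq ?_) (hB (L (x - z)) t ht)
    congr 3
    ext s
    show x - t • γ s ∈ K ↔ L.symm (L (x - z) - t • L (γ s)) + z ∈ K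
    have h3 : L.symm (L (x - z) - t • L (γ s)) + z = x - t • γ s := by
      rw [map_sub, L.symm_apply_apply, map_smul, L.symm_apply_apply]
      abel
    rw [h3]

end Pool.Agent.RadF
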