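import Mathlib

/-!
The Hardy-Littlewood maximal function of a set of real numbers.
-/

open MeasureTheory Set Filter Topology Metric
open scoped ENNReal

namespace Pool.Agent.RadF

/-- The points at which the density of `U` in some interval is larger than `a`. -/
def Vs (U : Set ℝ) (a : ℝ) : Set ℝ :=
  {x | ∃ ρ : ℝ, 0 < ρ ∧ ENNReal.ofReal (a * (2 * ρ)) < volume (U ∩ closedBall x ρ)}

theorem weak {U : Set ℝ} (hUm : MeasurableSet U) (hU : volume U ≠ ⊤) {a : ℝ} (ha : 0 < a) :
    volume (Vs U a) ≤ ENNReal.ofReal (5 / a) * volume U := by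
  classical
  have h1 : ∀ x ∈ Vs U a, ∃ ρ : ℝ, 0 < ρ ∧
      ENNReal.ofReal (a * (2 * ρ)) < volume (U ∩ closedBall x ρ) := fun x hx => hx
  choose! r hr1 hr2 using h1
  have hR : ∀ x ∈ Vs U a, r x ≤ (volume U).toReal / a := by
    intro x hx
    have h2 := (hr2 x hx).le.trans (measure_mono inter_subset_left)
    have h3 := (ENNReal.ofReal_le_iff_le_toReal hU).1 h2
    rw [le_div_iff₀ ha]
    have := hr1 x hx
    nlinarith
  obtain ⟨u, hut, hud, huc⟩ := Vitali.exists_disjoint_subfamily_covering_enlargement_closedBall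
    (Vs U a) (fun x => x) r _ hR 5 (by norm_num)
  have hcount : u.Countable := by
    apply hud.countable_of_nonempty_interior
    intro x hx
    rw [interior_closedBall _ (hr1 x (hut hx)).ne']
    exact ⟨x, mem_ball_self (hr1 x (hut hx))⟩
  have hsub : Vs U a ⊆ ⋃ x ∈ u, closedBall x (5 * r x) := by
    intro x hx
    obtain ⟨b, hb, hb2⟩ := huc x hx
    exact mem_iUnion₂.2 ⟨b, hb, hb2 (mem_closedBall_self (hr1 x hx).le)⟩
  have hterm : ∀ x ∈ u, volume (closedBall x (5 * r x)) ≤
      ENNReal.ofReal (5 / a) * volume (U ∩ closedBall x (r x)) := by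
    intro x hx
    rw [Real.volume_closedBall]
    calc ENNReal.ofReal (2 * (5 * r x)) = ENNReal.ofReal (5 / a) *
          ENNReal.ofReal (a * (2 * r x)) := by
          rw [← ENNReal.ofReal_mul (by positivity)]
          congr 1
          field_simp
      _ ≤ _ := by
          gcongr
          exact (hr2 x (hut hx)).le
  calc volume (Vs U a) ≤ volume (⋃ x ∈ u, closedBall x (5 * r x)) := measure_mono hsub
    _ ≤ ∑' x : u, volume (closedBall (x : ℝ) (5 * r x)) := measure_biUnion_le _ hcount _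
    _ ≤ ∑' x : u, ENNReal.ofReal (5 / a) * volume (U ∩ closedBall (x : ℝ) (r x)) :=
        ENNReal.tsum_le_tsum fun x => hterm x x.2
    _ = ENNReal.ofReal (5 / a) * ∑' x : u, volume (U ∩ closedBall (x : ℝ) (r x)) :=
        ENNReal.tsum_mul_left
    _ = ENNReal.ofReal (5 / a) * volume (⋃ x ∈ u, U ∩ closedBall (x : ℝ) (r x)) := by
        rw [measure_biUnion hcount _ fun x _ => hUm.inter measurableSet_closedBall]
        intro x hx y hy hxy
        exact (hud hx hy hxy).mono inter_subset_right inter_subset_right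
    _ ≤ ENNReal.ofReal (5 / a) * volume U := by
        gcongr
        exact iUnion₂_subset fun x _ => inter_subset_left

/-- The maximal theorem for sets. -/
theorem hl (θ : ℝ) (hθ : 1 < θ) : ∃ C : ℝ≥0∞, C ≠ ⊤ ∧ ∀ U : Set ℝ, MeasurableSet U →
    volume U ≠ ⊤ → ∃ G : ℝ → ℝ≥0∞, Measurable G ∧ ∫⁻ x, G x ≤ C * volume U ∧
      ∀ (x ρ : ℝ), 0 < ρ → (volume (U ∩ closedBall x ρ) / ENNReal.ofReal (2 * ρ)) ^ θ ≤ G x := by
  set κ : ℝ := 2 ^ (1 - θ) with hκ
  have hκ0 : 0 < κ := by positivity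
  have hκ1 : κ < 1 := Real.rpow_lt_one_of_one_lt_of_neg (by norm_num) (by linarith)
  have hsum : Summable fun i : ℕ => 10 * κ ^ i :=
    (summable_geometric_of_lt_one hκ0.le hκ1).mul_left _
  refine ⟨ENNReal.ofReal (∑' i : ℕ, 10 * κ ^ i), ENNReal.ofReal_ne_top, ?_⟩
  intro U hUm hU
  set T : ℕ → Set ℝ := fun i => toMeasurable volume (Vs U ((1 / 2) ^ (i + 1))) with hT
  have hTm : ∀ i, MeasurableSet (T i) := fun i => measurableSet_toMeasurable _ _
  set g : ℕ → ℝ → ℝ≥0∞ := fun i => (T i).indicator fun _ =>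
    ENNReal.ofReal (((1 / 2 : ℝ) ^ i) ^ θ) with hg
  have hgm : ∀ i, Measurable (g i) := fun i => measurable_const.indicator (hTm i)
  refine ⟨fun x => ∑' i, g i x, Measurable.ennreal_tsum hgm, ?_, ?_⟩
  · rw [lintegral_tsum fun i => (hgm i).aemeasurable,
      ENNReal.ofReal_tsum_of_nonneg (fun i => by positivity) hsum, ← ENNReal.tsum_mul_right]
    apply ENNReal.tsum_le_tsum
    intro i
    rw [hg]
    simp only
    rw [lintegral_indicator_const (hTm i), hT]
    simp only
    rw [measure_toMeasurable]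
    calc ENNReal.ofReal (((1 / 2 : ℝ) ^ i) ^ θ) * volume (Vs U ((1 / 2) ^ (i + 1)))
        ≤ ENNReal.ofReal (((1 / 2 : ℝ) ^ i) ^ θ) *
            (ENNReal.ofReal (5 / (1 / 2) ^ (i + 1)) * volume U) := by
          gcongr
          exact weak hUm hU (by positivity)
      _ = ENNReal.ofReal (((1 / 2 : ℝ) ^ i) ^ θ * (5 / (1 / 2) ^ (i + 1))) * volume U := by
          rw [← mul_assoc, ← ENNReal.ofReal_mul (by positivity)]
      _ = ENNReal.ofReal (10 * κ ^ i) * volume U := by
          congr 2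
          have e1 : ((1 / 2 : ℝ) ^ i) ^ θ = (2 ^ (-θ)) ^ i := by
            rw [← Real.rpow_natCast (1 / 2) i, ← Real.rpow_mul (by norm_num),
              ← Real.rpow_natCast _ i, ← Real.rpow_mul (by norm_num), one_div,
              Real.inv_rpow (by norm_num), ← Real.rpow_neg (by norm_num)]
            congr 1
            ring
          have e2 : (5 : ℝ) / (1 / 2) ^ (i + 1) = 10 * 2 ^ i := by
            rw [one_div, inv_pow, div_inv_eq_mul, pow_succ]
            ring
          have e3 : κ = 2 ^ (-θ) * 2 := by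
            rw [hκ, show (1 - θ) = -θ + 1 by ring, Real.rpow_add (by norm_num), Real.rpow_one]
          rw [e1, e2, e3, mul_pow]
          ring
  · intro x ρ hρ
    have h2ρ : (0 : ℝ) < 2 * ρ := by positivity
    set v := volume (U ∩ closedBall x ρ) / ENNReal.ofReal (2 * ρ) with hv
    have hv1 : v ≤ 1 := by
      rw [hv]
      apply ENNReal.div_le_of_le_mul
      rw [one_mul]
      refine (measure_mono inter_subset_right).trans ?_
      rw [Real.volume_closedBall]
    rcases eq_or_ne v 0 with h0 | h0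
    · rw [h0, ENNReal.zero_rpow_of_pos (by linarith)]
      exact zero_le
    have hvt : v ≠ ⊤ := (hv1.trans_lt ENNReal.one_lt_top).ne
    have hvr0 : 0 < v.toReal := ENNReal.toReal_pos h0 hvt
    have hvr1 : v.toReal ≤ 1 := ENNReal.toReal_le_of_le_ofReal zero_le_one (by simpa using hv1)
    obtain ⟨i, hi1, hi2⟩ := exists_nat_pow_near_of_lt_one hvr0 hvr1
      (by norm_num : (0 : ℝ) < 1 / 2) (by norm_num : (1 / 2 : ℝ) < 1)
    have hmem : x ∈ T i := by
      apply subset_toMeasurable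
      refine ⟨ρ, hρ, ?_⟩
      rw [ENNReal.ofReal_mul (by positivity)]
      have h3 : ENNReal.ofReal ((1 / 2) ^ (i + 1)) < v := by
        rw [← ENNReal.ofReal_toReal hvt]
        exact (ENNReal.ofReal_lt_ofReal_iff hvr0).2 hi1
      have h4 : volume (U ∩ closedBall x ρ) = v * ENNReal.ofReal (2 * ρ) := by
        rw [hv, ENNReal.div_mul_cancel]
        · rw [Ne, ENNReal.ofReal_eq_zero]; linarith
        · exact ENNReal.ofReal_ne_top
      rw [h4]
      apply ENNReal.mul_lt_mul_left
      · rw [Ne, ENNReal.ofReal_eq_zero]; linarith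
      · exact ENNReal.ofReal_ne_top
      · exact h3
    refine le_trans ?_ (ENNReal.le_tsum i)
    rw [hg]
    simp only
    rw [indicator_of_mem hmem, ← ENNReal.ofReal_toReal hvt, ENNReal.ofReal_rpow_of_pos hvr0]
    apply ENNReal.ofReal_le_ofReal
    exact Real.rpow_le_rpow hvr0.le hi2 (by linarith)

lemma shell_union : ⋃ j : ℤ, Ico ((4 : ℝ) ^ j) (4 ^ (j + 1)) = Ioi 0 := by
  ext x
  simp only [mem_iUnion, mem_Ioi]
  constructor
  · rintro ⟨j, hj⟩
    exact lt_of_lt_of_le (by positivity) hj.1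
  · intro hx
    obtain ⟨j, hj⟩ := exists_mem_Ico_zpow hx (by norm_num : (1 : ℝ) < 4)
    exact ⟨j, hj⟩

lemma shell_disj : Pairwise (Function.onFun Disjoint fun j : ℤ => Ico ((4 : ℝ) ^ j) (4 ^ (j + 1))) := by
  intro i j hij
  rw [Function.onFun, Set.disjoint_left]
  intro x hx hx'
  apply hij
  have key : ∀ a b : ℤ, x ∈ Ico ((4 : ℝ) ^ a) (4 ^ (a + 1)) → x ∈ Ico ((4 : ℝ) ^ b) (4 ^ (b + 1)) →
      a ≤ b := by
    intro a b ha hb
    have h1 : (4 : ℝ) ^ a < 4 ^ (b + 1) := ha.1.trans_lt hb.2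
    have := (zpow_lt_zpow_iff_right₀ (by norm_num : (1 : ℝ) < 4)).1 h1
    omega
  exact le_antisymm (key i j hx hx') (key j i hx' hx)

/-- The local maximal theorem with a power weight. -/
theorem hl_loc (θ κ : ℝ) (hθ : 1 < θ) (hκ : 0 ≤ κ) : ∃ C : ℝ≥0∞, C ≠ ⊤ ∧ ∀ U : Set ℝ,
    MeasurableSet U → ∃ G : ℝ → ℝ≥0∞, Measurable G ∧
      ∫⁻ x in Ioi 0, G x * ENNReal.ofReal (x ^ κ) ≤
        C * ∫⁻ x in U ∩ Ioi 0, ENNReal.ofReal (x ^ κ) ∧
      ∀ (x ρ : ℝ), 0 < x → 0 < ρ → ρ ≤ x / 2 →
        (volume (U ∩ closedBall x ρ) / ENNReal.ofReal (2 * ρ)) ^ θ ≤ G x := by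
  obtain ⟨C, hC, H⟩ := hl θ hθ
  refine ⟨C * ENNReal.ofReal ((4 ^ 2) ^ κ) * 3, ENNReal.mul_ne_top (ENNReal.mul_ne_top hC
    ENNReal.ofReal_ne_top) (by simp), ?_⟩
  intro U hUm
  set Uj : ℤ → Set ℝ := fun j => U ∩ Ico ((4 : ℝ) ^ (j - 1)) (4 ^ (j + 2)) with hUj
  have hUjm : ∀ j, MeasurableSet (Uj j) := fun j => hUm.inter measurableSet_Ico
  have hUjt : ∀ j, volume (Uj j) ≠ ⊤ := fun j =>
    ((measure_mono inter_subset_right).trans_lt measure_Ico_lt_top).ne
  choose G hGm hGi hG using fun j => H (Uj j) (hUjm j) (hUjt j)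
  set Sh : ℤ → Set ℝ := fun j => Ico ((4 : ℝ) ^ j) (4 ^ (j + 1)) with hSh
  have hShm : ∀ j, MeasurableSet (Sh j) := fun j => measurableSet_Ico
  refine ⟨fun x => ∑' j, (Sh j).indicator (G j) x,
    Measurable.ennreal_tsum fun j => (hGm j).indicator (hShm j), ?_, ?_⟩
  · set w : ℝ → ℝ≥0∞ := fun x => ENNReal.ofReal (x ^ κ) with hw
    have hwm : Measurable w := by
      rw [hw]
      fun_prop
    set I : ℤ → ℝ≥0∞ := fun j => ∫⁻ x in U ∩ Sh j, w x with hI
    have hIsum : ∑' j, I j = ∫⁻ x in U ∩ Ioi 0, w x := by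
      rw [← shell_union, inter_iUnion, lintegral_iUnion (fun j => hUm.inter (hShm j))]
      intro i j hij
      exact (shell_disj hij).mono inter_subset_right inter_subset_right
    have hpiece : ∀ j : ℤ, ∫⁻ x in Ioi 0, (Sh j).indicator (G j) x * w x ≤
        C * ENNReal.ofReal ((4 ^ 2) ^ κ) * (I (j - 1) + I j + I (j + 1)) := by
      intro j
      have hpos : (0 : ℝ) < 4 ^ (j + 1) := by positivity
      have h1 : ∫⁻ x in Ioi 0, (Sh j).indicator (G j) x * w x ≤
          ∫⁻ x, G j x * ENNReal.ofReal ((4 ^ (j + 1)) ^ κ) := by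
        refine (setLIntegral_le_lintegral _ _).trans (lintegral_mono fun x => ?_)
        by_cases hx : x ∈ Sh j
        · rw [indicator_of_mem hx]
          gcongr
          have hx0 : 0 ≤ x := le_trans (by positivity) hx.1
          exact ENNReal.ofReal_le_ofReal (Real.rpow_le_rpow hx0 hx.2.le hκ)
        · rw [indicator_of_notMem hx, zero_mul]
          exact zero_le
      rw [lintegral_mul_const _ (hGm j)] at h1
      have h2 : ENNReal.ofReal ((4 ^ (j + 1)) ^ κ) * volume (Uj j) ≤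
          ENNReal.ofReal ((4 ^ 2) ^ κ) * (I (j - 1) + I j + I (j + 1)) := by
        have h3 : Uj j ⊆ (U ∩ Sh (j - 1)) ∪ ((U ∩ Sh j) ∪ (U ∩ Sh (j + 1))) := by
          intro x hx
          rcases lt_or_ge x (4 ^ j) with h | h
          · left
            refine ⟨hx.1, hx.2.1, ?_⟩
            rwa [sub_add_cancel]
          · rcases lt_or_ge x (4 ^ (j + 1)) with h' | h'
            · right; left
              exact ⟨hx.1, h, h'⟩
            · right; right
              refine ⟨hx.1, h', ?_⟩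
              have := hx.2.2
              rwa [show j + 1 + 1 = j + 2 by ring]
        have hcst : ENNReal.ofReal ((4 ^ (j + 1)) ^ κ) =
            ENNReal.ofReal ((4 ^ 2) ^ κ) * ENNReal.ofReal ((4 ^ (j - 1)) ^ κ) := by
          rw [← ENNReal.ofReal_mul (by positivity), ← Real.mul_rpow (by positivity) (by positivity)]
          congr 2
          rw [← zpow_natCast, ← zpow_add₀ (by norm_num)]
          congr 1
          push_cast
          ring
        rw [hcst, mul_assoc]
        gcongr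
        calc ENNReal.ofReal ((4 ^ (j - 1)) ^ κ) * volume (Uj j)
            = ∫⁻ _ in Uj j, ENNReal.ofReal ((4 ^ (j - 1)) ^ κ) := by
              rw [lintegral_const, Measure.restrict_apply MeasurableSet.univ, univ_inter]
          _ ≤ ∫⁻ x in Uj j, w x := by
              refine setLIntegral_mono hwm ?_
              intro x hx
              exact ENNReal.ofReal_le_ofReal (Real.rpow_le_rpow (by positivity) hx.2.1 hκ)
          _ ≤ ∫⁻ x in (U ∩ Sh (j - 1)) ∪ ((U ∩ Sh j) ∪ (U ∩ Sh (j + 1))), w x :=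
              lintegral_mono_set h3
          _ ≤ I (j - 1) + (I j + I (j + 1)) := by
              refine (lintegral_union_le _ _ _).trans ?_
              gcongr
              exact lintegral_union_le _ _ _
          _ = _ := by rw [add_assoc]
      calc _ ≤ (∫⁻ x, G j x) * ENNReal.ofReal ((4 ^ (j + 1)) ^ κ) := h1
        _ ≤ (C * volume (Uj j)) * ENNReal.ofReal ((4 ^ (j + 1)) ^ κ) := by
            gcongr
            exact hGi j
        _ = C * (ENNReal.ofReal ((4 ^ (j + 1)) ^ κ) * volume (Uj j)) := by ring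
        _ ≤ C * (ENNReal.ofReal ((4 ^ 2) ^ κ) * (I (j - 1) + I j + I (j + 1))) := by gcongr
        _ = _ := by ring
    have hshift1 : ∑' j, I (j - 1) = ∑' j, I j := (Equiv.subRight (1 : ℤ)).tsum_eq I
    have hshift2 : ∑' j, I (j + 1) = ∑' j, I j := (Equiv.addRight (1 : ℤ)).tsum_eq I
    calc ∫⁻ x in Ioi 0, (∑' j, (Sh j).indicator (G j) x) * w x
        = ∫⁻ x in Ioi 0, ∑' j, (Sh j).indicator (G j) x * w x := by
          simp only [ENNReal.tsum_mul_right]
      _ = ∑' j, ∫⁻ x in Ioi 0, (Sh j).indicator (G j) x * w x := by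
          rw [lintegral_tsum]
          intro j
          exact (((hGm j).indicator (hShm j)).mul hwm).aemeasurable
      _ ≤ ∑' j, C * ENNReal.ofReal ((4 ^ 2) ^ κ) * (I (j - 1) + I j + I (j + 1)) :=
          ENNReal.tsum_le_tsum hpiece
      _ = C * ENNReal.ofReal ((4 ^ 2) ^ κ) * 3 * ∫⁻ x in U ∩ Ioi 0, w x := by
          rw [ENNReal.tsum_mul_left, ENNReal.tsum_add, ENNReal.tsum_add, hshift1, hshift2, hIsum]
          ring
  · intro x ρ hx hρ hρx
    obtain ⟨j, hj⟩ := exists_mem_Ico_zpow hx (by norm_num : (1 : ℝ) < 4)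
    refine le_trans ?_ (ENNReal.le_tsum j)
    rw [indicator_of_mem (show x ∈ Sh j from hj)]
    refine le_trans ?_ (hG j x ρ hρ)
    refine ENNReal.rpow_le_rpow (ENNReal.div_le_div_right (measure_mono ?_) _) (by linarith)
    · intro y hy
      refine ⟨⟨hy.1, ?_⟩, hy.2⟩
      have h1 := hy.2
      rw [mem_closedBall, Real.dist_eq, abs_le] at h1
      have h2 : (4 : ℝ) ^ (j - 1) = 4 ^ j / 4 := by
        rw [zpow_sub₀ (by norm_num), zpow_one]
      have h3 : (4 : ℝ) ^ (j + 2) = 4 ^ (j + 1) * 4 := by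
        rw [show j + 2 = (j + 1) + 1 by ring, zpow_add_one₀ (by norm_num)]
      constructor
      · rw [h2]
        have := hj.1
        linarith [h1.1]
      · rw [h3]
        have := hj.2
        linarith [h1.2]

end Pool.Agent.RadF
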