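import Mathlib

/-!
Two integrals.
-/

open MeasureTheory Set Filter Topology
open scoped ENNReal

namespace Pool.Agent.RadF

lemma lint_Ioc {c κ : ℝ} (hc : 0 < c) (hκ : 0 < κ) :
    ∫⁻ L in Ioc 0 c, ENNReal.ofReal (L ^ (κ - 1)) = ENNReal.ofReal (c ^ κ / κ) := by
  have hi : IntervalIntegrable (fun L : ℝ => L ^ (κ - 1)) volume 0 c :=
    intervalIntegral.intervalIntegrable_rpow' (by linarith)
  rw [intervalIntegrable_iff_integrableOn_Ioc_of_le hc.le] at hi
  rw [← ofReal_integral_eq_lintegral_ofReal hi, ← intervalIntegral.integral_of_le hc.le,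
    integral_rpow (Or.inl (by linarith))]
  · congr 1
    rw [sub_add_cancel, Real.zero_rpow hκ.ne', sub_zero]
  · rw [Filter.EventuallyLE, ae_restrict_iff' measurableSet_Ioc]
    exact Eventually.of_forall fun L hL => Real.rpow_nonneg hL.1.le _

lemma lint_Ioi {c κ : ℝ} (hc : 0 < c) (hκ : 0 < κ) :
    ∫⁻ L in Ioi c, ENNReal.ofReal (L ^ (-κ - 1)) = ENNReal.ofReal (c ^ (-κ) / κ) := by
  have hi : IntegrableOn (fun L : ℝ => L ^ (-κ - 1)) (Ioi c) volume :=
    integrableOn_Ioi_rpow_of_lt (by linarith) hc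
  rw [← ofReal_integral_eq_lintegral_ofReal hi, integral_Ioi_rpow_of_lt (by linarith) hc]
  · congr 1
    rw [sub_add_cancel]
    field_simp
  · rw [Filter.EventuallyLE, ae_restrict_iff' measurableSet_Ioi]
    exact Eventually.of_forall fun L hL => Real.rpow_nonneg (hc.le.trans (le_of_lt hL)) _

lemma tail {U : Set ℝ} (hU : MeasurableSet U) {c κ : ℝ} (hc : 0 < c) (hκ : 0 < κ) :
    ∫⁻ L in Ioi (0 : ℝ), volume (U ∩ Ici (c * L)) * ENNReal.ofReal L⁻¹ * ENNReal.ofReal (L ^ κ) ≤
      ENNReal.ofReal (c ^ (-κ) / κ) * ∫⁻ l in U ∩ Ioi 0, ENNReal.ofReal (l ^ κ) := by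
  set F : ℝ → ℝ → ℝ≥0∞ := fun L l =>
    {z : ℝ × ℝ | c * z.1 ≤ z.2}.indicator (fun z => ENNReal.ofReal (z.1 ^ (κ - 1))) (L, l) with hF
  have hSm : MeasurableSet {z : ℝ × ℝ | c * z.1 ≤ z.2} :=
    measurableSet_le (by fun_prop) (by fun_prop)
  have hFm : Measurable (Function.uncurry F) := by
    have : Measurable ({z : ℝ × ℝ | c * z.1 ≤ z.2}.indicator
        (fun z => ENNReal.ofReal (z.1 ^ (κ - 1)))) := by
      refine Measurable.indicator ?_ hSm
      fun_prop
    exact this
  have h1 : ∀ L ∈ Ioi (0 : ℝ), volume (U ∩ Ici (c * L)) * ENNReal.ofReal L⁻¹ *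
      ENNReal.ofReal (L ^ κ) = ∫⁻ l in U ∩ Ioi 0, F L l := by
    intro L hL
    have hL0 : (0 : ℝ) < L := hL
    have e1 : ENNReal.ofReal L⁻¹ * ENNReal.ofReal (L ^ κ) = ENNReal.ofReal (L ^ (κ - 1)) := by
      rw [← ENNReal.ofReal_mul (by positivity)]
      congr 1
      rw [Real.rpow_sub_one hL0.ne']
      field_simp
    have e2 : (fun l => F L l) = (Ici (c * L)).indicator (fun _ => ENNReal.ofReal (L ^ (κ - 1))) := by
      funext l
      by_cases h : c * L ≤ l
      · rw [hF]
        simp only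
        rw [indicator_of_mem (show (L, l) ∈ {z : ℝ × ℝ | c * z.1 ≤ z.2} from h),
          indicator_of_mem (show l ∈ Ici (c * L) from h)]
      · rw [hF]
        simp only
        rw [indicator_of_notMem (show (L, l) ∉ {z : ℝ × ℝ | c * z.1 ≤ z.2} from h),
          indicator_of_notMem (show l ∉ Ici (c * L) from h)]
    rw [e2, lintegral_indicator_const measurableSet_Ici, Measure.restrict_apply measurableSet_Ici,
      mul_assoc, e1, mul_comm]
    congr 2
    ext l
    simp only [mem_inter_iff, mem_Ici, mem_Ioi]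
    constructor
    · rintro ⟨h2, h3⟩
      exact ⟨h3, h2, lt_of_lt_of_le (mul_pos hc hL0) h3⟩
    · rintro ⟨h3, h2, _⟩
      exact ⟨h2, h3⟩
  rw [setLIntegral_congr_fun measurableSet_Ioi h1,
    lintegral_lintegral_swap hFm.aemeasurable, ← lintegral_const_mul _ (by fun_prop)]
  refine setLIntegral_mono' (hU.inter measurableSet_Ioi) ?_
  intro l hl
  have hl0 : (0 : ℝ) < l := hl.2
  have hlc : 0 < l / c := by positivity
  calc ∫⁻ L in Ioi (0 : ℝ), F L l
      ≤ ∫⁻ L in Ioi (0 : ℝ), (Ioc 0 (l / c)).indicator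
          (fun L => ENNReal.ofReal (L ^ (κ - 1))) L := by
        refine setLIntegral_mono' measurableSet_Ioi ?_
        intro L hL
        rw [hF]
        simp only
        by_cases h : c * L ≤ l
        · rw [indicator_of_mem (show (L, l) ∈ {z : ℝ × ℝ | c * z.1 ≤ z.2} from h),
            indicator_of_mem (show L ∈ Ioc 0 (l / c) from ⟨hL, by
              rw [le_div_iff₀ hc]
              linarith⟩)]
        · rw [indicator_of_notMem (show (L, l) ∉ {z : ℝ × ℝ | c * z.1 ≤ z.2} from h)]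
          exact zero_le
    _ ≤ ∫⁻ L, (Ioc 0 (l / c)).indicator (fun L => ENNReal.ofReal (L ^ (κ - 1))) L :=
        setLIntegral_le_lintegral _ _
    _ = ENNReal.ofReal ((l / c) ^ κ / κ) := by
        rw [lintegral_indicator measurableSet_Ioc, lint_Ioc hlc hκ]
    _ = ENNReal.ofReal (c ^ (-κ) / κ) * ENNReal.ofReal (l ^ κ) := by
        rw [← ENNReal.ofReal_mul (by positivity)]
        congr 1
        rw [Real.div_rpow hl0.le hc.le, Real.rpow_neg hc.le]
        field_simp

/-- The kernel for the third part. -/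
lemma kern {A B κ m : ℝ} (hA : 0 < A) (hB : 0 < B) (hκ : 0 ≤ κ) (hm : κ + 1 < m) :
    ∃ D : ℝ, 0 < D ∧ ∀ l : ℝ, 0 < l →
      ∫⁻ L in Ioi (0 : ℝ), ENNReal.ofReal ((max (A * L) (B * l)) ^ (-m)) *
        ENNReal.ofReal (L ^ κ) ≤ ENNReal.ofReal (D * l ^ (κ + 1 - m)) := by
  have hmκ : 0 < m - κ - 1 := by linarith
  refine ⟨B ^ (-m) + A ^ (-m) / (m - κ - 1), by positivity, ?_⟩
  intro l hl
  have hsplit : Ioi (0 : ℝ) = Ioc 0 l ∪ Ioi l := (Ioc_union_Ioi_eq_Ioi hl.le).symm
  have h1 : ∫⁻ L in Ioc (0 : ℝ) l, ENNReal.ofReal ((max (A * L) (B * l)) ^ (-m)) *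
      ENNReal.ofReal (L ^ κ) ≤ ENNReal.ofReal (B ^ (-m) * l ^ (κ + 1 - m)) := by
    calc ∫⁻ L in Ioc (0 : ℝ) l, ENNReal.ofReal ((max (A * L) (B * l)) ^ (-m)) *
          ENNReal.ofReal (L ^ κ)
        ≤ ∫⁻ _ in Ioc (0 : ℝ) l, ENNReal.ofReal ((B * l) ^ (-m)) * ENNReal.ofReal (l ^ κ) := by
          refine setLIntegral_mono' measurableSet_Ioc ?_
          intro L hL
          gcongr ?_ * ?_
          · apply ENNReal.ofReal_le_ofReal
            exact Real.rpow_le_rpow_of_nonpos (by positivity) (le_max_right _ _) (by linarith)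
          · apply ENNReal.ofReal_le_ofReal
            exact Real.rpow_le_rpow hL.1.le hL.2 hκ
      _ = ENNReal.ofReal (B ^ (-m) * l ^ (κ + 1 - m)) := by
          rw [lintegral_const, Measure.restrict_apply MeasurableSet.univ, univ_inter,
            Real.volume_Ioc, sub_zero, ← ENNReal.ofReal_mul (by positivity),
            ← ENNReal.ofReal_mul (by positivity)]
          congr 1
          rw [Real.mul_rpow hB.le hl.le, show κ + 1 - m = κ + 1 + -m by ring, Real.rpow_add hl,
            Real.rpow_add_one hl.ne']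
          ring
  have h2 : ∫⁻ L in Ioi l, ENNReal.ofReal ((max (A * L) (B * l)) ^ (-m)) *
      ENNReal.ofReal (L ^ κ) ≤ ENNReal.ofReal (A ^ (-m) / (m - κ - 1) * l ^ (κ + 1 - m)) := by
    calc ∫⁻ L in Ioi l, ENNReal.ofReal ((max (A * L) (B * l)) ^ (-m)) * ENNReal.ofReal (L ^ κ)
        ≤ ∫⁻ L in Ioi l, ENNReal.ofReal (A ^ (-m)) *
            ENNReal.ofReal (L ^ (-(m - κ - 1) - 1)) := by
          refine setLIntegral_mono' measurableSet_Ioi ?_
          intro L hL
          have hL0 : 0 < L := hl.trans hL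
          rw [← ENNReal.ofReal_mul (by positivity), ← ENNReal.ofReal_mul (by positivity)]
          apply ENNReal.ofReal_le_ofReal
          calc (max (A * L) (B * l)) ^ (-m) * L ^ κ ≤ (A * L) ^ (-m) * L ^ κ := by
                have h3 : (max (A * L) (B * l)) ^ (-m) ≤ (A * L) ^ (-m) :=
                  Real.rpow_le_rpow_of_nonpos (by positivity) (le_max_left _ _) (by linarith)
                exact mul_le_mul_of_nonneg_right h3 (by positivity)
            _ = A ^ (-m) * L ^ (-(m - κ - 1) - 1) := by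
                rw [Real.mul_rpow hA.le hL0.le, show -(m - κ - 1) - 1 = -m + κ by ring,
                  Real.rpow_add hL0]
                ring
      _ = ENNReal.ofReal (A ^ (-m) / (m - κ - 1) * l ^ (κ + 1 - m)) := by
          rw [lintegral_const_mul _ (by fun_prop), lint_Ioi hl hmκ,
            ← ENNReal.ofReal_mul (by positivity)]
          congr 1
          rw [show -(m - κ - 1) = κ + 1 - m by ring]
          ring
  rw [hsplit]
  refine (lintegral_union_le _ _ _).trans ((add_le_add h1 h2).trans (le_of_eq ?_))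
  rw [← ENNReal.ofReal_add (by positivity) (by positivity)]
  congr 1
  ring

end Pool.Agent.RadF
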