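import Pool.Agent.RadF.Part1
import Pool.Agent.RadF.Tail

/-!
The part of the maximal function near the centre.
-/

open MeasureTheory Set Filter Topology Metric
open scoped ENNReal RealInnerProductSpace ContDiff

namespace Pool.Agent.RadF

open Pool.Agent.MC

variable {n : ℕ}

/-- The integral kernel near the centre. -/
noncomputable def Ker (A B m L l : ℝ) : ℝ≥0∞ :=
  ENNReal.ofReal (l ^ (m - 1)) * ENNReal.ofReal ((max (A * L) (B * l)) ^ (-m))

/-- The majorant near the centre. -/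
noncomputable def M3 (A B m : ℝ) (U : Set ℝ) (L : ℝ) : ℝ≥0∞ := ∫⁻ l in U, Ker A B m L l

lemma measurable_Ker (A B m : ℝ) : Measurable fun z : ℝ × ℝ => Ker A B m z.1 z.2 := by
  unfold Ker
  fun_prop

lemma measurable_M3 (A B m : ℝ) (U : Set ℝ) : Measurable (M3 A B m U) :=
  Measurable.lintegral_prod_right' (f := fun z : ℝ × ℝ => Ker A B m z.1 z.2) (measurable_Ker A B m)

lemma lint_M3 {A B κ m : ℝ} (hA : 0 < A) (hB : 0 < B) (hκ : 0 ≤ κ) (hm : κ + 1 < m) :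
    ∃ D : ℝ, 0 < D ∧ ∀ U : Set ℝ, MeasurableSet U → U ⊆ Ioi 0 →
      ∫⁻ L in Ioi (0 : ℝ), M3 A B m U L * ENNReal.ofReal (L ^ κ) ≤
        ENNReal.ofReal D * ∫⁻ l in U, ENNReal.ofReal (l ^ κ) := by
  obtain ⟨D, hD, H⟩ := kern hA hB hκ hm
  refine ⟨D, hD, ?_⟩
  intro U hUm hU0
  set F : ℝ → ℝ → ℝ≥0∞ := fun L l => Ker A B m L l * ENNReal.ofReal (L ^ κ) with hF
  have hFm : Measurable (Function.uncurry F) := by
    have h1 : Measurable fun z : ℝ × ℝ => ENNReal.ofReal (z.1 ^ κ) := by fun_prop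
    exact (measurable_Ker A B m).mul h1
  have h1 : ∀ L ∈ Ioi (0 : ℝ), M3 A B m U L * ENNReal.ofReal (L ^ κ) = ∫⁻ l in U, F L l := by
    intro L _
    have h2 : Measurable fun l => Ker A B m L l := by
      unfold Ker
      fun_prop
    rw [hF]
    simp only
    rw [lintegral_mul_const _ h2]
    rfl
  rw [setLIntegral_congr_fun measurableSet_Ioi h1,
    lintegral_lintegral_swap hFm.aemeasurable, ← lintegral_const_mul _ (by fun_prop)]
  refine setLIntegral_mono' hUm ?_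
  intro l hl
  have hl0 : (0 : ℝ) < l := hU0 hl
  calc ∫⁻ L in Ioi (0 : ℝ), F L l
      = ∫⁻ L in Ioi (0 : ℝ), ENNReal.ofReal (l ^ (m - 1)) *
          (ENNReal.ofReal ((max (A * L) (B * l)) ^ (-m)) * ENNReal.ofReal (L ^ κ)) := by
        refine lintegral_congr fun L => ?_
        rw [hF]
        simp only
        rw [Ker, mul_assoc]
    _ = ENNReal.ofReal (l ^ (m - 1)) * ∫⁻ L in Ioi (0 : ℝ),
          ENNReal.ofReal ((max (A * L) (B * l)) ^ (-m)) * ENNReal.ofReal (L ^ κ) := by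
        rw [lintegral_const_mul _ (by fun_prop)]
    _ ≤ ENNReal.ofReal (l ^ (m - 1)) * ENNReal.ofReal (D * l ^ (κ + 1 - m)) := by
        gcongr
        exact H l hl0
    _ = ENNReal.ofReal D * ENNReal.ofReal (l ^ κ) := by
        rw [← ENNReal.ofReal_mul (by positivity), ← ENNReal.ofReal_mul hD.le]
        congr 1
        have : l ^ κ = l ^ (m - 1) * l ^ (κ + 1 - m) := by
          rw [← Real.rpow_add hl0]
          congr 1
          ring
        rw [this]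
        ring

/-- The part near the centre. -/
theorem part3 (hn : 4 ≤ n) (γ : ℝ → En n) (a b : ℝ) (hab : a < b) (hγ : ContDiff ℝ ∞ γ)
    (hnd : ∀ s ∈ Icc a b, LinearIndependent ℝ (fun k : Fin n => iteratedDeriv ((k : ℕ) + 1) γ s))
    (p0 : ℝ) (h1 : (n : ℝ) < p0) (c0 : ℝ) (hc0 : 0 < c0) :
    ∃ ε : ℝ, 0 < ε ∧ ∃ C : ℝ≥0∞, C ≠ ⊤ ∧ ∀ U : Set ℝ, MeasurableSet U → U ⊆ Ioi 0 →
      volume U ≠ ⊤ → ∃ M : En n → ℝ≥0∞, Measurable M ∧
        2 * ∫⁻ x, M x ≤ C * ∫⁻ l in U, ENNReal.ofReal (l ^ ((n : ℝ) / 2 - 1)) ∧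
        ∀ x : En n, x ≠ 0 → ∀ t, 0 < t → c0 * ‖x‖ ≤ t →
          volume (Ioo a b ∩ Ph γ x t ⁻¹' (U ∩ Iio ((ε * t) ^ 2))) ^ p0 ≤ M x := by
  have hn4 : (4 : ℝ) ≤ n := by exact_mod_cast hn
  obtain ⟨ε, C1, hε, hC1, HS⟩ := small hn γ a b hab hγ hnd
  obtain ⟨D, hD, HD⟩ := lint_M3 (A := c0 ^ 2) (B := (ε ^ 2)⁻¹) (κ := (n : ℝ) / 2 - 1) (m := p0 / 2)
    (by positivity) (by positivity) (by linarith) (by linarith)
  set K : ℝ≥0∞ := ENNReal.ofReal (C1 ^ (p0 / 2)) * ENNReal.ofReal (2 ^ (p0 / 2)) with hK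
  have hKt : K ≠ ⊤ := ENNReal.mul_ne_top ENNReal.ofReal_ne_top ENNReal.ofReal_ne_top
  set S : ℝ≥0∞ := (volume : Measure (En n)).toSphere univ with hS
  have hSt : S ≠ ⊤ := measure_ne_top _ _
  refine ⟨ε, hε, K * S * ENNReal.ofReal D, ENNReal.mul_ne_top (ENNReal.mul_ne_top hKt hSt)
    ENNReal.ofReal_ne_top, ?_⟩
  intro U hUm hU0 hUt
  have hMm := measurable_M3 (c0 ^ 2) (ε ^ 2)⁻¹ (p0 / 2) U
  have hMm' : Measurable fun x : En n => M3 (c0 ^ 2) (ε ^ 2)⁻¹ (p0 / 2) U (‖x‖ ^ 2) :=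
    hMm.comp (by fun_prop)
  refine ⟨fun x => K * M3 (c0 ^ 2) (ε ^ 2)⁻¹ (p0 / 2) U (‖x‖ ^ 2), hMm'.const_mul K, ?_, ?_⟩
  · rw [lintegral_const_mul _ hMm']
    have h2 := polar2 (n := n) (by omega) (fun _ => 1) (M3 (c0 ^ 2) (ε ^ 2)⁻¹ (p0 / 2) U)
      measurable_const hMm
    simp only [one_mul, lintegral_one] at h2
    calc 2 * (K * ∫⁻ x : En n, M3 (c0 ^ 2) (ε ^ 2)⁻¹ (p0 / 2) U (‖x‖ ^ 2))
        = K * (2 * ∫⁻ x : En n, M3 (c0 ^ 2) (ε ^ 2)⁻¹ (p0 / 2) U (‖x‖ ^ 2)) := by ring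
      _ = K * (S * ∫⁻ l in Ioi 0, M3 (c0 ^ 2) (ε ^ 2)⁻¹ (p0 / 2) U l *
            ENNReal.ofReal (l ^ ((n : ℝ) / 2 - 1))) := by rw [h2]
      _ ≤ K * (S * (ENNReal.ofReal D * ∫⁻ l in U, ENNReal.ofReal (l ^ ((n : ℝ) / 2 - 1)))) := by
          gcongr
          exact HD U hUm hU0
      _ = _ := by ring
  · intro x hx t ht htx
    have hx0 : 0 < ‖x‖ := norm_pos_iff.2 hx
    set E := U ∩ Iio ((ε * t) ^ 2) with hE
    have hEm : MeasurableSet E := hUm.inter measurableSet_Iio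
    have hEt : volume E ≠ ⊤ := ((measure_mono inter_subset_left).trans_lt hUt.lt_top).ne
    have hE0 : E ⊆ Ioi 0 := inter_subset_left.trans hU0
    have hs := HS x t ht E hEm hEt inter_subset_right
    have hb := bathtub hEm hE0 hEt (β := p0 / 2 - 1) (by linarith)
    rw [sub_add_cancel] at hb
    set v := volume.real (Ioo a b ∩ Ph γ x t ⁻¹' E) with hv
    have hv0 : 0 ≤ v := measureReal_nonneg
    have hvt : volume (Ioo a b ∩ Ph γ x t ⁻¹' E) ≠ ⊤ := real_Ioo_fin _ _ _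
    have hvr : volume (Ioo a b ∩ Ph γ x t ⁻¹' E) = ENNReal.ofReal v := by
      rw [hv, Measure.real, ENNReal.ofReal_toReal hvt]
    set e := volume.real E with he
    have he0 : 0 ≤ e := measureReal_nonneg
    have h3 : v ^ p0 ≤ C1 ^ (p0 / 2) * ((t ^ 2) ^ (-(p0 / 2)) * e ^ (p0 / 2)) := by
      have e1 : v ^ p0 = (v ^ 2) ^ (p0 / 2) := by
        rw [← Real.rpow_natCast v 2, ← Real.rpow_mul hv0]
        congr 1
        push_cast
        ring
      rw [e1]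
      calc (v ^ 2) ^ (p0 / 2) ≤ (C1 * (e / t ^ 2)) ^ (p0 / 2) := by
            gcongr
            linarith
        _ = _ := by
            rw [Real.mul_rpow hC1.le (by positivity), Real.div_rpow he0 (by positivity),
              Real.rpow_neg (by positivity)]
            ring
    rw [hvr, ENNReal.ofReal_rpow_of_nonneg hv0 (by linarith)]
    calc ENNReal.ofReal (v ^ p0)
        ≤ ENNReal.ofReal (C1 ^ (p0 / 2) * ((t ^ 2) ^ (-(p0 / 2)) * e ^ (p0 / 2))) :=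
          ENNReal.ofReal_le_ofReal h3
      _ = ENNReal.ofReal (C1 ^ (p0 / 2)) * (ENNReal.ofReal ((t ^ 2) ^ (-(p0 / 2))) *
            ENNReal.ofReal (e ^ (p0 / 2))) := by
          rw [ENNReal.ofReal_mul (by positivity), ENNReal.ofReal_mul (by positivity)]
      _ ≤ ENNReal.ofReal (C1 ^ (p0 / 2)) * (ENNReal.ofReal ((t ^ 2) ^ (-(p0 / 2))) *
            (ENNReal.ofReal (2 ^ (p0 / 2)) *
              ∫⁻ l in E, ENNReal.ofReal (l ^ (p0 / 2 - 1)))) := by gcongr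
      _ = K * ∫⁻ l in E, ENNReal.ofReal (l ^ (p0 / 2 - 1)) *
            ENNReal.ofReal ((t ^ 2) ^ (-(p0 / 2))) := by
          rw [lintegral_mul_const _ (by fun_prop), hK]
          ring
      _ ≤ K * ∫⁻ l in E, Ker (c0 ^ 2) (ε ^ 2)⁻¹ (p0 / 2) (‖x‖ ^ 2) l := by
          gcongr K * ?_
          refine setLIntegral_mono' hEm ?_
          intro l hl
          have hl0 : (0 : ℝ) < l := hE0 hl
          have hlt : l < (ε * t) ^ 2 := hl.2
          rw [Ker]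
          gcongr ENNReal.ofReal (l ^ (p0 / 2 - 1)) * ?_
          apply ENNReal.ofReal_le_ofReal
          refine Real.rpow_le_rpow_of_nonpos (by positivity) (max_le ?_ ?_) (by linarith)
          · rw [← mul_pow]
            gcongr
          · rw [inv_mul_le_iff₀ (by positivity)]
            rw [mul_pow] at hlt
            exact hlt.le
      _ ≤ K * M3 (c0 ^ 2) (ε ^ 2)⁻¹ (p0 / 2) U (‖x‖ ^ 2) := by
          gcongr K * ?_
          exact lintegral_mono_set inter_subset_left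

end Pool.Agent.RadF
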