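import Pool.Agent.RadF.Part2
import Pool.Agent.RadF.Part3

/-!
The majorant.
-/

open MeasureTheory Set Filter Topology Metric
open scoped ENNReal RealInnerProductSpace ContDiff

namespace Pool.Agent.RadF

open Pool.Agent.MC

variable {n : ℕ}

/-- The majorant for an open set of squared radii. -/
theorem major0 (hn : 4 ≤ n) (γ : ℝ → En n) (a b : ℝ) (hab : a < b) (hγ : ContDiff ℝ ∞ γ)
    (hnd : ∀ s ∈ Icc a b, LinearIndependent ℝ (fun k : Fin n => iteratedDeriv ((k : ℕ) + 1) γ s))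
    (p0 : ℝ) (h1 : (n : ℝ) < p0) (h2 : p0 < 2 * n) :
    ∃ C : ℝ≥0∞, C ≠ ⊤ ∧ ∀ U : Set ℝ, IsOpen U → U ⊆ Ioi 0 → volume U ≠ ⊤ →
      ∃ M : En n → ℝ≥0∞, Measurable M ∧
        ∫⁻ x, M x ≤ C * ∫⁻ l in U, ENNReal.ofReal (l ^ ((n : ℝ) / 2 - 1)) ∧
          ∀ (x : En n) (t : ℝ), 0 < t → volume (Ioo a b ∩ Ph γ x t ⁻¹' U) ^ p0 ≤ M x := by
  have hn4 : (4 : ℝ) ≤ n := by exact_mod_cast hn
  have hp1 : 1 ≤ p0 := by linarith
  obtain ⟨G0, hG1, hG0⟩ := exists_G hγ a b 0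
  obtain ⟨C1, hC1, H1⟩ := part1 hn γ a b hab hγ hnd p0 h1 h2 G0 hG1 (hG0 0 le_rfl)
  have hc0 : (0 : ℝ) < 1 / (8 * G0) := by positivity
  obtain ⟨ε, hε, C3, hC3, H3⟩ := part3 hn γ a b hab hγ hnd p0 h1 (1 / (8 * G0)) hc0
  obtain ⟨C2, hC2, H2⟩ := part2 hn γ a b hab hγ hnd p0 h1 h2 G0 (fun s hs => by
    have := (hG0 0 le_rfl s hs).1
    rwa [iteratedDeriv_zero] at this) (1 / (8 * G0)) ε hc0 hε
  have h2t : (2 : ℝ≥0∞) ^ (p0 - 1) ≠ ⊤ := ENNReal.rpow_ne_top_of_nonneg (by linarith) (by simp)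
  refine ⟨C1 + 2 ^ (p0 - 1) * (C2 + C3), ENNReal.add_ne_top.2 ⟨hC1, ENNReal.mul_ne_top h2t
    (ENNReal.add_ne_top.2 ⟨hC2, hC3⟩)⟩, ?_⟩
  intro U hU hU0 hUt
  have hUi : U ∩ Ioi 0 = U := inter_eq_left.2 hU0
  obtain ⟨M1, hM1, hI1, hB1⟩ := H1 U hU
  obtain ⟨M2, hM2, hI2, hB2⟩ := H2 U hU
  obtain ⟨M3, hM3, hI3, hB3⟩ := H3 U hU.measurableSet hU0 hUt
  rw [hUi] at hI1 hI2
  set I := ∫⁻ l in U, ENNReal.ofReal (l ^ ((n : ℝ) / 2 - 1)) with hI
  have hle : ∀ y : ℝ≥0∞, y ≤ 2 * y := fun y => by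
    rw [two_mul]
    exact le_self_add
  have hZm : Measurable (({0} : Set (En n)).indicator fun _ => (⊤ : ℝ≥0∞)) :=
    measurable_const.indicator (measurableSet_singleton 0)
  have hM23' : Measurable fun x => M2 x + M3 x := hM2.add hM3
  have hM23 : Measurable fun x => 2 ^ (p0 - 1) * (M2 x + M3 x) := hM23'.const_mul _
  have hM123 : Measurable fun x => M1 x + 2 ^ (p0 - 1) * (M2 x + M3 x) := hM1.add hM23
  refine ⟨fun x => ({0} : Set (En n)).indicator (fun _ => (⊤ : ℝ≥0∞)) x +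
    (M1 x + 2 ^ (p0 - 1) * (M2 x + M3 x)), hZm.add hM123, ?_, ?_⟩
  · have : Nontrivial (En n) := by
      have : Nonempty (Fin n) := ⟨⟨0, by omega⟩⟩
      infer_instance
    rw [lintegral_add_left hZm, lintegral_add_left hM1,
      lintegral_const_mul _ hM23', lintegral_add_left hM2,
      lintegral_indicator_const (measurableSet_singleton 0), measure_singleton, mul_zero, zero_add]
    calc (∫⁻ x, M1 x) + 2 ^ (p0 - 1) * ((∫⁻ x, M2 x) + ∫⁻ x, M3 x)
        ≤ C1 * I + 2 ^ (p0 - 1) * (C2 * I + C3 * I) := by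
          gcongr
          · exact (hle _).trans hI1
          · exact (hle _).trans hI2
          · exact (hle _).trans hI3
      _ = _ := by ring
  · intro x t ht
    rcases eq_or_ne x 0 with hx | hx
    · rw [hx]
      simp only
      rw [indicator_of_mem (mem_singleton _), top_add]
      exact le_top
    · refine le_trans ?_ le_add_self
      rcases le_or_gt t (1 / (8 * G0) * ‖x‖) with htx | htx
      · exact (hB1 x hx t ht htx).trans le_self_add
      · refine le_trans ?_ le_add_self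
        have hsub : Ioo a b ∩ Ph γ x t ⁻¹' U ⊆ (Ioo a b ∩ Ph γ x t ⁻¹' (U ∩ Ici ((ε * t) ^ 2))) ∪
            (Ioo a b ∩ Ph γ x t ⁻¹' (U ∩ Iio ((ε * t) ^ 2))) := by
          rintro s ⟨hs, hsU⟩
          rcases lt_or_ge (Ph γ x t s) ((ε * t) ^ 2) with h | h
          · right
            exact ⟨hs, hsU, h⟩
          · left
            exact ⟨hs, hsU, h⟩
        calc volume (Ioo a b ∩ Ph γ x t ⁻¹' U) ^ p0
            ≤ (volume (Ioo a b ∩ Ph γ x t ⁻¹' (U ∩ Ici ((ε * t) ^ 2))) +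
                volume (Ioo a b ∩ Ph γ x t ⁻¹' (U ∩ Iio ((ε * t) ^ 2)))) ^ p0 := by
              gcongr
              exact (measure_mono hsub).trans (measure_union_le _ _)
          _ ≤ 2 ^ (p0 - 1) * (volume (Ioo a b ∩ Ph γ x t ⁻¹' (U ∩ Ici ((ε * t) ^ 2))) ^ p0 +
                volume (Ioo a b ∩ Ph γ x t ⁻¹' (U ∩ Iio ((ε * t) ^ 2))) ^ p0) :=
              ENNReal.rpow_add_le_mul_rpow_add_rpow _ _ hp1
          _ ≤ 2 ^ (p0 - 1) * (M2 x + M3 x) := by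
              gcongr
              · exact hB2 x hx t ht htx.le
              · exact hB3 x hx t ht htx.le

/-- Radial sets. -/
def RadSet (K : Set (En n)) : Prop := ∀ x y : En n, ‖x‖ = ‖y‖ → x ∈ K → y ∈ K

/-- The majorant for a radial set. -/
theorem major (hn : 4 ≤ n) (γ : ℝ → En n) (a b : ℝ) (hab : a < b) (hγ : ContDiff ℝ ∞ γ)
    (hnd : ∀ s ∈ Icc a b, LinearIndependent ℝ (fun k : Fin n => iteratedDeriv ((k : ℕ) + 1) γ s))
    (p0 : ℝ) (h1 : (n : ℝ) < p0) (h2 : p0 < 2 * n) :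
    ∃ C : ℝ≥0∞, C ≠ ⊤ ∧ ∀ K : Set (En n), IsOpen K → Bornology.IsBounded K → RadSet K →
      ∃ M : En n → ℝ≥0∞, Measurable M ∧ ∫⁻ x, M x ≤ C * volume K ∧
          ∀ (x : En n) (t : ℝ), 0 < t → volume (Ioo a b ∩ {s | x - t • γ s ∈ K}) ^ p0 ≤ M x := by
  obtain ⟨C, hC, H⟩ := major0 hn γ a b hab hγ hnd p0 h1 h2
  have : Nonempty (Fin n) := ⟨⟨0, by omega⟩⟩
  set S : ℝ≥0∞ := (volume : Measure (En n)).toSphere univ with hS
  have hSt : S ≠ ⊤ := measure_ne_top _ _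
  have hS0 : S ≠ 0 := by
    rw [hS, Measure.toSphere_apply_univ]
    refine mul_ne_zero ?_ ?_
    · rw [finrank_euclideanSpace_fin]
      have : n ≠ 0 := by omega
      exact_mod_cast this
    · exact (measure_ball_pos volume 0 one_pos).ne'
  refine ⟨C * (S⁻¹ * 2), ENNReal.mul_ne_top hC (ENNReal.mul_ne_top (ENNReal.inv_ne_top.2 hS0)
    (by simp)), ?_⟩
  intro K hK hKb hKr
  obtain ⟨e, he⟩ : ∃ e : En n, ‖e‖ = 1 := ⟨EuclideanSpace.single ⟨0, by omega⟩ 1, by simp⟩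
  set U : Set ℝ := Ioi 0 ∩ {l | √l • e ∈ K} with hU
  have hUo : IsOpen U := isOpen_Ioi.inter (hK.preimage (by fun_prop : Continuous fun l : ℝ => √l • e))
  have hU0 : U ⊆ Ioi 0 := inter_subset_left
  have hnorm : ∀ l : ℝ, 0 ≤ l → ‖√l • e‖ = √l := by
    intro l hl
    rw [norm_smul, he, mul_one, Real.norm_eq_abs, abs_of_nonneg (Real.sqrt_nonneg _)]
  have hUK : ∀ x : En n, ‖x‖ ^ 2 ∈ U ↔ x ≠ 0 ∧ x ∈ K := by
    intro x
    have h3 : ‖√(‖x‖ ^ 2) • e‖ = ‖x‖ := by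
      rw [hnorm _ (by positivity), Real.sqrt_sq (norm_nonneg _)]
    constructor
    · rintro ⟨h4, h5⟩
      refine ⟨?_, hKr _ _ h3 h5⟩
      rintro rfl
      have h6 : (0 : ℝ) < ‖(0 : En n)‖ ^ 2 := h4
      simp at h6
    · rintro ⟨h4, h5⟩
      refine ⟨?_, hKr _ _ h3.symm h5⟩
      have : 0 < ‖x‖ := norm_pos_iff.2 h4
      show (0 : ℝ) < ‖x‖ ^ 2
      positivity
  have hUt : volume U ≠ ⊤ := by
    obtain ⟨R, hR⟩ := hKb.subset_closedBall 0
    have h3 : U ⊆ Icc 0 (R ^ 2) := by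
      rintro l ⟨hl, hl2⟩
      have h4 := hR hl2
      rw [mem_closedBall_zero_iff, hnorm l (le_of_lt hl)] at h4
      refine ⟨le_of_lt hl, ?_⟩
      calc l = √l ^ 2 := (Real.sq_sqrt (le_of_lt hl)).symm
        _ ≤ R ^ 2 := by gcongr
    exact ((measure_mono h3).trans_lt measure_Icc_lt_top).ne
  obtain ⟨M, hM, hI, hB⟩ := H U hUo hU0 hUt
  refine ⟨M, hM, ?_, ?_⟩
  · refine hI.trans ?_
    rw [mul_assoc]
    gcongr C * ?_
    have h3 := polar2 (n := n) (by omega) (fun _ => 1) (U.indicator fun _ => 1)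
      measurable_const (measurable_const.indicator hUo.measurableSet)
    simp only [one_mul, lintegral_one] at h3
    have h4 : ∫⁻ x : En n, U.indicator (fun _ => (1 : ℝ≥0∞)) (‖x‖ ^ 2) ≤ volume K := by
      calc ∫⁻ x : En n, U.indicator (fun _ => (1 : ℝ≥0∞)) (‖x‖ ^ 2)
          ≤ ∫⁻ x : En n, K.indicator (fun _ => (1 : ℝ≥0∞)) x := by
            refine lintegral_mono fun x => ?_
            by_cases h : ‖x‖ ^ 2 ∈ U
            · rw [indicator_of_mem h, indicator_of_mem ((hUK x).1 h).2]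
            · rw [indicator_of_notMem h]
              exact zero_le
        _ = volume K := by
            rw [lintegral_indicator_const hK.measurableSet, one_mul]
    have h5 : ∫⁻ l in Ioi (0 : ℝ), U.indicator (fun _ => (1 : ℝ≥0∞)) l *
        ENNReal.ofReal (l ^ ((n : ℝ) / 2 - 1)) =
        ∫⁻ l in U, ENNReal.ofReal (l ^ ((n : ℝ) / 2 - 1)) := by
      have h6 : ∀ l : ℝ, U.indicator (fun _ => (1 : ℝ≥0∞)) l *
          ENNReal.ofReal (l ^ ((n : ℝ) / 2 - 1)) =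
          U.indicator (fun l => ENNReal.ofReal (l ^ ((n : ℝ) / 2 - 1))) l := by
        intro l
        by_cases h : l ∈ U
        · rw [indicator_of_mem h, indicator_of_mem h, one_mul]
        · rw [indicator_of_notMem h, indicator_of_notMem h, zero_mul]
      simp only [h6]
      rw [lintegral_indicator hUo.measurableSet, Measure.restrict_restrict hUo.measurableSet,
        inter_eq_left.2 hU0]
    rw [h5] at h3
    calc ∫⁻ l in U, ENNReal.ofReal (l ^ ((n : ℝ) / 2 - 1))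
        = S⁻¹ * (S * ∫⁻ l in U, ENNReal.ofReal (l ^ ((n : ℝ) / 2 - 1))) := by
          rw [← mul_assoc, ENNReal.inv_mul_cancel hS0 hSt, one_mul]
      _ = S⁻¹ * (2 * ∫⁻ x : En n, U.indicator (fun _ => (1 : ℝ≥0∞)) (‖x‖ ^ 2)) := by rw [h3]
      _ ≤ S⁻¹ * (2 * volume K) := by gcongr
      _ = S⁻¹ * 2 * volume K := by rw [mul_assoc]
  · intro x t ht
    refine le_trans ?_ (hB x t ht)
    have hsub : Ioo a b ∩ {s | x - t • γ s ∈ K} ⊆
        (Ioo a b ∩ Ph γ x t ⁻¹' U) ∪ (Ioo a b ∩ Ph γ x t ⁻¹' {0}) := by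
      rintro s ⟨hs, hsK⟩
      by_cases h : x - t • γ s = 0
      · right
        refine ⟨hs, ?_⟩
        show ‖x - t • γ s‖ ^ 2 = 0
        rw [h, norm_zero]
        norm_num
      · left
        exact ⟨hs, (hUK _).2 ⟨h, hsK⟩⟩
    have h3 : volume (Ioo a b ∩ {s | x - t • γ s ∈ K}) ≤ volume (Ioo a b ∩ Ph γ x t ⁻¹' U) := by
      refine (measure_mono hsub).trans ((measure_union_le _ _).trans ?_)
      rw [null_point hn γ a b hab hγ hnd x t ht, add_zero]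
    have : 0 ≤ p0 := by
      have : (4 : ℝ) ≤ n := by exact_mod_cast hn
      linarith
    gcongr

end Pool.Agent.RadF
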