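import Pool.Agent.RadF.Sub
import Pool.Agent.Lib_helper71.MC.FinType

/-!
The set of the points at which all the derivatives of the squared distance are small.
-/

open MeasureTheory Set Filter Topology Metric
open scoped ENNReal RealInnerProductSpace ContDiff

namespace Pool.Agent.RadF

open Pool.Agent.MC

variable {n : ℕ}

/-- The non constant part of the squared distance, divided by the dilation parameter. -/
noncomputable def Ps (γ : ℝ → En n) (x : En n) (t : ℝ) : ℝ → ℝ :=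
  fun s => t * ‖γ s‖ ^ 2 - 2 * ⟪x, γ s⟫

lemma sq_dist (γ : ℝ → En n) (x : En n) (t s : ℝ) :
    ‖x - t • γ s‖ ^ 2 = ‖x‖ ^ 2 + t * Ps γ x t s := by
  rw [norm_sub_sq_real, inner_smul_right, norm_smul, Real.norm_eq_abs, mul_pow, sq_abs, Ps]
  ring

lemma Ps_smul (γ : ℝ → En n) (x : En n) (t r s : ℝ) :
    Ps γ (r • x) (r * t) s = r * Ps γ x t s := by
  rw [Ps, Ps, real_inner_smul_left]
  ring

lemma contDiff_sq {γ : ℝ → En n} (hγ : ContDiff ℝ ∞ γ) : ContDiff ℝ ∞ (fun s => ‖γ s‖ ^ 2) :=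
  hγ.norm_sq ℝ

lemma contDiff_Ps {γ : ℝ → En n} (hγ : ContDiff ℝ ∞ γ) (x : En n) (t : ℝ) :
    ContDiff ℝ ∞ (Ps γ x t) :=
  (contDiff_const.mul (contDiff_sq hγ)).sub (contDiff_const.mul (contDiff_inner γ hγ x))

lemma it_Ps {γ : ℝ → En n} (hγ : ContDiff ℝ ∞ γ) (x : En n) (t : ℝ) (j : ℕ) (s : ℝ) :
    iteratedDeriv j (Ps γ x t) s =
      t * iteratedDeriv j (fun s => ‖γ s‖ ^ 2) s - 2 * ⟪x, iteratedDeriv j γ s⟫ := by
  have hj : ((j : ℕ) : WithTop ℕ∞) ≤ ((⊤ : ℕ∞) : WithTop ℕ∞) := by exact_mod_cast le_top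
  have h1 : ContDiffAt ℝ j (fun s => t * ‖γ s‖ ^ 2) s :=
    ((contDiff_const.mul (contDiff_sq hγ)).of_le hj).contDiffAt
  have h2 : ContDiffAt ℝ j (fun s => 2 * ⟪x, γ s⟫) s :=
    ((contDiff_const.mul (contDiff_inner γ hγ x)).of_le hj).contDiffAt
  have h3 : Ps γ x t = (fun s => t * ‖γ s‖ ^ 2) - (fun s => 2 * ⟪x, γ s⟫) := rfl
  rw [h3, iteratedDeriv_sub h1 h2, iteratedDeriv_const_mul_field, iteratedDeriv_const_mul_field,
    iteratedDeriv_inner γ hγ x j]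

/-- Bounds for the derivatives. -/
lemma exists_G {γ : ℝ → En n} (hγ : ContDiff ℝ ∞ γ) (a b : ℝ) (m : ℕ) : ∃ G : ℝ, 1 ≤ G ∧
    ∀ j ≤ m, ∀ s ∈ Icc a b, ‖iteratedDeriv j γ s‖ ≤ G ∧
      |iteratedDeriv j (fun s => ‖γ s‖ ^ 2) s| ≤ G := by
  have h1 : ∀ j : ℕ, ∃ G : ℝ, ∀ s ∈ Icc a b, ‖iteratedDeriv j γ s‖ ≤ G := fun j =>
    isCompact_Icc.exists_bound_of_continuousOn
      (hγ.continuous_iteratedDeriv j (by exact_mod_cast le_top)).continuousOn
  have h2 : ∀ j : ℕ, ∃ G : ℝ, ∀ s ∈ Icc a b, ‖iteratedDeriv j (fun s => ‖γ s‖ ^ 2) s‖ ≤ G :=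
    fun j => isCompact_Icc.exists_bound_of_continuousOn
      ((contDiff_sq hγ).continuous_iteratedDeriv j (by exact_mod_cast le_top)).continuousOn
  choose G1 hG1 using h1
  choose G2 hG2 using h2
  refine ⟨1 + ∑ j ∈ Finset.range (m + 1), (|G1 j| + |G2 j|), ?_, ?_⟩
  · have : 0 ≤ ∑ j ∈ Finset.range (m + 1), (|G1 j| + |G2 j|) :=
      Finset.sum_nonneg fun j _ => by positivity
    linarith
  · intro j hj s hs
    have h3 : |G1 j| + |G2 j| ≤ ∑ j ∈ Finset.range (m + 1), (|G1 j| + |G2 j|) :=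
      Finset.single_le_sum (f := fun j => |G1 j| + |G2 j|) (fun j _ => by positivity)
        (Finset.mem_range.2 (by omega))
    have h4 := hG1 j s hs
    have h5 := hG2 j s hs
    rw [Real.norm_eq_abs] at h5
    have h6 := le_abs_self (G1 j)
    have h7 := le_abs_self (G2 j)
    have h8 := abs_nonneg (G1 j)
    have h9 := abs_nonneg (G2 j)
    constructor <;> linarith

lemma it_bound {γ : ℝ → En n} (hγ : ContDiff ℝ ∞ γ) {a b G : ℝ} {j : ℕ}
    (hG : ∀ s ∈ Icc a b, ‖iteratedDeriv j γ s‖ ≤ G ∧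
      |iteratedDeriv j (fun s => ‖γ s‖ ^ 2) s| ≤ G) {x : En n} {t T s : ℝ} (hx : ‖x‖ ≤ 1)
    (ht0 : 0 ≤ t) (ht : t ≤ T) (hs : s ∈ Icc a b) :
    |iteratedDeriv j (Ps γ x t) s| ≤ 2 * G * (1 + T) := by
  rw [it_Ps hγ]
  obtain ⟨h1, h2⟩ := hG s hs
  have hG0 : 0 ≤ G := (norm_nonneg _).trans h1
  have h3 : |⟪x, iteratedDeriv j γ s⟫| ≤ G := by
    refine (abs_real_inner_le_norm _ _).trans ?_
    calc ‖x‖ * ‖iteratedDeriv j γ s‖ ≤ 1 * G := by gcongr
      _ = G := one_mul G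
  have hT0 : 0 ≤ T := ht0.trans ht
  have h4 : |t * iteratedDeriv j (fun s => ‖γ s‖ ^ 2) s| ≤ T * G := by
    rw [abs_mul, abs_of_nonneg ht0]
    gcongr
  calc |t * iteratedDeriv j (fun s => ‖γ s‖ ^ 2) s - 2 * ⟪x, iteratedDeriv j γ s⟫|
      ≤ |t * iteratedDeriv j (fun s => ‖γ s‖ ^ 2) s| + |2 * ⟪x, iteratedDeriv j γ s⟫| :=
        abs_sub _ _
    _ ≤ T * G + 2 * G := by
        rw [abs_mul 2, abs_of_pos (by norm_num : (0 : ℝ) < 2)]
        gcongr
    _ ≤ _ := by nlinarith [ht0.trans ht]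

/-- The exceptional set. -/
def Bd (γ : ℝ → En n) (a b T δ : ℝ) : Set (En n) :=
  {x | ‖x‖ ≤ 1 ∧ ∃ t ∈ Icc 0 T, ∃ s ∈ Icc a b, ∀ j, 1 ≤ j → j ≤ n →
    |iteratedDeriv j (Ps γ x t) s| ≤ δ}

lemma isClosed_Bd {γ : ℝ → En n} (hγ : ContDiff ℝ ∞ γ) (a b T δ : ℝ) :
    IsClosed (Bd γ a b T δ) := by
  have hc1 : ∀ j : ℕ, Continuous (iteratedDeriv j γ) := fun k =>
    hγ.continuous_iteratedDeriv k (by exact_mod_cast le_top)
  have hc2 : ∀ j : ℕ, Continuous (iteratedDeriv j (fun s => ‖γ s‖ ^ 2)) := fun k =>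
    (contDiff_sq hγ).continuous_iteratedDeriv k (by exact_mod_cast le_top)
  set K : Set (En n × (ℝ × ℝ)) := {q | q.2.1 ∈ Icc 0 T ∧ q.2.2 ∈ Icc a b ∧ ∀ j, 1 ≤ j → j ≤ n →
    |q.2.1 * iteratedDeriv j (fun s => ‖γ s‖ ^ 2) q.2.2 - 2 * ⟪q.1, iteratedDeriv j γ q.2.2⟫|
      ≤ δ} with hK
  have hKc : IsClosed K := by
    have e : K = {q : En n × (ℝ × ℝ) | q.2.1 ∈ Icc 0 T} ∩ ({q | q.2.2 ∈ Icc a b} ∩
        ⋂ j : ℕ, ⋂ (_ : 1 ≤ j), ⋂ (_ : j ≤ n), {q : En n × (ℝ × ℝ) |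
          |q.2.1 * iteratedDeriv j (fun s => ‖γ s‖ ^ 2) q.2.2 -
            2 * ⟪q.1, iteratedDeriv j γ q.2.2⟫| ≤ δ}) := by
      ext q
      simp only [hK, mem_inter_iff, mem_iInter, mem_setOf_eq]
    rw [e]
    refine IsClosed.inter (isClosed_Icc.preimage (by fun_prop)) (IsClosed.inter
      (isClosed_Icc.preimage (by fun_prop)) ?_)
    refine isClosed_iInter fun j => isClosed_iInter fun _ => isClosed_iInter fun _ => ?_
    refine isClosed_le ?_ continuous_const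
    have h1 := hc1 j
    have h2 := hc2 j
    fun_prop
  have hcomp : IsCompact ((closedBall (0 : En n) 1 ×ˢ (Icc (0 : ℝ) T ×ˢ Icc a b)) ∩ K) :=
    ((isCompact_closedBall _ _).prod (isCompact_Icc.prod isCompact_Icc)).inter_right hKc
  have heq : Bd γ a b T δ = Prod.fst '' ((closedBall (0 : En n) 1 ×ˢ (Icc (0 : ℝ) T ×ˢ Icc a b)) ∩ K) := by
    ext x
    constructor
    · rintro ⟨hx, t, ht, s, hs, h⟩
      refine ⟨(x, (t, s)), ⟨⟨by simpa using hx, ht, hs⟩, ht, hs, ?_⟩, rfl⟩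
      intro j h1 h2
      rw [← it_Ps hγ]
      exact h j h1 h2
    · rintro ⟨⟨y, t, s⟩, ⟨⟨hy, ht, hs⟩, _, _, h⟩, rfl⟩
      refine ⟨by simpa using hy, t, ht, s, hs, ?_⟩
      intro j h1 h2
      rw [it_Ps hγ]
      exact h j h1 h2
  rw [heq]
  exact (hcomp.image continuous_fst).isClosed

lemma smul_mem_Bd {γ : ℝ → En n} {a b T δ : ℝ} (hγ : ContDiff ℝ ∞ γ) {x : En n}
    (hx : x ∈ Bd γ a b T δ) {r : ℝ} (hr0 : 0 ≤ r) (hr1 : r ≤ 1) : r • x ∈ Bd γ a b T δ := by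
  obtain ⟨hx1, t, ht, s, hs, h⟩ := hx
  refine ⟨?_, r * t, ⟨mul_nonneg hr0 ht.1, ?_⟩, s, hs, ?_⟩
  · rw [norm_smul, Real.norm_eq_abs, abs_of_nonneg hr0]
    calc r * ‖x‖ ≤ 1 * 1 := by gcongr
      _ = 1 := one_mul 1
  · calc r * t ≤ 1 * t := by
          have := ht.1
          gcongr
      _ ≤ T := by rw [one_mul]; exact ht.2
  · intro j h1 h2
    have h3 := h j h1 h2
    rw [it_Ps hγ] at h3 ⊢
    rw [real_inner_smul_left]
    have h4 : r * t * iteratedDeriv j (fun s => ‖γ s‖ ^ 2) s - 2 * (r * ⟪x, iteratedDeriv j γ s⟫) =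
        r * (t * iteratedDeriv j (fun s => ‖γ s‖ ^ 2) s - 2 * ⟪x, iteratedDeriv j γ s⟫) := by ring
    rw [h4, abs_mul, abs_of_nonneg hr0]
    calc r * |t * iteratedDeriv j (fun s => ‖γ s‖ ^ 2) s - 2 * ⟪x, iteratedDeriv j γ s⟫|
        ≤ 1 * |t * iteratedDeriv j (fun s => ‖γ s‖ ^ 2) s - 2 * ⟪x, iteratedDeriv j γ s⟫| := by
          gcongr
      _ ≤ δ := by rw [one_mul]; exact h3

/-- A lower bound for the coordinates in the frame of the derivatives. -/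
lemma frame (hn : 0 < n) (γ : ℝ → En n) (a b : ℝ) (hab : a < b) (hγ : ContDiff ℝ ∞ γ)
    (hnd : ∀ s ∈ Icc a b, LinearIndependent ℝ (fun k : Fin n => iteratedDeriv ((k : ℕ) + 1) γ s)) :
    ∃ c : ℝ, 0 < c ∧ ∀ x : En n, ∀ s ∈ Icc a b, ∃ j, 1 ≤ j ∧ j ≤ n ∧
      c * ‖x‖ ≤ |⟪x, iteratedDeriv j γ s⟫| := by
  obtain ⟨c, δ, hc, hδ, H⟩ := finite_type hn γ a b hab hγ hnd
  refine ⟨c, hc, ?_⟩
  intro x s hs
  rcases eq_or_ne x 0 with h0 | h0
  · refine ⟨1, le_rfl, hn, ?_⟩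
    rw [h0]
    simp
  · have hx : 0 < ‖x‖ := norm_pos_iff.2 h0
    obtain ⟨k, hk, h⟩ := H (‖x‖⁻¹ • x) (by
      rw [norm_smul, norm_inv, norm_norm, inv_mul_cancel₀ hx.ne']) s hs
    refine ⟨k + 1, by omega, hk, ?_⟩
    have h1 : c ≤ |⟪‖x‖⁻¹ • x, iteratedDeriv (k + 1) γ s⟫| := by
      rcases h with h | h
      · exact (h s hs (by simpa using hδ)).trans (le_abs_self _)
      · have := h s hs (by simpa using hδ)
        exact le_abs.2 (Or.inr (by linarith))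
    rw [real_inner_smul_left, abs_mul, abs_inv, abs_norm] at h1
    calc c * ‖x‖ ≤ ‖x‖⁻¹ * |⟪x, iteratedDeriv (k + 1) γ s⟫| * ‖x‖ := by gcongr
      _ = |⟪x, iteratedDeriv (k + 1) γ s⟫| := by field_simp

/-- The exceptional set is small. -/
theorem net (hn : 4 ≤ n) (γ : ℝ → En n) (a b : ℝ) (hab : a < b) (hγ : ContDiff ℝ ∞ γ)
    (hnd : ∀ s ∈ Icc a b, LinearIndependent ℝ (fun k : Fin n => iteratedDeriv ((k : ℕ) + 1) γ s)) :
    ∃ C : ℝ, 0 < C ∧ ∀ T δ : ℝ, 0 ≤ T → 0 < δ → δ ≤ 1 →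
      volume (Bd γ a b T δ) ≤ ENNReal.ofReal (C * (1 + T) ^ 2 * δ ^ 2) := by
  obtain ⟨c, hc, hfr⟩ := frame (by omega : 0 < n) γ a b hab hγ hnd
  obtain ⟨G, hG1, hG⟩ := exists_G hγ a b (n + 1)
  set A := 1 + 3 * G with hA
  have hA0 : 0 < A := by linarith
  set V := volume.real (ball (0 : En n) 1) with hV
  have hV0 : 0 ≤ V := measureReal_nonneg
  set C := (b - a + 1) * ((A / c) ^ n * V) + 1 with hC
  have hba : 0 < b - a + 1 := by linarith
  refine ⟨C, by positivity, ?_⟩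
  intro T δ hT hδ hδ1
  have h1T : (0 : ℝ) < 1 + T := by linarith
  set σ := δ / (1 + T) with hσ
  have hσ0 : 0 < σ := by positivity
  set N1 := ⌊(b - a) / σ⌋₊ with hN1
  set N2 := ⌊T / δ⌋₊ with hN2
  set S : ℕ → ℝ := fun i => a + i * σ with hS
  set R : ℕ → ℝ := fun k => k * δ with hR
  set Q : ℕ → ℕ → Set (En n) := fun i k => {x | S i ∈ Icc a b ∧ ∀ j, 1 ≤ j → j ≤ n →
    |iteratedDeriv j (Ps γ x (R k)) (S i)| ≤ A * δ} with hQ
  have hcov : Bd γ a b T δ ⊆ ⋃ i ∈ Finset.range (N1 + 1), ⋃ k ∈ Finset.range (N2 + 1), Q i k := by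
    rintro x ⟨hx, t, ht, s, hs, h⟩
    set i := ⌊(s - a) / σ⌋₊ with hi
    set k := ⌊t / δ⌋₊ with hk
    have hi1 : (i : ℝ) ≤ (s - a) / σ := Nat.floor_le (div_nonneg (by linarith [hs.1]) hσ0.le)
    have hi2 : (s - a) / σ < i + 1 := Nat.lt_floor_add_one _
    have hk1 : (k : ℝ) ≤ t / δ := Nat.floor_le (div_nonneg ht.1 hδ.le)
    have hk2 : t / δ < k + 1 := Nat.lt_floor_add_one _
    rw [le_div_iff₀ hσ0] at hi1
    rw [div_lt_iff₀ hσ0] at hi2
    rw [le_div_iff₀ hδ] at hk1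
    rw [div_lt_iff₀ hδ] at hk2
    have hiN : i < N1 + 1 := by
      rw [Nat.lt_succ_iff]
      apply Nat.floor_le_floor
      gcongr
      exact hs.2
    have hkN : k < N2 + 1 := by
      rw [Nat.lt_succ_iff]
      apply Nat.floor_le_floor
      gcongr
      exact ht.2
    refine mem_iUnion₂.2 ⟨i, Finset.mem_range.2 hiN, mem_iUnion₂.2
      ⟨k, Finset.mem_range.2 hkN, ?_⟩⟩
    have hSi : S i ∈ Icc a b := by
      simp only [hS]
      constructor
      · have : 0 ≤ (i : ℝ) * σ := by positivity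
        linarith
      · linarith [hs.2]
    refine ⟨hSi, ?_⟩
    intro j hj1 hjn
    -- variation in s
    have v1 : |iteratedDeriv j (Ps γ x t) (S i) - iteratedDeriv j (Ps γ x t) s| ≤ 2 * G * δ := by
      have h1 := (convex_Icc a b).norm_image_sub_le_of_norm_deriv_le
        (f := iteratedDeriv j (Ps γ x t)) (C := 2 * G * (1 + T))
        (fun s _ => diff_it (contDiff_Ps hγ x t) j s) (fun s' hs' => by
          rw [deriv_it, Real.norm_eq_abs]
          exact it_bound hγ (hG (j + 1) (by omega)) hx ht.1 ht.2 hs') hs hSi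
      rw [Real.norm_eq_abs, Real.norm_eq_abs] at h1
      refine h1.trans ?_
      have h2 : |S i - s| ≤ σ := by
        rw [abs_le]
        simp only [hS]
        constructor <;> linarith
      calc 2 * G * (1 + T) * |S i - s| ≤ 2 * G * (1 + T) * σ := by gcongr
        _ = 2 * G * δ := by rw [hσ]; field_simp
    -- variation in t
    have v2 : |iteratedDeriv j (Ps γ x (R k)) (S i) - iteratedDeriv j (Ps γ x t) (S i)| ≤ G * δ := by
      rw [it_Ps hγ, it_Ps hγ]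
      have h3 : R k * iteratedDeriv j (fun s => ‖γ s‖ ^ 2) (S i) -
          2 * ⟪x, iteratedDeriv j γ (S i)⟫ - (t * iteratedDeriv j (fun s => ‖γ s‖ ^ 2) (S i) -
          2 * ⟪x, iteratedDeriv j γ (S i)⟫) =
          (R k - t) * iteratedDeriv j (fun s => ‖γ s‖ ^ 2) (S i) := by ring
      rw [h3, abs_mul]
      have h4 : |R k - t| ≤ δ := by
        rw [abs_le]
        simp only [hR]
        constructor <;> linarith
      calc |R k - t| * |iteratedDeriv j (fun s => ‖γ s‖ ^ 2) (S i)| ≤ δ * G := by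
            gcongr
            exact (hG j (by omega) (S i) hSi).2
        _ = G * δ := mul_comm _ _
    have v3 := h j hj1 hjn
    have e1 : iteratedDeriv j (Ps γ x (R k)) (S i) = (iteratedDeriv j (Ps γ x (R k)) (S i) -
        iteratedDeriv j (Ps γ x t) (S i)) + (iteratedDeriv j (Ps γ x t) (S i) -
        iteratedDeriv j (Ps γ x t) s) + iteratedDeriv j (Ps γ x t) s := by ring
    rw [e1]
    refine (abs_add_three _ _ _).trans ?_
    rw [hA]
    linarith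
  have hQv : ∀ i k, volume (Q i k) ≤ ENNReal.ofReal ((A * δ / c) ^ n * V) := by
    intro i k
    rcases (Q i k).eq_empty_or_nonempty with h0 | ⟨x0, hx0⟩
    · rw [h0, measure_empty]
      exact zero_le
    · have hsub : Q i k ⊆ closedBall x0 (A * δ / c) := by
        intro x hx
        obtain ⟨hSi, hx⟩ := hx
        obtain ⟨_, hx0⟩ := hx0
        obtain ⟨j, hj1, hjn, hj⟩ := hfr (x - x0) (S i) hSi
        have h1 := hx j hj1 hjn
        have h2 := hx0 j hj1 hjn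
        rw [it_Ps hγ] at h1 h2
        have h3 : 2 * |⟪x - x0, iteratedDeriv j γ (S i)⟫| ≤ A * δ + A * δ := by
          have e : 2 * ⟪x - x0, iteratedDeriv j γ (S i)⟫ =
              (R k * iteratedDeriv j (fun s => ‖γ s‖ ^ 2) (S i) - 2 * ⟪x0, iteratedDeriv j γ (S i)⟫)
              - (R k * iteratedDeriv j (fun s => ‖γ s‖ ^ 2) (S i) -
                2 * ⟪x, iteratedDeriv j γ (S i)⟫) := by
            rw [inner_sub_left]
            ring
          have e2 : 2 * |⟪x - x0, iteratedDeriv j γ (S i)⟫| =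
              |2 * ⟪x - x0, iteratedDeriv j γ (S i)⟫| := by
            rw [abs_mul, abs_of_pos (by norm_num : (0 : ℝ) < 2)]
          rw [e2, e]
          exact (abs_sub _ _).trans (add_le_add h2 h1)
        rw [mem_closedBall, dist_eq_norm, le_div_iff₀ hc]
        linarith
      refine (measure_mono hsub).trans ?_
      rw [Measure.addHaar_closedBall volume x0 (by positivity), finrank_euclideanSpace_fin,
        ENNReal.ofReal_mul (by positivity)]
      gcongr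
      rw [hV, Measure.real, ENNReal.ofReal_toReal measure_ball_lt_top.ne]
  have hcount : ((N1 + 1 : ℕ) : ℝ) * ((N2 + 1 : ℕ) : ℝ) ≤ (b - a + 1) * (1 + T) ^ 2 / δ ^ 2 := by
    have h1 : ((N1 + 1 : ℕ) : ℝ) ≤ (b - a + 1) * (1 + T) / δ := by
      have h2 : (N1 : ℝ) ≤ (b - a) / σ := Nat.floor_le (div_nonneg (by linarith) hσ0.le)
      have h3 : (b - a) / σ = (b - a) * (1 + T) / δ := by rw [hσ]; field_simp
      have h4 : 1 ≤ (1 + T) / δ := by
        rw [le_div_iff₀ hδ]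
        linarith
      push_cast
      calc (N1 : ℝ) + 1 ≤ (b - a) * (1 + T) / δ + (1 + T) / δ := by
            rw [← h3]
            linarith
        _ = _ := by ring
    have h5 : ((N2 + 1 : ℕ) : ℝ) ≤ (1 + T) / δ := by
      have h2 : (N2 : ℝ) ≤ T / δ := Nat.floor_le (div_nonneg hT hδ.le)
      have h4 : 1 ≤ 1 / δ := by
        rw [le_div_iff₀ hδ]
        linarith
      push_cast
      calc (N2 : ℝ) + 1 ≤ T / δ + 1 / δ := by linarith
        _ = _ := by ring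
    calc ((N1 + 1 : ℕ) : ℝ) * ((N2 + 1 : ℕ) : ℝ)
        ≤ ((b - a + 1) * (1 + T) / δ) * ((1 + T) / δ) := by gcongr
      _ = _ := by field_simp
  calc volume (Bd γ a b T δ)
      ≤ volume (⋃ i ∈ Finset.range (N1 + 1), ⋃ k ∈ Finset.range (N2 + 1), Q i k) :=
        measure_mono hcov
    _ ≤ ∑ i ∈ Finset.range (N1 + 1), volume (⋃ k ∈ Finset.range (N2 + 1), Q i k) :=
        measure_biUnion_finset_le _ _
    _ ≤ ∑ i ∈ Finset.range (N1 + 1), ∑ k ∈ Finset.range (N2 + 1), volume (Q i k) := by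
        gcongr
        exact measure_biUnion_finset_le _ _
    _ ≤ ∑ _i ∈ Finset.range (N1 + 1), ∑ _k ∈ Finset.range (N2 + 1),
          ENNReal.ofReal ((A * δ / c) ^ n * V) := by
        gcongr
        exact hQv _ _
    _ = ENNReal.ofReal (((N1 + 1 : ℕ) : ℝ) * ((N2 + 1 : ℕ) : ℝ) * ((A * δ / c) ^ n * V)) := by
        rw [Finset.sum_const, Finset.sum_const, Finset.card_range, Finset.card_range,
          nsmul_eq_mul, nsmul_eq_mul, ← mul_assoc,
          ENNReal.ofReal_mul (p := ((N1 + 1 : ℕ) : ℝ) * ((N2 + 1 : ℕ) : ℝ)) (by positivity),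
          ENNReal.ofReal_mul (p := ((N1 + 1 : ℕ) : ℝ)) (by positivity),
          ENNReal.ofReal_natCast, ENNReal.ofReal_natCast]
    _ ≤ ENNReal.ofReal (C * (1 + T) ^ 2 * δ ^ 2) := by
        apply ENNReal.ofReal_le_ofReal
        have h6 : δ ^ n ≤ δ ^ 4 := pow_le_pow_of_le_one hδ.le hδ1 hn
        calc ((N1 + 1 : ℕ) : ℝ) * ((N2 + 1 : ℕ) : ℝ) * ((A * δ / c) ^ n * V)
            ≤ ((b - a + 1) * (1 + T) ^ 2 / δ ^ 2) * ((A / c) ^ n * δ ^ 4 * V) := by
              gcongr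
              rw [show A * δ / c = (A / c) * δ by ring, mul_pow]
              gcongr
          _ = ((b - a + 1) * ((A / c) ^ n * V)) * (1 + T) ^ 2 * δ ^ 2 := by
              field_simp
          _ ≤ C * (1 + T) ^ 2 * δ ^ 2 := by
              gcongr
              linarith

end Pool.Agent.RadF
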