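import Mathlib
import Pool.Agent.Lib_helper71.MC.OneDim

/-!
Preimages of measurable sets under functions with a large derivative of some order.
-/

open MeasureTheory Set Filter Topology
open scoped ENNReal ContDiff

namespace Pool.Agent.RadF

open Pool.Agent.MC

lemma base_mono {h : ℝ → ℝ} (hh : ContDiff ℝ ∞ h) {α β : ℝ}
    (hd : ∀ s ∈ Ioo α β, 0 ≤ deriv h s) {E : Set ℝ} (hE : MeasurableSet E) {τ : ℝ} :
    ENNReal.ofReal τ * volume (Ioo α β ∩ h ⁻¹' E ∩ {s | τ ≤ |deriv h s|}) ≤ volume E := by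
  have hdiff : Differentiable ℝ h := hh.differentiable (by simp)
  have hcd : Continuous (deriv h) := hh.continuous_deriv (by simp)
  set S := Ioo α β ∩ h ⁻¹' E ∩ {s | τ ≤ |deriv h s|} with hS
  have hSm : MeasurableSet S := by
    refine (measurableSet_Ioo.inter (hdiff.continuous.measurable hE)).inter ?_
    exact measurableSet_le measurable_const hcd.abs.measurable
  have hmono : MonotoneOn h S := by
    refine MonotoneOn.mono (monotoneOn_of_deriv hdiff hd) ?_
    intro s hs
    exact Ioo_subset_Icc_self hs.1.1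
  have h1 := lintegral_image_eq_lintegral_deriv_mul_of_monotoneOn (f' := deriv h) hSm
    (fun x _ => (hdiff x).hasDerivAt.hasDerivWithinAt) hmono (fun _ => 1)
  simp only [mul_one, lintegral_const, Measure.restrict_apply MeasurableSet.univ, univ_inter,
    one_mul] at h1
  have h2 : h '' S ⊆ E := by
    rintro _ ⟨s, hs, rfl⟩
    exact hs.1.2
  calc ENNReal.ofReal τ * volume S = ∫⁻ _ in S, ENNReal.ofReal τ := by
        rw [lintegral_const, Measure.restrict_apply MeasurableSet.univ, univ_inter]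
    _ ≤ ∫⁻ s in S, ENNReal.ofReal (deriv h s) := by
        refine setLIntegral_mono hcd.measurable.ennreal_ofReal ?_
        intro s hs
        apply ENNReal.ofReal_le_ofReal
        have h3 : τ ≤ |deriv h s| := hs.2
        rwa [abs_of_nonneg (hd s hs.1.1)] at h3
    _ = volume (h '' S) := h1.symm
    _ ≤ volume E := measure_mono h2

/-- Preimages, where the first derivative is large. -/
theorem big_deriv (m : ℕ) : ∀ h : ℝ → ℝ, ContDiff ℝ ∞ h → ∀ α β : ℝ,
    (∀ s ∈ Ioo α β, 0 ≤ iteratedDeriv (m + 1) h s) → ∀ E : Set ℝ, MeasurableSet E → ∀ τ : ℝ,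
      ENNReal.ofReal τ * volume (Ioo α β ∩ h ⁻¹' E ∩ {s | τ ≤ |deriv h s|}) ≤
        2 ^ m * volume E := by
  induction m with
  | zero =>
    intro h hh α β hd E hE τ
    rw [pow_zero, one_mul]
    refine base_mono hh ?_ hE
    intro s hs
    have := hd s hs
    simpa [iteratedDeriv_one] using this
  | succ m ih =>
    intro g hg α β hd E hE τ
    rcases le_or_gt β α with hαβ | hαβ
    · rw [Ioo_eq_empty (not_lt.2 hαβ)]
      simp
    have hvd : Differentiable ℝ (iteratedDeriv (m + 1) g) :=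
      hg.differentiable_iteratedDeriv (m + 1) (by exact_mod_cast WithTop.coe_lt_top _)
    have hvder : deriv (iteratedDeriv (m + 1) g) = iteratedDeriv (m + 2) g :=
      (iteratedDeriv_succ (n := m + 1) (f := g)).symm
    have hmono : MonotoneOn (iteratedDeriv (m + 1) g) (Icc α β) := by
      apply monotoneOn_of_deriv hvd
      intro s hs
      rw [hvder]
      exact hd s hs
    obtain ⟨θ, hθ, hneg, hposi⟩ := split_mono hαβ.le (hmono.mono Ioo_subset_Icc_self)
    have h2 := ih g hg θ β hposi E hE τ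
    have h1 := ih (fun x => -g x) hg.neg α θ (fun s hs => by
      have h3 : iteratedDeriv (m + 1) (fun x => -g x) s = -iteratedDeriv (m + 1) g s := by
        have := iteratedDeriv_fun_neg (m + 1) g s
        simp
      rw [h3]
      linarith [hneg s hs]) (Neg.neg ⁻¹' E) (measurable_neg hE) τ
    have hder : ∀ s, |deriv (fun x => -g x) s| = |deriv g s| := by
      intro s
      rw [deriv.fun_neg, abs_neg]
    have hvol : volume (Neg.neg ⁻¹' E) = volume E := by
      have := (Measure.measurePreserving_neg (volume : Measure ℝ)).measure_preimage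
        hE.nullMeasurableSet
      exact this
    have hpre : (fun x => -g x) ⁻¹' (Neg.neg ⁻¹' E) = g ⁻¹' E := by
      ext s
      simp
    simp only [hder, hvol, hpre] at h1
    have hcover : Ioo α β ∩ g ⁻¹' E ∩ {s | τ ≤ |deriv g s|} ⊆
        (Ioo α θ ∩ g ⁻¹' E ∩ {s | τ ≤ |deriv g s|}) ∪
        ((Ioo θ β ∩ g ⁻¹' E ∩ {s | τ ≤ |deriv g s|}) ∪ {θ}) := by
      intro s hs
      rcases lt_trichotomy s θ with h | h | h
      · left; exact ⟨⟨⟨hs.1.1.1, h⟩, hs.1.2⟩, hs.2⟩
      · right; right; exact h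
      · right; left; exact ⟨⟨⟨h, hs.1.1.2⟩, hs.1.2⟩, hs.2⟩
    calc ENNReal.ofReal τ * volume (Ioo α β ∩ g ⁻¹' E ∩ {s | τ ≤ |deriv g s|})
        ≤ ENNReal.ofReal τ * (volume (Ioo α θ ∩ g ⁻¹' E ∩ {s | τ ≤ |deriv g s|}) +
          (volume (Ioo θ β ∩ g ⁻¹' E ∩ {s | τ ≤ |deriv g s|}) + 0)) := by
          gcongr
          refine (measure_mono hcover).trans ((measure_union_le _ _).trans ?_)
          gcongr
          refine (measure_union_le _ _).trans ?_
          rw [Real.volume_singleton]
      _ ≤ 2 ^ m * volume E + 2 ^ m * volume E := by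
          rw [add_zero, mul_add]
          exact add_le_add h1 h2
      _ = 2 ^ (m + 1) * volume E := by
          rw [pow_succ]
          ring

/-- Preimages under a function with a large derivative of order `m + 1`. -/
theorem oneInt0 (m : ℕ) : ∃ C : ℝ, 0 < C ∧ ∀ h : ℝ → ℝ, ContDiff ℝ ∞ h → ∀ α β c : ℝ, 0 < c →
    (∀ s ∈ Ioo α β, c ≤ iteratedDeriv (m + 1) h s) →
      ∀ E : Set ℝ, MeasurableSet E → volume E ≠ ⊤ →
        volume.real (Ioo α β ∩ h ⁻¹' E) ^ (m + 1) ≤ C * volume.real E / c := by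
  rcases m with _ | m
  · refine ⟨1, one_pos, ?_⟩
    intro h hh α β c hc hd E hE hEt
    have h1 := big_deriv 0 h hh α β (fun s hs => hc.le.trans (hd s hs)) E hE c
    have h2 : Ioo α β ∩ h ⁻¹' E ∩ {s | c ≤ |deriv h s|} = Ioo α β ∩ h ⁻¹' E := by
      apply inter_eq_left.2
      intro s hs
      have := hd s hs.1
      rw [zero_add, iteratedDeriv_one] at this
      exact this.trans (le_abs_self _)
    rw [h2, pow_zero, one_mul] at h1
    rw [zero_add, pow_one, one_mul, le_div_iff₀ hc, mul_comm]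
    have h3 := ENNReal.toReal_mono hEt h1
    rw [ENNReal.toReal_mul, ENNReal.toReal_ofReal hc.le] at h3
    exact h3
  · obtain ⟨C, hC, HC⟩ := sublevel m
    refine ⟨2 ^ (m + 1) * C * 4 ^ (m + 1) * 2, by positivity, ?_⟩
    intro h hh α β c hc hd E hE hEt
    set S := Ioo α β ∩ h ⁻¹' E with hS
    set v := volume.real S with hv
    have hSt : volume S ≠ ⊤ :=
      ((measure_mono inter_subset_left).trans_lt (measure_Ioo_lt_top (a := α) (b := β))).ne
    have hv0 : 0 ≤ v := measureReal_nonneg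
    rcases hv0.eq_or_lt with h0 | hpos
    · rw [← h0, zero_pow (by omega)]
      positivity
    set τ := c * (v / 4) ^ (m + 1) / C with hτ
    have hτ0 : 0 < τ := by positivity
    have hdc : ContDiff ℝ ∞ (deriv h) := (contDiff_infty_iff_deriv.1 hh).2
    have hsub := HC (deriv h) hdc α β c hc (fun s hs => by
      have := hd s hs
      rwa [iteratedDeriv_succ'] at this) 0 τ hτ0.le
    simp only [sub_zero] at hsub
    have hT2 : volume.real {s | s ∈ Ioo α β ∧ |deriv h s| ≤ τ} ≤ v / 4 := by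
      have h1 : C * τ / c = (v / 4) ^ (m + 1) := by
        rw [hτ]
        field_simp
      rw [h1] at hsub
      exact le_of_pow_le_pow_left₀ (by omega) (by positivity) hsub
    have hT1 := big_deriv (m + 1) h hh α β (fun s hs => hc.le.trans (hd s hs)) E hE τ
    have hT1t : volume (S ∩ {s | τ ≤ |deriv h s|}) ≠ ⊤ :=
      ((measure_mono inter_subset_left).trans_lt hSt.lt_top).ne
    have hT1' : τ * volume.real (S ∩ {s | τ ≤ |deriv h s|}) ≤ 2 ^ (m + 1) * volume.real E := by
      have h3 := ENNReal.toReal_mono (ENNReal.mul_ne_top (by simp) hEt) hT1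
      rw [ENNReal.toReal_mul, ENNReal.toReal_ofReal hτ0.le, ENNReal.toReal_mul,
        ENNReal.toReal_pow, ENNReal.toReal_ofNat] at h3
      exact h3
    have hcov : S ⊆ (S ∩ {s | τ ≤ |deriv h s|}) ∪ {s | s ∈ Ioo α β ∧ |deriv h s| ≤ τ} := by
      intro s hs
      rcases le_total τ |deriv h s| with h | h
      · left; exact ⟨hs, h⟩
      · right; exact ⟨hs.1, h⟩
    have hT2t : volume {s | s ∈ Ioo α β ∧ |deriv h s| ≤ τ} ≠ ⊤ :=
      ((measure_mono (fun s hs => hs.1)).trans_lt (measure_Ioo_lt_top (a := α) (b := β))).ne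
    have hsum : v ≤ volume.real (S ∩ {s | τ ≤ |deriv h s|}) +
        volume.real {s | s ∈ Ioo α β ∧ |deriv h s| ≤ τ} := by
      refine (measureReal_mono hcov ?_).trans (measureReal_union_le _ _)
      exact ((measure_union_le _ _).trans_lt (ENNReal.add_lt_top.2 ⟨hT1t.lt_top, hT2t.lt_top⟩)).ne
    have hbig : v / 2 ≤ volume.real (S ∩ {s | τ ≤ |deriv h s|}) := by linarith
    have hfin : τ * (v / 2) ≤ 2 ^ (m + 1) * volume.real E :=
      (mul_le_mul_of_nonneg_left hbig hτ0.le).trans hT1'
    rw [le_div_iff₀ hc]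
    have e1 : v ^ (m + 1 + 1) * c = τ * (v / 2) * (C * 4 ^ (m + 1) * 2) := by
      rw [hτ, div_pow]
      field_simp
      ring
    rw [e1]
    calc τ * (v / 2) * (C * 4 ^ (m + 1) * 2)
        ≤ 2 ^ (m + 1) * volume.real E * (C * 4 ^ (m + 1) * 2) := by gcongr
      _ = _ := by ring

/-- The same for either sign. -/
theorem oneInt (m : ℕ) : ∃ C : ℝ, 0 < C ∧ ∀ h : ℝ → ℝ, ContDiff ℝ ∞ h → ∀ α β c : ℝ, 0 < c →
    ((∀ s ∈ Ioo α β, c ≤ iteratedDeriv (m + 1) h s) ∨
      (∀ s ∈ Ioo α β, iteratedDeriv (m + 1) h s ≤ -c)) →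
      ∀ E : Set ℝ, MeasurableSet E → volume E ≠ ⊤ →
        volume.real (Ioo α β ∩ h ⁻¹' E) ^ (m + 1) ≤ C * volume.real E / c := by
  obtain ⟨C, hC, H⟩ := oneInt0 m
  refine ⟨C, hC, ?_⟩
  intro h hh α β c hc hd E hE hEt
  rcases hd with hd | hd
  · exact H h hh α β c hc hd E hE hEt
  · have hvol : volume (Neg.neg ⁻¹' E) = volume E := by
      have := (Measure.measurePreserving_neg (volume : Measure ℝ)).measure_preimage
        hE.nullMeasurableSet
      exact this
    have := H (fun x => -h x) hh.neg α β c hc (fun s hs => by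
      have h3 : iteratedDeriv (m + 1) (fun x => -h x) s = -iteratedDeriv (m + 1) h s := by
        have := iteratedDeriv_fun_neg (m + 1) h s
        simp
      rw [h3]
      linarith [hd s hs]) (Neg.neg ⁻¹' E) (measurable_neg hE) (by rw [hvol]; exact hEt)
    have hpre : (fun x => -h x) ⁻¹' (Neg.neg ⁻¹' E) = h ⁻¹' E := by
      ext s
      simp
    rw [hpre] at this
    rw [Measure.real, Measure.real, hvol] at this
    exact this

end Pool.Agent.RadF
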