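import Pool.Agent.RadF.Pre

/-!
The part of the maximal function with small dilations.
-/

open MeasureTheory Set Filter Topology Metric
open scoped ENNReal RealInnerProductSpace ContDiff

namespace Pool.Agent.RadF

open Pool.Agent.MC

variable {n : ℕ}

lemma measurable_W {γ : ℝ → En n} (hγ : ContDiff ℝ ∞ γ) (a b T q : ℝ) :
    Measurable fun x : En n => Wf γ a b T q (‖x‖⁻¹ • x) := by
  refine (measurable_Wf hγ a b T q).comp ?_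
  fun_prop

/-- Small dilations. -/
theorem part1 (hn : 4 ≤ n) (γ : ℝ → En n) (a b : ℝ) (hab : a < b) (hγ : ContDiff ℝ ∞ γ)
    (hnd : ∀ s ∈ Icc a b, LinearIndependent ℝ (fun k : Fin n => iteratedDeriv ((k : ℕ) + 1) γ s))
    (p0 : ℝ) (h1 : (n : ℝ) < p0) (h2 : p0 < 2 * n) (G0 : ℝ) (hG1 : 1 ≤ G0)
    (hG0 : ∀ s ∈ Icc a b, ‖iteratedDeriv 0 γ s‖ ≤ G0 ∧
      |iteratedDeriv 0 (fun s => ‖γ s‖ ^ 2) s| ≤ G0) :
    ∃ C : ℝ≥0∞, C ≠ ⊤ ∧ ∀ U : Set ℝ, IsOpen U → ∃ M : En n → ℝ≥0∞, Measurable M ∧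
      2 * ∫⁻ x, M x ≤ C * ∫⁻ l in U ∩ Ioi 0, ENNReal.ofReal (l ^ ((n : ℝ) / 2 - 1)) ∧
        ∀ x : En n, x ≠ 0 → ∀ t, 0 < t → t ≤ 1 / (8 * G0) * ‖x‖ →
          volume (Ioo a b ∩ Ph γ x t ⁻¹' U) ^ p0 ≤ M x := by
  have hn4 : (4 : ℝ) ≤ n := by exact_mod_cast hn
  have hn0 : (0 : ℝ) < n := by linarith
  set θ := p0 / n with hθ
  have hθ1 : 1 < θ := (one_lt_div hn0).2 h1
  have hp0 : 0 < p0 := hn0.trans h1
  obtain ⟨q, κ, hq0, hq2, hκ0, hκ2, C, hC, H⟩ := sw2 hn γ a b hab hγ p0 h1 h2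
  obtain ⟨Cs, hCs, HS⟩ := sphere_Wf hn γ a b hab hγ hnd q hq2
  obtain ⟨Ch, hCh, HH⟩ := hl_loc θ ((n : ℝ) / 2 - 1) hθ1 (by linarith)
  set P := 4 * G0 with hP
  have hP0 : 0 < P := by linarith
  set K : ℝ≥0∞ := C * ENNReal.ofReal ((1 + 1) ^ κ) * ENNReal.ofReal ((2 * P) ^ θ) with hK
  have hKt : K ≠ ⊤ := ENNReal.mul_ne_top (ENNReal.mul_ne_top hC ENNReal.ofReal_ne_top)
    ENNReal.ofReal_ne_top
  refine ⟨K * (Cs * ENNReal.ofReal ((1 + 1) ^ 2)) * Ch, ENNReal.mul_ne_top (ENNReal.mul_ne_top hKt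
    (ENNReal.mul_ne_top hCs ENNReal.ofReal_ne_top)) hCh, ?_⟩
  intro U hU
  obtain ⟨G, hGm, hGi, hG⟩ := HH U hU.measurableSet
  have hWm : Measurable fun x : En n => Wf γ a b 1 q (‖x‖⁻¹ • x) := measurable_W hγ a b 1 q
  have hGm' : Measurable fun x : En n => G (‖x‖ ^ 2) := hGm.comp (by fun_prop)
  have hFm : Measurable fun x : En n => Wf γ a b 1 q (‖x‖⁻¹ • x) * G (‖x‖ ^ 2) := hWm.mul hGm'
  refine ⟨fun x => K * (Wf γ a b 1 q (‖x‖⁻¹ • x) * G (‖x‖ ^ 2)), hFm.const_mul K, ?_, ?_⟩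
  · rw [lintegral_const_mul _ hFm]
    calc 2 * (K * ∫⁻ x : En n, Wf γ a b 1 q (‖x‖⁻¹ • x) * G (‖x‖ ^ 2))
        = K * (2 * ∫⁻ x : En n, Wf γ a b 1 q (‖x‖⁻¹ • x) * G (‖x‖ ^ 2)) := by ring
      _ = K * ((∫⁻ w : sphere (0 : En n) 1, Wf γ a b 1 q w ∂(volume : Measure (En n)).toSphere) *
        ∫⁻ l in Ioi (0 : ℝ), G l * ENNReal.ofReal (l ^ ((n : ℝ) / 2 - 1))) := by
          rw [polar2 (by omega) _ _ (measurable_Wf hγ a b 1 q) hGm]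
      _ ≤ K * ((Cs * ENNReal.ofReal ((1 + 1) ^ 2)) *
          (Ch * ∫⁻ x in U ∩ Ioi 0, ENNReal.ofReal (x ^ ((n : ℝ) / 2 - 1)))) := by
          gcongr
          exact HS 1 zero_le_one
      _ = _ := by ring
  · intro x hx t ht htx
    have hx0 : 0 < ‖x‖ := norm_pos_iff.2 hx
    set ρ := t * ‖x‖ * P with hρ
    have hρ0 : 0 < ρ := by positivity
    have hρ2 : ρ ≤ ‖x‖ ^ 2 / 2 := by
      calc ρ ≤ (1 / (8 * G0) * ‖x‖) * ‖x‖ * P := by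
            rw [hρ]
            gcongr
        _ = ‖x‖ ^ 2 / 2 := by
            rw [hP]
            have : G0 ≠ 0 := by linarith
            field_simp
            ring
    have ht1 : t ≤ 1 * ‖x‖ := by
      refine htx.trans ?_
      gcongr
      rw [div_le_one (by positivity)]
      linarith
    have hτ : t / ‖x‖ ≤ 1 := by
      rw [div_le_iff₀ hx0]
      exact ht1
    have hsub : Ioo a b ∩ Ph γ x t ⁻¹' U ⊆
        Ioo a b ∩ Ph γ x t ⁻¹' (U ∩ Icc (‖x‖ ^ 2 - ρ) (‖x‖ ^ 2 + ρ)) := by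
      rintro s ⟨hs, hsU⟩
      refine ⟨hs, hsU, ?_⟩
      have h3 : |Ps γ (‖x‖⁻¹ • x) (t / ‖x‖) s| ≤ P := by
        have h4 := it_bound hγ hG0 (x := ‖x‖⁻¹ • x) (t := t / ‖x‖) (T := 1) (s := s) (by
          rw [norm_smul, norm_inv, norm_norm, inv_mul_cancel₀ hx0.ne']) (by positivity) hτ
          (Ioo_subset_Icc_self hs)
        rw [iteratedDeriv_zero] at h4
        refine h4.trans (le_of_eq ?_)
        rw [hP]
        ring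
      have h5 : Ph γ x t s = ‖x‖ ^ 2 + (t * ‖x‖) * Ps γ (‖x‖⁻¹ • x) (t / ‖x‖) s := by
        have h6 := Ps_smul γ (‖x‖⁻¹ • x) (t / ‖x‖) ‖x‖ s
        rw [smul_smul, mul_inv_cancel₀ hx0.ne', one_smul, mul_div_cancel₀ _ hx0.ne'] at h6
        rw [Ph, sq_dist, h6]
        ring
      have h7 := abs_le.1 h3
      have h8 : (t * ‖x‖) * Ps γ (‖x‖⁻¹ • x) (t / ‖x‖) s ≤ ρ := by
        rw [hρ]
        gcongr
        exact h7.2
      have h9 : -ρ ≤ (t * ‖x‖) * Ps γ (‖x‖⁻¹ • x) (t / ‖x‖) s := by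
        rw [hρ]
        have : (t * ‖x‖) * (-P) ≤ (t * ‖x‖) * Ps γ (‖x‖⁻¹ • x) (t / ‖x‖) s := by
          gcongr
          exact h7.1
        linarith
      rw [h5]
      constructor <;> linarith
    have hEm : MeasurableSet (U ∩ Icc (‖x‖ ^ 2 - ρ) (‖x‖ ^ 2 + ρ)) :=
      hU.measurableSet.inter measurableSet_Icc
    have hcb : closedBall (‖x‖ ^ 2) ρ = Icc (‖x‖ ^ 2 - ρ) (‖x‖ ^ 2 + ρ) := Real.closedBall_eq_Icc
    have hb := H 1 zero_le_one x hx t ht ht1 (U ∩ Icc (‖x‖ ^ 2 - ρ) (‖x‖ ^ 2 + ρ)) hEm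
      ((measure_mono inter_subset_right).trans_lt measure_Icc_lt_top).ne
      (open_Icc hU (by linarith))
    have hg := hG (‖x‖ ^ 2) ρ (by positivity) hρ0 hρ2
    rw [hcb] at hg
    set v := volume (U ∩ Icc (‖x‖ ^ 2 - ρ) (‖x‖ ^ 2 + ρ)) with hv
    have e1 : ENNReal.ofReal (t * ‖x‖)⁻¹ * v = ENNReal.ofReal (2 * P) *
        (v / ENNReal.ofReal (2 * ρ)) := by
      have e2 : (t * ‖x‖)⁻¹ = (2 * P) / (2 * ρ) := by
        rw [hρ]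
        field_simp
      rw [e2, ENNReal.ofReal_div_of_pos (by positivity), ENNReal.div_eq_inv_mul,
        ENNReal.div_eq_inv_mul]
      ring
    calc volume (Ioo a b ∩ Ph γ x t ⁻¹' U) ^ p0
        ≤ volume (Ioo a b ∩ Ph γ x t ⁻¹' (U ∩ Icc (‖x‖ ^ 2 - ρ) (‖x‖ ^ 2 + ρ))) ^ p0 := by
          gcongr
      _ ≤ C * ENNReal.ofReal ((1 + 1) ^ κ) * Wf γ a b 1 q (‖x‖⁻¹ • x) *
              (ENNReal.ofReal (t * ‖x‖)⁻¹ * v) ^ θ := hb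
      _ = C * ENNReal.ofReal ((1 + 1) ^ κ) * Wf γ a b 1 q (‖x‖⁻¹ • x) *
            (ENNReal.ofReal ((2 * P) ^ θ) * (v / ENNReal.ofReal (2 * ρ)) ^ θ) := by
          rw [e1, ENNReal.mul_rpow_of_nonneg _ _ (by linarith),
            ENNReal.ofReal_rpow_of_nonneg (by positivity) (by linarith)]
      _ ≤ C * ENNReal.ofReal ((1 + 1) ^ κ) * Wf γ a b 1 q (‖x‖⁻¹ • x) *
            (ENNReal.ofReal ((2 * P) ^ θ) * G (‖x‖ ^ 2)) := by gcongr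
      _ = K * (Wf γ a b 1 q (‖x‖⁻¹ • x) * G (‖x‖ ^ 2)) := by
          rw [hK]
          ring

end Pool.Agent.RadF
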