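import Pool.Agent.RadF.Part1
import Pool.Agent.RadF.Tail

/-!
The part of the maximal function with large dilations, away from the centre.
-/

open MeasureTheory Set Filter Topology Metric
open scoped ENNReal RealInnerProductSpace ContDiff

namespace Pool.Agent.RadF

open Pool.Agent.MC

variable {n : ℕ}

/-- The coefficients of the series. -/
noncomputable def cf (C : ℝ≥0∞) (c0 A κ θ : ℝ) (k : ℕ) : ℝ≥0∞ :=
  C * ENNReal.ofReal ((1 + c0 * 2 ^ (k + 1)) ^ κ) *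
    ENNReal.ofReal ((A ^ 2 * (c0 * 2 ^ (k + 1))) ^ (θ - 1)) * ENNReal.ofReal (c0 * 2 ^ k)⁻¹

/-- The series of the coefficients converges. -/
lemma cf_sum (C Cs : ℝ≥0∞) (hC : C ≠ ⊤) (hCs : Cs ≠ ⊤) {c0 A ε κ θ ν : ℝ} (hc0 : 0 < c0)
    (hA : 0 < A) (hε : 0 < ε) (hκ : 0 ≤ κ) (hν : 1 ≤ ν) (hκν : κ + θ < 2 * ν) :
    ∃ Q : ℝ≥0∞, Q ≠ ⊤ ∧ ∑' k : ℕ, cf C c0 A κ θ k * (Cs * ENNReal.ofReal ((1 + c0 * 2 ^ (k + 1)) ^ 2)) *
      ENNReal.ofReal ((ε ^ 2 * (c0 * 2 ^ k) ^ 2) ^ (-ν) / ν) ≤ Q := by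
  set ρ : ℝ := 2 ^ (κ + θ - 2 * ν) with hρ
  have hρ0 : 0 < ρ := by positivity
  have hρ1 : ρ < 1 := Real.rpow_lt_one_of_one_lt_of_neg (by norm_num) (by linarith)
  set B : ℝ := (1 + 2 * c0) ^ κ * (A ^ 2 * (2 * c0)) ^ (θ - 1) * c0⁻¹ * (1 + 2 * c0) ^ 2 *
    ((ε ^ 2 * c0 ^ 2) ^ (-ν) / ν) with hB
  have hB0 : 0 ≤ B := by positivity
  have hsum : Summable fun k : ℕ => B * ρ ^ k :=
    (summable_geometric_of_lt_one hρ0.le hρ1).mul_left _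
  refine ⟨C * Cs * ENNReal.ofReal (∑' k : ℕ, B * ρ ^ k), ENNReal.mul_ne_top
    (ENNReal.mul_ne_top hC hCs) ENNReal.ofReal_ne_top, ?_⟩
  rw [ENNReal.ofReal_tsum_of_nonneg (fun k => by positivity) hsum, ← ENNReal.tsum_mul_left]
  apply ENNReal.tsum_le_tsum
  intro k
  have h2k : (1 : ℝ) ≤ 2 ^ k := one_le_pow₀ (by norm_num)
  have h2k0 : (0 : ℝ) < 2 ^ k := by positivity
  have hT : 1 + c0 * 2 ^ (k + 1) ≤ (1 + 2 * c0) * 2 ^ k := by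
    rw [pow_succ]
    nlinarith
  have hreal : (1 + c0 * 2 ^ (k + 1)) ^ κ * (A ^ 2 * (c0 * 2 ^ (k + 1))) ^ (θ - 1) * (c0 * 2 ^ k)⁻¹ *
      (1 + c0 * 2 ^ (k + 1)) ^ 2 * ((ε ^ 2 * (c0 * 2 ^ k) ^ 2) ^ (-ν) / ν) ≤ B * ρ ^ k := by
    have g1 : (1 + c0 * 2 ^ (k + 1)) ^ κ ≤ (1 + 2 * c0) ^ κ * ((2 : ℝ) ^ k) ^ κ := by
      rw [← Real.mul_rpow (by positivity) (by positivity)]
      exact Real.rpow_le_rpow (by positivity) hT hκ
    have g2 : (A ^ 2 * (c0 * 2 ^ (k + 1))) ^ (θ - 1) =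
        (A ^ 2 * (2 * c0)) ^ (θ - 1) * ((2 : ℝ) ^ k) ^ (θ - 1) := by
      rw [← Real.mul_rpow (by positivity) (by positivity)]
      congr 1
      rw [pow_succ]
      ring
    have g3 : (c0 * 2 ^ k)⁻¹ = c0⁻¹ * ((2 : ℝ) ^ k) ^ (-1 : ℝ) := by
      rw [mul_inv, Real.rpow_neg_one]
    have g4 : (1 + c0 * 2 ^ (k + 1)) ^ 2 ≤ (1 + 2 * c0) ^ 2 * ((2 : ℝ) ^ k) ^ (2 : ℝ) := by
      rw [show ((2 : ℝ) ^ k) ^ (2 : ℝ) = ((2 : ℝ) ^ k) ^ (2 : ℕ) by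
        rw [← Real.rpow_natCast ((2 : ℝ) ^ k) 2]; norm_num, ← mul_pow]
      gcongr
    have g5 : (ε ^ 2 * (c0 * 2 ^ k) ^ 2) ^ (-ν) / ν =
        (ε ^ 2 * c0 ^ 2) ^ (-ν) / ν * ((2 : ℝ) ^ k) ^ (-(2 * ν)) := by
      have : ε ^ 2 * (c0 * 2 ^ k) ^ 2 = (ε ^ 2 * c0 ^ 2) * ((2 : ℝ) ^ k) ^ (2 : ℝ) := by
        rw [show ((2 : ℝ) ^ k) ^ (2 : ℝ) = ((2 : ℝ) ^ k) ^ (2 : ℕ) by
          rw [← Real.rpow_natCast ((2 : ℝ) ^ k) 2]; norm_num]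
        ring
      rw [this, Real.mul_rpow (by positivity) (by positivity), ← Real.rpow_mul h2k0.le]
      rw [show 2 * -ν = -(2 * ν) by ring]
      ring
    have g6 : ρ ^ k = ((2 : ℝ) ^ k) ^ κ * ((2 : ℝ) ^ k) ^ (θ - 1) * ((2 : ℝ) ^ k) ^ (-1 : ℝ) *
        ((2 : ℝ) ^ k) ^ (2 : ℝ) * ((2 : ℝ) ^ k) ^ (-(2 * ν)) := by
      rw [← Real.rpow_add h2k0, ← Real.rpow_add h2k0, ← Real.rpow_add h2k0, ← Real.rpow_add h2k0,
        hρ, ← Real.rpow_natCast _ k, ← Real.rpow_natCast (2 : ℝ) k, ← Real.rpow_mul (by norm_num),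
        ← Real.rpow_mul (by norm_num)]
      congr 1
      ring
    calc (1 + c0 * 2 ^ (k + 1)) ^ κ * (A ^ 2 * (c0 * 2 ^ (k + 1))) ^ (θ - 1) * (c0 * 2 ^ k)⁻¹ *
          (1 + c0 * 2 ^ (k + 1)) ^ 2 * ((ε ^ 2 * (c0 * 2 ^ k) ^ 2) ^ (-ν) / ν)
        ≤ ((1 + 2 * c0) ^ κ * ((2 : ℝ) ^ k) ^ κ) *
            ((A ^ 2 * (2 * c0)) ^ (θ - 1) * ((2 : ℝ) ^ k) ^ (θ - 1)) *
            (c0⁻¹ * ((2 : ℝ) ^ k) ^ (-1 : ℝ)) * ((1 + 2 * c0) ^ 2 * ((2 : ℝ) ^ k) ^ (2 : ℝ)) *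
            ((ε ^ 2 * c0 ^ 2) ^ (-ν) / ν * ((2 : ℝ) ^ k) ^ (-(2 * ν))) := by
          rw [g2, g3, g5]
          gcongr
      _ = B * ρ ^ k := by
          rw [g6, hB]
          ring
  calc cf C c0 A κ θ k * (Cs * ENNReal.ofReal ((1 + c0 * 2 ^ (k + 1)) ^ 2)) *
        ENNReal.ofReal ((ε ^ 2 * (c0 * 2 ^ k) ^ 2) ^ (-ν) / ν)
      = C * Cs * ENNReal.ofReal ((1 + c0 * 2 ^ (k + 1)) ^ κ *
          (A ^ 2 * (c0 * 2 ^ (k + 1))) ^ (θ - 1) * (c0 * 2 ^ k)⁻¹ *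
            (1 + c0 * 2 ^ (k + 1)) ^ 2 * ((ε ^ 2 * (c0 * 2 ^ k) ^ 2) ^ (-ν) / ν)) := by
        rw [ENNReal.ofReal_mul (by positivity), ENNReal.ofReal_mul (by positivity),
          ENNReal.ofReal_mul (by positivity), ENNReal.ofReal_mul (by positivity), cf]
        ring
    _ ≤ C * Cs * ENNReal.ofReal (B * ρ ^ k) := by
        gcongr

/-- Large dilations, away from the centre. -/
theorem part2 (hn : 4 ≤ n) (γ : ℝ → En n) (a b : ℝ) (hab : a < b) (hγ : ContDiff ℝ ∞ γ)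
    (hnd : ∀ s ∈ Icc a b, LinearIndependent ℝ (fun k : Fin n => iteratedDeriv ((k : ℕ) + 1) γ s))
    (p0 : ℝ) (h1 : (n : ℝ) < p0) (h2 : p0 < 2 * n) (G0 : ℝ)
    (hG0 : ∀ s ∈ Icc a b, ‖γ s‖ ≤ G0) (c0 ε : ℝ) (hc0 : 0 < c0) (hε : 0 < ε) :
    ∃ C : ℝ≥0∞, C ≠ ⊤ ∧ ∀ U : Set ℝ, IsOpen U → ∃ M : En n → ℝ≥0∞, Measurable M ∧
      2 * ∫⁻ x, M x ≤ C * ∫⁻ l in U ∩ Ioi 0, ENNReal.ofReal (l ^ ((n : ℝ) / 2 - 1)) ∧
        ∀ x : En n, x ≠ 0 → ∀ t, 0 < t → c0 * ‖x‖ ≤ t →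
          volume (Ioo a b ∩ Ph γ x t ⁻¹' (U ∩ Ici ((ε * t) ^ 2))) ^ p0 ≤ M x := by
  have hn4 : (4 : ℝ) ≤ n := by exact_mod_cast hn
  have hn0 : (0 : ℝ) < n := by linarith
  set θ := p0 / n with hθ
  have hθ1 : 1 < θ := (one_lt_div hn0).2 h1
  have hp0 : 0 < p0 := hn0.trans h1
  have hG00 : 0 ≤ G0 := (norm_nonneg _).trans (hG0 a (left_mem_Icc.2 hab.le))
  obtain ⟨q, κ, hq0, hq2, hκ0, hκ2, C, hC, H⟩ := sw2 hn γ a b hab hγ p0 h1 h2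
  obtain ⟨Cs, hCs, HS⟩ := sphere_Wf hn γ a b hab hγ hnd q hq2
  set A := 1 / c0 + G0 + ε with hA
  have hA0 : 0 < A := by positivity
  obtain ⟨Q, hQ, HQ⟩ := cf_sum C Cs hC hCs (c0 := c0) (A := A) (ε := ε) (κ := κ) (θ := θ)
    (ν := (n : ℝ) / 2 - 1) hc0 hA0 hε hκ0 (by linarith) (by linarith)
  refine ⟨Q, hQ, ?_⟩
  intro U hU
  -- the functions of the squared norm
  set u : ℕ → ℝ → ℝ≥0∞ := fun k L =>
    volume (U ∩ Ici (ε ^ 2 * (c0 * 2 ^ k) ^ 2 * L)) * ENNReal.ofReal L⁻¹ with hu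
  have hum : ∀ k, Measurable (u k) := by
    intro k
    have h3 : Antitone fun L : ℝ => volume (U ∩ Ici (ε ^ 2 * (c0 * 2 ^ k) ^ 2 * L)) := by
      intro L L' hL
      apply measure_mono
      apply inter_subset_inter_right
      apply Ici_subset_Ici.2
      gcongr
    rw [hu]
    exact h3.measurable.mul (by fun_prop)
  have hWm : ∀ T : ℝ, Measurable fun x : En n => Wf γ a b T q (‖x‖⁻¹ • x) :=
    fun T => measurable_W hγ a b T q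
  have hum' : ∀ k, Measurable fun x : En n => u k (‖x‖ ^ 2) := fun k =>
    (hum k).comp (by fun_prop)
  have hFm : ∀ k : ℕ, Measurable fun x : En n => Wf γ a b (c0 * 2 ^ (k + 1)) q (‖x‖⁻¹ • x) *
      u k (‖x‖ ^ 2) := fun k => (hWm _).mul (hum' k)
  refine ⟨fun x => ∑' k : ℕ, cf C c0 A κ θ k *
    (Wf γ a b (c0 * 2 ^ (k + 1)) q (‖x‖⁻¹ • x) * u k (‖x‖ ^ 2)),
    Measurable.ennreal_tsum fun k => (hFm k).const_mul _, ?_, ?_⟩
  · rw [lintegral_tsum fun k => ((hFm k).const_mul _).aemeasurable, ← ENNReal.tsum_mul_left]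
    set I := ∫⁻ l in U ∩ Ioi 0, ENNReal.ofReal (l ^ ((n : ℝ) / 2 - 1)) with hI
    have hterm : ∀ k : ℕ, 2 * ∫⁻ x : En n, cf C c0 A κ θ k *
        (Wf γ a b (c0 * 2 ^ (k + 1)) q (‖x‖⁻¹ • x) * u k (‖x‖ ^ 2)) ≤
        cf C c0 A κ θ k * (Cs * ENNReal.ofReal ((1 + c0 * 2 ^ (k + 1)) ^ 2)) *
          ENNReal.ofReal ((ε ^ 2 * (c0 * 2 ^ k) ^ 2) ^ (-((n : ℝ) / 2 - 1)) /
            ((n : ℝ) / 2 - 1)) * I := by
      intro k
      rw [lintegral_const_mul _ (hFm k)]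
      calc 2 * (cf C c0 A κ θ k * ∫⁻ x : En n, Wf γ a b (c0 * 2 ^ (k + 1)) q (‖x‖⁻¹ • x) *
            u k (‖x‖ ^ 2))
          = cf C c0 A κ θ k * (2 * ∫⁻ x : En n, Wf γ a b (c0 * 2 ^ (k + 1)) q (‖x‖⁻¹ • x) *
            u k (‖x‖ ^ 2)) := by ring
        _ = cf C c0 A κ θ k * ((∫⁻ w : sphere (0 : En n) 1, Wf γ a b (c0 * 2 ^ (k + 1)) q w
              ∂(volume : Measure (En n)).toSphere) *
            ∫⁻ l in Ioi (0 : ℝ), u k l * ENNReal.ofReal (l ^ ((n : ℝ) / 2 - 1))) := by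
            rw [polar2 (by omega) _ _ (measurable_Wf hγ a b _ q) (hum k)]
        _ ≤ cf C c0 A κ θ k * ((Cs * ENNReal.ofReal ((1 + c0 * 2 ^ (k + 1)) ^ 2)) *
            (ENNReal.ofReal ((ε ^ 2 * (c0 * 2 ^ k) ^ 2) ^ (-((n : ℝ) / 2 - 1)) /
              ((n : ℝ) / 2 - 1)) * I)) := by
            gcongr
            · exact HS _ (by positivity)
            · exact tail hU.measurableSet (by positivity) (by linarith)
        _ = _ := by ring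
    refine (ENNReal.tsum_le_tsum hterm).trans ?_
    rw [ENNReal.tsum_mul_right]
    gcongr
  · intro x hx t ht htx
    have hx0 : 0 < ‖x‖ := norm_pos_iff.2 hx
    -- the dyadic range of the dilation
    obtain ⟨k, hk1, hk2⟩ := exists_nat_pow_near (x := t / (c0 * ‖x‖)) (y := 2) (by
      rw [one_le_div (by positivity)]
      exact htx) (by norm_num)
    rw [le_div_iff₀ (by positivity)] at hk1
    rw [div_lt_iff₀ (by positivity)] at hk2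
    have hT : t ≤ (c0 * 2 ^ (k + 1)) * ‖x‖ := by linarith
    have hTl : c0 * 2 ^ k * ‖x‖ ≤ t := by linarith
    have hsub : Ioo a b ∩ Ph γ x t ⁻¹' (U ∩ Ici ((ε * t) ^ 2)) ⊆
        Ioo a b ∩ Ph γ x t ⁻¹' (U ∩ Icc ((ε * t) ^ 2) ((A * t) ^ 2)) := by
      rintro s ⟨hs, hsU, hsE⟩
      refine ⟨hs, hsU, hsE, ?_⟩
      have h3 : ‖x - t • γ s‖ ≤ A * t := by
        refine (norm_sub_le _ _).trans ?_
        rw [norm_smul, Real.norm_eq_abs, abs_of_pos ht]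
        have h4 : ‖x‖ ≤ 1 / c0 * t := by
          rw [one_div, ← div_eq_inv_mul, le_div_iff₀ hc0]
          linarith
        have h5 : t * ‖γ s‖ ≤ t * G0 := by
          gcongr
          exact hG0 s (Ioo_subset_Icc_self hs)
        have h6 : 0 ≤ ε * t := by positivity
        rw [hA]
        linarith
      show ‖x - t • γ s‖ ^ 2 ≤ (A * t) ^ 2
      gcongr
    have hεA : (ε * t) ^ 2 < (A * t) ^ 2 := by
      have : ε < A := by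
        rw [hA]
        have : 0 < 1 / c0 := by positivity
        linarith
      gcongr
    set E := U ∩ Icc ((ε * t) ^ 2) ((A * t) ^ 2) with hE
    have hEm : MeasurableSet E := hU.measurableSet.inter measurableSet_Icc
    have hb := H (c0 * 2 ^ (k + 1)) (by positivity) x hx t ht hT E hEm
      ((measure_mono inter_subset_right).trans_lt measure_Icc_lt_top).ne (open_Icc hU hεA)
    set y := ENNReal.ofReal (t * ‖x‖)⁻¹ * volume E with hy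
    have hy1 : y ≤ ENNReal.ofReal (A ^ 2 * (c0 * 2 ^ (k + 1))) := by
      have h3 : volume E ≤ ENNReal.ofReal ((A * t) ^ 2) := by
        refine (measure_mono inter_subset_right).trans ?_
        rw [Real.volume_Icc]
        apply ENNReal.ofReal_le_ofReal
        have : 0 ≤ (ε * t) ^ 2 := by positivity
        linarith
      calc y ≤ ENNReal.ofReal (t * ‖x‖)⁻¹ * ENNReal.ofReal ((A * t) ^ 2) := by
            rw [hy]
            gcongr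
        _ = ENNReal.ofReal (A ^ 2 * (t / ‖x‖)) := by
            rw [← ENNReal.ofReal_mul (by positivity)]
            congr 1
            field_simp
        _ ≤ _ := by
            apply ENNReal.ofReal_le_ofReal
            gcongr
            rw [div_le_iff₀ hx0]
            exact hT
    have hy2 : y ≤ ENNReal.ofReal (c0 * 2 ^ k)⁻¹ * u k (‖x‖ ^ 2) := by
      have h3 : volume E ≤ volume (U ∩ Ici (ε ^ 2 * (c0 * 2 ^ k) ^ 2 * ‖x‖ ^ 2)) := by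
        apply measure_mono
        rintro l ⟨hl, hl2⟩
        refine ⟨hl, ?_⟩
        have : ε ^ 2 * (c0 * 2 ^ k) ^ 2 * ‖x‖ ^ 2 ≤ (ε * t) ^ 2 := by
          calc ε ^ 2 * (c0 * 2 ^ k) ^ 2 * ‖x‖ ^ 2 = (ε * (c0 * 2 ^ k * ‖x‖)) ^ 2 := by ring
            _ ≤ (ε * t) ^ 2 := by gcongr
        exact this.trans hl2.1
      have h4 : (t * ‖x‖)⁻¹ ≤ (c0 * 2 ^ k)⁻¹ * (‖x‖ ^ 2)⁻¹ := by
        rw [← mul_inv]
        apply inv_anti₀ (by positivity)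
        calc c0 * 2 ^ k * ‖x‖ ^ 2 = (c0 * 2 ^ k * ‖x‖) * ‖x‖ := by ring
          _ ≤ t * ‖x‖ := by gcongr
      calc y ≤ ENNReal.ofReal ((c0 * 2 ^ k)⁻¹ * (‖x‖ ^ 2)⁻¹) *
            volume (U ∩ Ici (ε ^ 2 * (c0 * 2 ^ k) ^ 2 * ‖x‖ ^ 2)) := by
            rw [hy]
            gcongr
        _ = _ := by
            rw [ENNReal.ofReal_mul (by positivity), hu]
            ring
    have hyθ : y ^ θ ≤ ENNReal.ofReal ((A ^ 2 * (c0 * 2 ^ (k + 1))) ^ (θ - 1)) *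
        (ENNReal.ofReal (c0 * 2 ^ k)⁻¹ * u k (‖x‖ ^ 2)) := by
      calc y ^ θ = y ^ (θ - 1) * y ^ (1 : ℝ) := by
            rw [← ENNReal.rpow_add_of_nonneg _ _ (by linarith) zero_le_one, sub_add_cancel]
        _ ≤ ENNReal.ofReal (A ^ 2 * (c0 * 2 ^ (k + 1))) ^ (θ - 1) *
              (ENNReal.ofReal (c0 * 2 ^ k)⁻¹ * u k (‖x‖ ^ 2)) := by
            rw [ENNReal.rpow_one]
            gcongr
        _ = _ := by
            rw [ENNReal.ofReal_rpow_of_nonneg (by positivity) (by linarith)]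
    calc volume (Ioo a b ∩ Ph γ x t ⁻¹' (U ∩ Ici ((ε * t) ^ 2))) ^ p0
        ≤ volume (Ioo a b ∩ Ph γ x t ⁻¹' E) ^ p0 := by gcongr
      _ ≤ C * ENNReal.ofReal ((1 + c0 * 2 ^ (k + 1)) ^ κ) *
            Wf γ a b (c0 * 2 ^ (k + 1)) q (‖x‖⁻¹ • x) * y ^ θ := hb
      _ ≤ C * ENNReal.ofReal ((1 + c0 * 2 ^ (k + 1)) ^ κ) *
            Wf γ a b (c0 * 2 ^ (k + 1)) q (‖x‖⁻¹ • x) *
            (ENNReal.ofReal ((A ^ 2 * (c0 * 2 ^ (k + 1))) ^ (θ - 1)) *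
              (ENNReal.ofReal (c0 * 2 ^ k)⁻¹ * u k (‖x‖ ^ 2))) := by gcongr
      _ = cf C c0 A κ θ k *
            (Wf γ a b (c0 * 2 ^ (k + 1)) q (‖x‖⁻¹ • x) * u k (‖x‖ ^ 2)) := by
          rw [cf]
          ring
      _ ≤ _ := ENNReal.le_tsum (f := fun k : ℕ => cf C c0 A κ θ k *
            (Wf γ a b (c0 * 2 ^ (k + 1)) q (‖x‖⁻¹ • x) * u k (‖x‖ ^ 2))) k

end Pool.Agent.RadF
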