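import Pool.Agent.RadF.Wfun
import Pool.Agent.RadF.HL

/-!
Polar coordinates.
-/

open MeasureTheory Set Filter Topology Metric
open scoped ENNReal

namespace Pool.Agent.RadF

open Pool.Agent.MC

variable {n : ℕ}

theorem polar (hn : 0 < n) (A : En n → ℝ≥0∞) (B : ℝ → ℝ≥0∞) (hA : Measurable A)
    (hB : Measurable B) :
    ∫⁻ x : En n, A (‖x‖⁻¹ • x) * B ‖x‖ =
      (∫⁻ w : sphere (0 : En n) 1, A w ∂(volume : Measure (En n)).toSphere) *
        ∫⁻ r in Ioi (0 : ℝ), B r * ENNReal.ofReal (r ^ (n - 1)) := by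
  have : Nonempty (Fin n) := ⟨⟨0, hn⟩⟩
  set F : En n → ℝ≥0∞ := fun x => A (‖x‖⁻¹ • x) * B ‖x‖ with hF
  have hmp := (volume : Measure (En n)).measurePreserving_homeomorphUnitSphereProd
  rw [finrank_euclideanSpace_fin] at hmp
  calc ∫⁻ x : En n, F x = ∫⁻ x in ({0}ᶜ : Set (En n)), F x := by rw [restrict_compl_singleton]
    _ = ∫⁻ x : ({0}ᶜ : Set (En n)), F x ∂((volume : Measure (En n)).comap (↑)) :=
        (lintegral_subtype_comap (measurableSet_singleton _).compl F).symm
    _ = ∫⁻ y : sphere (0 : En n) 1 × Ioi (0 : ℝ), A y.1 * B y.2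
          ∂((volume : Measure (En n)).toSphere.prod (Measure.volumeIoiPow (n - 1))) := by
        rw [← hmp.lintegral_comp_emb (Homeomorph.measurableEmbedding _)]
        refine lintegral_congr fun x => ?_
        rw [hF, homeomorphUnitSphereProd_apply_fst_coe, homeomorphUnitSphereProd_apply_snd_coe]
    _ = (∫⁻ w : sphere (0 : En n) 1, A w ∂(volume : Measure (En n)).toSphere) *
          ∫⁻ r : Ioi (0 : ℝ), B r ∂Measure.volumeIoiPow (n - 1) := by
        rw [lintegral_prod_mul (f := fun w : sphere (0 : En n) 1 => A w)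
          (g := fun r : Ioi (0 : ℝ) => B r)]
        · exact (hA.comp measurable_subtype_coe).aemeasurable
        · exact (hB.comp measurable_subtype_coe).aemeasurable
    _ = _ := by
        congr 1
        have h1 := lintegral_withDensity_eq_lintegral_mul
          ((volume : Measure ℝ).comap (Subtype.val : Ioi (0 : ℝ) → ℝ))
          (f := fun r : Ioi (0 : ℝ) => ENNReal.ofReal (r.1 ^ (n - 1))) (by fun_prop)
          (g := fun r : Ioi (0 : ℝ) => B r) (hB.comp measurable_subtype_coe)
        rw [Measure.volumeIoiPow, h1, ← lintegral_subtype_comap measurableSet_Ioi]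
        refine lintegral_congr fun r => ?_
        simp only [Pi.mul_apply]
        rw [mul_comm]

/-- The substitution by the square. -/
theorem sq_subst (f : ℝ → ℝ≥0∞) :
    ∫⁻ l in Ioi (0 : ℝ), f l = ∫⁻ r in Ioi (0 : ℝ), ENNReal.ofReal (2 * r) * f (r ^ 2) := by
  have himg : (fun r : ℝ => r ^ 2) '' Ioi 0 = Ioi 0 := by
    ext l
    simp only [mem_image, mem_Ioi]
    constructor
    · rintro ⟨r, hr, rfl⟩
      positivity
    · intro hl
      exact ⟨√l, Real.sqrt_pos.2 hl, Real.sq_sqrt hl.le⟩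
  have h1 := lintegral_image_eq_lintegral_abs_deriv_mul (s := Ioi (0 : ℝ))
    (f := fun r : ℝ => r ^ 2) (f' := fun r => 2 * r) measurableSet_Ioi
    (fun r _ => by
      have := (hasDerivAt_pow 2 r).hasDerivWithinAt (s := Ioi (0 : ℝ))
      simpa using this)
    (fun r hr s hs h => by
      have h1 : (0 : ℝ) < r := hr
      have h2 : (0 : ℝ) < s := hs
      exact (sq_eq_sq₀ h1.le h2.le).1 h) f
  rw [himg] at h1
  rw [h1]
  refine setLIntegral_congr_fun measurableSet_Ioi fun r hr => ?_
  have h2 : (0 : ℝ) < r := hr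
  rw [abs_of_pos (by positivity)]

end Pool.Agent.RadF
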