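import Pool.Agent.RadF.Small
import Pool.Agent.RadF.Polar

/-!
Preparations for the majorant.
-/

open MeasureTheory Set Filter Topology Metric
open scoped ENNReal RealInnerProductSpace ContDiff

namespace Pool.Agent.RadF

open Pool.Agent.MC

variable {n : ℕ}

/-- Polar coordinates with the squared norm. -/
theorem polar2 (hn : 2 ≤ n) (A : En n → ℝ≥0∞) (B : ℝ → ℝ≥0∞) (hA : Measurable A)
    (hB : Measurable B) :
    2 * ∫⁻ x : En n, A (‖x‖⁻¹ • x) * B (‖x‖ ^ 2) =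
      (∫⁻ w : sphere (0 : En n) 1, A w ∂(volume : Measure (En n)).toSphere) *
        ∫⁻ l in Ioi (0 : ℝ), B l * ENNReal.ofReal (l ^ ((n : ℝ) / 2 - 1)) := by
  have h1 := polar (by omega : 0 < n) A (fun r => B (r ^ 2)) hA (hB.comp (by fun_prop))
  rw [h1, sq_subst fun l => B l * ENNReal.ofReal (l ^ ((n : ℝ) / 2 - 1))]
  have h2 : ∀ r ∈ Ioi (0 : ℝ), ENNReal.ofReal (2 * r) *
      (B (r ^ 2) * ENNReal.ofReal ((r ^ 2) ^ ((n : ℝ) / 2 - 1))) =
        2 * (B (r ^ 2) * ENNReal.ofReal (r ^ (n - 1))) := by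
    intro r hr
    have hr0 : (0 : ℝ) < r := hr
    have e1 : (2 * r) * (r ^ 2) ^ ((n : ℝ) / 2 - 1) = 2 * r ^ (n - 1) := by
      have e2 : (r ^ 2) ^ ((n : ℝ) / 2 - 1) = r ^ (n - 2) := by
        rw [← Real.rpow_natCast r 2, ← Real.rpow_mul hr0.le, ← Real.rpow_natCast r (n - 2)]
        congr 1
        rw [Nat.cast_sub hn]
        push_cast
        ring
      rw [e2, mul_assoc, ← pow_succ']
      congr 2
      omega
    calc ENNReal.ofReal (2 * r) * (B (r ^ 2) * ENNReal.ofReal ((r ^ 2) ^ ((n : ℝ) / 2 - 1)))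
        = B (r ^ 2) * (ENNReal.ofReal (2 * r) * ENNReal.ofReal ((r ^ 2) ^ ((n : ℝ) / 2 - 1))) := by
          ring
      _ = B (r ^ 2) * ENNReal.ofReal (2 * r ^ (n - 1)) := by
          rw [← ENNReal.ofReal_mul (by positivity), e1]
      _ = _ := by
          rw [ENNReal.ofReal_mul (by norm_num), ENNReal.ofReal_ofNat]
          ring
  have hm : Measurable fun r : ℝ => B (r ^ 2) * ENNReal.ofReal (r ^ (n - 1)) := by
    have : Measurable fun r : ℝ => B (r ^ 2) := hB.comp (by fun_prop)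
    exact this.mul (by fun_prop)
  rw [setLIntegral_congr_fun measurableSet_Ioi h2, lintegral_const_mul _ hm]
  ring

lemma vol_affine (c d : ℝ) (hd : 0 < d) (E : Set ℝ) :
    volume ((fun y => c + d * y) ⁻¹' E) = ENNReal.ofReal d⁻¹ * volume E := by
  have h1 : (fun y => c + d * y) ⁻¹' E = (fun y => d * y) ⁻¹' ((fun z => c + z) ⁻¹' E) := rfl
  rw [h1, Real.volume_preimage_mul_left hd.ne', measure_preimage_add, abs_of_pos (inv_pos.2 hd)]

lemma preim_scale (γ : ℝ → En n) {x : En n} (hx : x ≠ 0) (t : ℝ) (E : Set ℝ) :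
    Ph γ x t ⁻¹' E = Ps γ (‖x‖⁻¹ • x) (t / ‖x‖) ⁻¹' ((fun y => ‖x‖ ^ 2 + (t * ‖x‖) * y) ⁻¹' E) := by
  have hx0 : ‖x‖ ≠ 0 := norm_ne_zero_iff.2 hx
  have h1 : ∀ s, Ph γ x t s = ‖x‖ ^ 2 + (t * ‖x‖) * Ps γ (‖x‖⁻¹ • x) (t / ‖x‖) s := by
    intro s
    have h2 := Ps_smul γ (‖x‖⁻¹ • x) (t / ‖x‖) ‖x‖ s
    rw [smul_smul, mul_inv_cancel₀ hx0, one_smul, mul_div_cancel₀ _ hx0] at h2
    rw [Ph, sq_dist, h2]
    ring
  ext s
  simp only [mem_preimage, h1]

/-- Preimages under the squared distance. -/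
theorem sw2 (hn : 4 ≤ n) (γ : ℝ → En n) (a b : ℝ) (hab : a < b) (hγ : ContDiff ℝ ∞ γ)
    (p0 : ℝ) (h1 : (n : ℝ) < p0) (h2 : p0 < 2 * n) :
    ∃ q κ : ℝ, 0 < q ∧ q < 2 ∧ 0 ≤ κ ∧ κ + p0 / n < 2 ∧ ∃ C : ℝ≥0∞, C ≠ ⊤ ∧ ∀ T : ℝ, 0 ≤ T →
      ∀ x : En n, x ≠ 0 → ∀ t, 0 < t → t ≤ T * ‖x‖ → ∀ E : Set ℝ, MeasurableSet E →
        volume E ≠ ⊤ → (volume E = 0 → E = ∅) →
          volume (Ioo a b ∩ Ph γ x t ⁻¹' E) ^ p0 ≤
            C * ENNReal.ofReal ((1 + T) ^ κ) * Wf γ a b T q (‖x‖⁻¹ • x) *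
              (ENNReal.ofReal (t * ‖x‖)⁻¹ * volume E) ^ (p0 / n) := by
  obtain ⟨q, κ, hq0, hq2, hκ0, hκ2, C, hC, H⟩ := sw hn γ a b hab hγ p0 h1 h2
  refine ⟨q, κ, hq0, hq2, hκ0, hκ2, C, hC, ?_⟩
  intro T hT x hx t ht htT E hEm hEt hE0
  have hx0 : 0 < ‖x‖ := norm_pos_iff.2 hx
  have htx : 0 < t * ‖x‖ := mul_pos ht hx0
  have hv := vol_affine (‖x‖ ^ 2) (t * ‖x‖) htx E
  rw [preim_scale γ hx, ← hv]
  refine H T hT _ ?_ _ ⟨by positivity, ?_⟩ _ ?_ ?_ ?_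
  · rw [norm_smul, norm_inv, norm_norm, inv_mul_cancel₀ hx0.ne']
  · rw [div_le_iff₀ hx0]
    exact htT
  · exact (by fun_prop : Measurable fun y : ℝ => ‖x‖ ^ 2 + (t * ‖x‖) * y) hEm
  · rw [hv]
    exact ENNReal.mul_ne_top ENNReal.ofReal_ne_top hEt
  · intro h0
    rw [hv, mul_eq_zero] at h0
    rcases h0 with h0 | h0
    · rw [ENNReal.ofReal_eq_zero] at h0
      exact absurd h0 (not_le.2 (inv_pos.2 htx))
    · rw [hE0 h0, preimage_empty]

/-- An open set that meets a closed interval meets it in a set of positive measure. -/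
lemma open_Icc {U : Set ℝ} (hU : IsOpen U) {u v : ℝ} (huv : u < v)
    (h0 : volume (U ∩ Icc u v) = 0) : U ∩ Icc u v = ∅ := by
  rw [eq_empty_iff_forall_notMem]
  rintro x ⟨hxU, hx⟩
  have h1 : x ∈ closure (Ioo u v) := by
    rw [closure_Ioo huv.ne]
    exact hx
  obtain ⟨y, hyU, hy⟩ := mem_closure_iff.1 h1 U hU hxU
  have h2 : 0 < volume (U ∩ Ioo u v) :=
    (hU.inter isOpen_Ioo).measure_pos volume ⟨y, hyU, hy⟩
  have h3 : volume (U ∩ Ioo u v) ≤ volume (U ∩ Icc u v) :=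
    measure_mono (inter_subset_inter_right U Ioo_subset_Icc_self)
  rw [h0] at h3
  exact absurd h3 (not_le.2 h2)

/-- The bathtub principle. -/
lemma bathtub {E : Set ℝ} (hEm : MeasurableSet E) (hE0 : E ⊆ Ioi 0) (hEt : volume E ≠ ⊤) {β : ℝ}
    (hβ : 0 ≤ β) : ENNReal.ofReal (volume.real E ^ (β + 1)) ≤
      ENNReal.ofReal (2 ^ (β + 1)) * ∫⁻ l in E, ENNReal.ofReal (l ^ β) := by
  set v := volume.real E with hv
  have hv0 : 0 ≤ v := measureReal_nonneg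
  rcases hv0.eq_or_lt with h0 | hpos
  · rw [← h0, Real.zero_rpow (by linarith), ENNReal.ofReal_zero]
    exact zero_le
  have h1 : E ⊆ Ioo 0 (v / 2) ∪ (E ∩ Ici (v / 2)) := by
    intro l hl
    rcases lt_or_ge l (v / 2) with h | h
    · left; exact ⟨hE0 hl, h⟩
    · right; exact ⟨hl, h⟩
  have hvE : volume E = ENNReal.ofReal v := by
    rw [hv, Measure.real, ENNReal.ofReal_toReal hEt]
  have h2 : ENNReal.ofReal (v / 2) ≤ volume (E ∩ Ici (v / 2)) := by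
    have h3 : ENNReal.ofReal v ≤ ENNReal.ofReal (v / 2) + volume (E ∩ Ici (v / 2)) := by
      rw [← hvE]
      refine (measure_mono h1).trans ((measure_union_le _ _).trans ?_)
      rw [Real.volume_Ioo, sub_zero]
    have h4 : ENNReal.ofReal v = ENNReal.ofReal (v / 2) + ENNReal.ofReal (v / 2) := by
      rw [← ENNReal.ofReal_add (by positivity) (by positivity)]
      congr 1
      ring
    rw [h4] at h3
    exact (ENNReal.add_le_add_iff_left ENNReal.ofReal_ne_top).1 h3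
  calc ENNReal.ofReal (v ^ (β + 1))
      = ENNReal.ofReal (2 ^ (β + 1)) * (ENNReal.ofReal ((v / 2) ^ β) * ENNReal.ofReal (v / 2)) := by
        rw [← ENNReal.ofReal_mul (by positivity), ← ENNReal.ofReal_mul (by positivity)]
        congr 1
        rw [← Real.rpow_add_one (by positivity), ← Real.mul_rpow (by norm_num) (by positivity)]
        congr 1
        ring
    _ ≤ ENNReal.ofReal (2 ^ (β + 1)) *
          (ENNReal.ofReal ((v / 2) ^ β) * volume (E ∩ Ici (v / 2))) := by gcongr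
    _ = ENNReal.ofReal (2 ^ (β + 1)) * ∫⁻ _ in E ∩ Ici (v / 2), ENNReal.ofReal ((v / 2) ^ β) := by
        rw [lintegral_const, Measure.restrict_apply MeasurableSet.univ, univ_inter]
    _ ≤ ENNReal.ofReal (2 ^ (β + 1)) * ∫⁻ l in E ∩ Ici (v / 2), ENNReal.ofReal (l ^ β) := by
        gcongr ENNReal.ofReal (2 ^ (β + 1)) * ?_
        refine setLIntegral_mono' (hEm.inter measurableSet_Ici) ?_
        intro l hl
        apply ENNReal.ofReal_le_ofReal
        exact Real.rpow_le_rpow (by positivity) hl.2 hβ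
    _ ≤ _ := by
        gcongr
        exact inter_subset_left

end Pool.Agent.RadF
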