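import Pool.Agent.RadF.OneInt

/-!
Preimages under functions for which at every point some derivative of order between `1` and `n`
is large: the case in which a higher derivative has a constant sign.
-/

open MeasureTheory Set Filter Topology
open scoped ENNReal ContDiff

namespace Pool.Agent.RadF

open Pool.Agent.MC

lemma pow_four {a b c d B : ℝ} {n : ℕ} (ha : 0 ≤ a) (hb : 0 ≤ b) (hc : 0 ≤ c) (hd : 0 ≤ d)
    (h1 : a ^ n ≤ B) (h2 : b ^ n ≤ B) (h3 : c ^ n ≤ B) (h4 : d ^ n ≤ B) :
    (a + b + c + d) ^ n ≤ 4 ^ n * B := by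
  set M := max (max a b) (max c d) with hM
  have hM0 : 0 ≤ M := ha.trans ((le_max_left _ _).trans (le_max_left _ _))
  have hMB : M ^ n ≤ B := by
    rcases max_choice (max a b) (max c d) with h | h <;> rw [hM, h]
    · rcases max_choice a b with h' | h' <;> rw [h'] <;> assumption
    · rcases max_choice c d with h' | h' <;> rw [h'] <;> assumption
  have e1 : a ≤ M := (le_max_left _ _).trans (le_max_left _ _)
  have e2 : b ≤ M := (le_max_right _ _).trans (le_max_left _ _)
  have e3 : c ≤ M := (le_max_left _ _).trans (le_max_right _ _)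
  have e4 : d ≤ M := (le_max_right _ _).trans (le_max_right _ _)
  calc (a + b + c + d) ^ n ≤ (4 * M) ^ n := by
        apply pow_le_pow_left₀ (by positivity)
        linarith
    _ = 4 ^ n * M ^ n := by rw [mul_pow]
    _ ≤ 4 ^ n * B := by gcongr

lemma real_Ioo_fin (α β : ℝ) (S : Set ℝ) : volume (Ioo α β ∩ S) ≠ ⊤ :=
  ((measure_mono inter_subset_left).trans_lt (measure_Ioo_lt_top (a := α) (b := β))).ne

lemma real_Ioo_le {α β : ℝ} (h : β - α ≤ 1) (S : Set ℝ) : volume.real (Ioo α β ∩ S) ≤ 1 := by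
  have h1 : volume.real (Ioo α β ∩ S) ≤ volume.real (Ioo α β) :=
    measureReal_mono inter_subset_left measure_Ioo_lt_top.ne
  rw [Real.volume_real_Ioo] at h1
  exact h1.trans (max_le h (by norm_num))

/-- The subadditivity for two adjacent intervals. -/
lemma split_two {α θ β : ℝ} (S : Set ℝ) :
    volume.real (Ioo α β ∩ S) ≤ volume.real (Ioo α θ ∩ S) + volume.real (Ioo θ β ∩ S) := by
  have hcov : Ioo α β ∩ S ⊆ (Ioo α θ ∩ S) ∪ ((Ioo θ β ∩ S) ∪ {θ}) := by
    intro s hs
    rcases lt_trichotomy s θ with h | h | h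
    · left; exact ⟨⟨hs.1.1, h⟩, hs.2⟩
    · right; right; exact h
    · right; left; exact ⟨⟨h, hs.1.2⟩, hs.2⟩
  have hfin : volume ((Ioo α θ ∩ S) ∪ ((Ioo θ β ∩ S) ∪ {θ})) ≠ ⊤ := by
    refine ((measure_union_le _ _).trans_lt (ENNReal.add_lt_top.2
      ⟨(real_Ioo_fin _ _ _).lt_top, (measure_union_le _ _).trans_lt (ENNReal.add_lt_top.2
        ⟨(real_Ioo_fin _ _ _).lt_top, ?_⟩)⟩)).ne
    rw [Real.volume_singleton]
    exact ENNReal.zero_lt_top
  refine (measureReal_mono hcov hfin).trans ((measureReal_union_le _ _).trans ?_)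
  have h3 : volume.real ((Ioo θ β ∩ S) ∪ {θ}) ≤ volume.real (Ioo θ β ∩ S) + 0 := by
    refine (measureReal_union_le _ _).trans ?_
    simp [Measure.real]
  linarith

lemma neg_preim (h : ℝ → ℝ) (E : Set ℝ) : (fun x => -h x) ⁻¹' (Neg.neg ⁻¹' E) = h ⁻¹' E := by
  ext s
  simp

lemma neg_vol {E : Set ℝ} (hE : MeasurableSet E) : volume (Neg.neg ⁻¹' E) = volume E :=
  (Measure.measurePreserving_neg (volume : Measure ℝ)).measure_preimage hE.nullMeasurableSet

/-- The recursion. -/
theorem recur0 (n : ℕ) (hn : 1 ≤ n) (i : ℕ) : i ≤ n → ∃ C : ℝ, 0 < C ∧ ∀ h : ℝ → ℝ, ContDiff ℝ ∞ h →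
    ∀ α β D : ℝ, β - α ≤ 1 → 0 < D →
    ((∀ s ∈ Ioo α β, 0 ≤ iteratedDeriv (i + 1) h s) ∨
      (∀ s ∈ Ioo α β, iteratedDeriv (i + 1) h s ≤ 0)) →
    (∀ s ∈ Ioo α β, ∃ j, 1 ≤ j ∧ j ≤ i ∧ D ≤ |iteratedDeriv j h s|) →
      ∀ E : Set ℝ, MeasurableSet E → volume E ≠ ⊤ →
        volume.real (Ioo α β ∩ h ⁻¹' E) ^ n ≤ C * volume.real E / D := by
  induction i with
  | zero =>
    intro _
    refine ⟨1, one_pos, ?_⟩
    intro h hh α β D hαβ hD _ hnd E hE hEt
    have : Ioo α β ∩ h ⁻¹' E = ∅ := by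
      rw [eq_empty_iff_forall_notMem]
      intro s hs
      obtain ⟨j, h1, h2, _⟩ := hnd s hs.1
      omega
    rw [this, measureReal_empty, zero_pow (by omega)]
    positivity
  | succ i ih =>
    intro hi
    obtain ⟨C1, hC1, H1⟩ := ih (by omega)
    obtain ⟨C2, hC2, H2⟩ := oneInt i
    set C := max C1 (2 * C2) with hC
    have hC0 : 0 < C := lt_max_of_lt_left hC1
    refine ⟨4 ^ n * C, by positivity, ?_⟩
    -- the case of a nonnegative derivative
    have key : ∀ h : ℝ → ℝ, ContDiff ℝ ∞ h →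
        ∀ α β D : ℝ, β - α ≤ 1 → 0 < D →
        (∀ s ∈ Ioo α β, 0 ≤ iteratedDeriv (i + 2) h s) →
        (∀ s ∈ Ioo α β, ∃ j, 1 ≤ j ∧ j ≤ i + 1 ∧ D ≤ |iteratedDeriv j h s|) →
        ∀ E : Set ℝ, MeasurableSet E → volume E ≠ ⊤ →
          volume.real (Ioo α β ∩ h ⁻¹' E) ^ n ≤ 4 ^ n * C * volume.real E / D := by
      intro h hh α β D hαβ hD hd hnd E hE hEt
      have hB0 : 0 ≤ volume.real E := measureReal_nonneg
      rcases le_or_gt β α with hab | hab
      · rw [Ioo_eq_empty (not_lt.2 hab), empty_inter, measureReal_empty, zero_pow (by omega)]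
        positivity
      have hvd : Differentiable ℝ (iteratedDeriv (i + 1) h) :=
        hh.differentiable_iteratedDeriv (i + 1) (by exact_mod_cast WithTop.coe_lt_top _)
      have hvder : deriv (iteratedDeriv (i + 1) h) = iteratedDeriv (i + 2) h :=
        (iteratedDeriv_succ (n := i + 1) (f := h)).symm
      have hmono : MonotoneOn (iteratedDeriv (i + 1) h) (Icc α β) := by
        apply monotoneOn_of_deriv hvd
        intro s hs
        rw [hvder]
        exact hd s hs
      set u := iteratedDeriv (i + 1) h with hu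
      obtain ⟨θ1, hθ1, hn1, hp1⟩ := split_mono (u := fun s => u s + D / 2) hab.le
        (fun s hs t ht hst => by
          have := hmono (Ioo_subset_Icc_self hs) (Ioo_subset_Icc_self ht) hst
          show u s + D / 2 ≤ u t + D / 2
          linarith)
      obtain ⟨θ2, hθ2, hn2, hp2⟩ := split_mono (u := u) hθ1.2
        (hmono.mono (fun s hs => ⟨hθ1.1.trans hs.1.le, hs.2.le⟩))
      obtain ⟨θ3, hθ3, hn3, hp3⟩ := split_mono (u := fun s => u s - D / 2) hθ2.2
        (fun s hs t ht hst => by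
          have := hmono (show s ∈ Icc α β from ⟨(hθ1.1.trans hθ2.1).trans hs.1.le, hs.2.le⟩)
            (show t ∈ Icc α β from ⟨(hθ1.1.trans hθ2.1).trans ht.1.le, ht.2.le⟩) hst
          show u s - D / 2 ≤ u t - D / 2
          linarith)
      have hsub : ∀ {x y : ℝ}, α ≤ x → y ≤ β → Ioo x y ⊆ Ioo α β := fun hx hy =>
        Ioo_subset_Ioo hx hy
      -- large pieces
      have big : ∀ x y : ℝ, α ≤ x → y ≤ β → ((∀ s ∈ Ioo x y, D / 2 ≤ u s) ∨
          (∀ s ∈ Ioo x y, u s ≤ -(D / 2))) →
          volume.real (Ioo x y ∩ h ⁻¹' E) ^ n ≤ C * (volume.real E / D) := by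
        intro x y hx hy hs
        have h1 := H2 h hh x y (D / 2) (by positivity) hs E hE hEt
        have h2 : volume.real (Ioo x y ∩ h ⁻¹' E) ≤ 1 := real_Ioo_le (by linarith) _
        calc volume.real (Ioo x y ∩ h ⁻¹' E) ^ n
            ≤ volume.real (Ioo x y ∩ h ⁻¹' E) ^ (i + 1) :=
              pow_le_pow_of_le_one measureReal_nonneg h2 hi
          _ ≤ C2 * volume.real E / (D / 2) := h1
          _ = 2 * C2 * (volume.real E / D) := by field_simp
          _ ≤ C * (volume.real E / D) := by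
              gcongr
              exact le_max_right _ _
      -- small pieces
      have small : ∀ x y : ℝ, α ≤ x → y ≤ β → (∀ s ∈ Ioo x y, |u s| ≤ D / 2) →
          ((∀ s ∈ Ioo x y, 0 ≤ u s) ∨ (∀ s ∈ Ioo x y, u s ≤ 0)) →
          volume.real (Ioo x y ∩ h ⁻¹' E) ^ n ≤ C * (volume.real E / D) := by
        intro x y hx hy hs hsg
        have h1 := H1 h hh x y D (by linarith) hD hsg (fun s hsx => by
          obtain ⟨j, hj1, hj2, hj3⟩ := hnd s (hsub hx hy hsx)
          refine ⟨j, hj1, ?_, hj3⟩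
          by_contra hcon
          have hj : j = i + 1 := by omega
          rw [hj] at hj3
          have := hs s hsx
          linarith) E hE hEt
        calc volume.real (Ioo x y ∩ h ⁻¹' E) ^ n ≤ C1 * volume.real E / D := h1
          _ = C1 * (volume.real E / D) := by ring
          _ ≤ C * (volume.real E / D) := by
              gcongr
              exact le_max_left _ _
      have b1 := big α θ1 le_rfl hθ1.2 (Or.inr fun s hs => by
        have h : u s + D / 2 ≤ 0 := hn1 s hs
        linarith)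
      have b2 := small θ1 θ2 hθ1.1 hθ2.2 (fun s hs => by
        have h : 0 ≤ u s + D / 2 := hp1 s ⟨hs.1, hs.2.trans_le hθ2.2⟩
        have h' := hn2 s hs
        rw [abs_le]
        constructor <;> linarith) (Or.inr hn2)
      have b3 := small θ2 θ3 (hθ1.1.trans hθ2.1) hθ3.2 (fun s hs => by
        have h : u s - D / 2 ≤ 0 := hn3 s hs
        have h' := hp2 s ⟨hs.1, hs.2.trans_le hθ3.2⟩
        rw [abs_le]
        constructor <;> linarith) (Or.inl fun s hs => hp2 s ⟨hs.1, hs.2.trans_le hθ3.2⟩)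
      have b4 := big θ3 β ((hθ1.1.trans hθ2.1).trans hθ3.1) le_rfl (Or.inl fun s hs => by
        have h : 0 ≤ u s - D / 2 := hp3 s hs
        linarith)
      have c1 := split_two (α := α) (θ := θ1) (β := β) (h ⁻¹' E)
      have c2 := split_two (α := θ1) (θ := θ2) (β := β) (h ⁻¹' E)
      have c3 := split_two (α := θ2) (θ := θ3) (β := β) (h ⁻¹' E)
      calc volume.real (Ioo α β ∩ h ⁻¹' E) ^ n
          ≤ (volume.real (Ioo α θ1 ∩ h ⁻¹' E) + volume.real (Ioo θ1 θ2 ∩ h ⁻¹' E) +
              volume.real (Ioo θ2 θ3 ∩ h ⁻¹' E) + volume.real (Ioo θ3 β ∩ h ⁻¹' E)) ^ n := by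
            apply pow_le_pow_left₀ measureReal_nonneg
            linarith
        _ ≤ 4 ^ n * (C * (volume.real E / D)) :=
            pow_four measureReal_nonneg measureReal_nonneg measureReal_nonneg measureReal_nonneg
              b1 b2 b3 b4
        _ = _ := by ring
    intro h hh α β D hαβ hD hd hnd E hE hEt
    rcases hd with hd | hd
    · exact key h hh α β D hαβ hD hd hnd E hE hEt
    · have := key (fun x => -h x) hh.neg α β D hαβ hD (fun s hs => by
        have h3 : iteratedDeriv (i + 2) (fun x => -h x) s = -iteratedDeriv (i + 2) h s := by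
          simp
        rw [h3]
        linarith [hd s hs]) (fun s hs => by
        obtain ⟨j, hj1, hj2, hj3⟩ := hnd s hs
        refine ⟨j, hj1, hj2, ?_⟩
        have h3 : iteratedDeriv j (fun x => -h x) s = -iteratedDeriv j h s := by
          simp
        rw [h3, abs_neg]
        exact hj3) (Neg.neg ⁻¹' E) (measurable_neg hE) (by rw [neg_vol hE]; exact hEt)
      rw [neg_preim] at this
      rw [Measure.real, Measure.real, neg_vol hE] at this
      exact this

/-- The recursion from a derivative of higher order. -/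
theorem recur1 (n : ℕ) (hn : 1 ≤ n) (k : ℕ) : ∃ C : ℝ, 0 < C ∧ ∀ h : ℝ → ℝ, ContDiff ℝ ∞ h →
    ∀ α β D : ℝ, β - α ≤ 1 → 0 < D →
    ((∀ s ∈ Ioo α β, 0 ≤ iteratedDeriv (n + k + 1) h s) ∨
      (∀ s ∈ Ioo α β, iteratedDeriv (n + k + 1) h s ≤ 0)) →
    (∀ s ∈ Ioo α β, ∃ j, 1 ≤ j ∧ j ≤ n ∧ D ≤ |iteratedDeriv j h s|) →
      ∀ E : Set ℝ, MeasurableSet E → volume E ≠ ⊤ →
        volume.real (Ioo α β ∩ h ⁻¹' E) ^ n ≤ C * volume.real E / D := by
  induction k with
  | zero => exact recur0 n hn n le_rfl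
  | succ k ih =>
    obtain ⟨C, hC, H⟩ := ih
    refine ⟨4 ^ n * C, by positivity, ?_⟩
    have key : ∀ h : ℝ → ℝ, ContDiff ℝ ∞ h →
        ∀ α β D : ℝ, β - α ≤ 1 → 0 < D →
        (∀ s ∈ Ioo α β, 0 ≤ iteratedDeriv (n + k + 2) h s) →
        (∀ s ∈ Ioo α β, ∃ j, 1 ≤ j ∧ j ≤ n ∧ D ≤ |iteratedDeriv j h s|) →
        ∀ E : Set ℝ, MeasurableSet E → volume E ≠ ⊤ →
          volume.real (Ioo α β ∩ h ⁻¹' E) ^ n ≤ 4 ^ n * C * volume.real E / D := by
      intro h hh α β D hαβ hD hd hnd E hE hEt
      have hB0 : 0 ≤ volume.real E := measureReal_nonneg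
      rcases le_or_gt β α with hab | hab
      · rw [Ioo_eq_empty (not_lt.2 hab), empty_inter, measureReal_empty, zero_pow (by omega)]
        positivity
      have hvd : Differentiable ℝ (iteratedDeriv (n + k + 1) h) :=
        hh.differentiable_iteratedDeriv (n + k + 1) (by exact_mod_cast WithTop.coe_lt_top _)
      have hvder : deriv (iteratedDeriv (n + k + 1) h) = iteratedDeriv (n + k + 2) h :=
        (iteratedDeriv_succ (n := n + k + 1) (f := h)).symm
      have hmono : MonotoneOn (iteratedDeriv (n + k + 1) h) (Icc α β) := by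
        apply monotoneOn_of_deriv hvd
        intro s hs
        rw [hvder]
        exact hd s hs
      obtain ⟨θ, hθ, hn1, hp1⟩ := split_mono hab.le (hmono.mono Ioo_subset_Icc_self)
      have b1 := H h hh α θ D (by linarith [hθ.2]) hD (Or.inr hn1)
        (fun s hs => hnd s ⟨hs.1, hs.2.trans_le hθ.2⟩) E hE hEt
      have b2 := H h hh θ β D (by linarith [hθ.1]) hD (Or.inl hp1)
        (fun s hs => hnd s ⟨hθ.1.trans_lt hs.1, hs.2⟩) E hE hEt
      have c1 := split_two (α := α) (θ := θ) (β := β) (h ⁻¹' E)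
      have hB : 0 ≤ C * volume.real E / D := by positivity
      calc volume.real (Ioo α β ∩ h ⁻¹' E) ^ n
          ≤ (volume.real (Ioo α θ ∩ h ⁻¹' E) + volume.real (Ioo θ β ∩ h ⁻¹' E) + 0 + 0) ^ n := by
            apply pow_le_pow_left₀ measureReal_nonneg
            linarith
        _ ≤ 4 ^ n * (C * volume.real E / D) :=
            pow_four measureReal_nonneg measureReal_nonneg le_rfl le_rfl
              b1 b2 (by rw [zero_pow (by omega)]; exact hB) (by rw [zero_pow (by omega)]; exact hB)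
        _ = _ := by ring
    intro h hh α β D hαβ hD hd hnd E hE hEt
    rcases hd with hd | hd
    · exact key h hh α β D hαβ hD hd hnd E hE hEt
    · have := key (fun x => -h x) hh.neg α β D hαβ hD (fun s hs => by
        have h3 : iteratedDeriv (n + k + 2) (fun x => -h x) s = -iteratedDeriv (n + k + 2) h s := by
          simp
        rw [h3]
        have := hd s hs
        rw [show n + (k + 1) + 1 = n + k + 2 by ring] at this
        linarith) (fun s hs => by
        obtain ⟨j, hj1, hj2, hj3⟩ := hnd s hs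
        refine ⟨j, hj1, hj2, ?_⟩
        have h3 : iteratedDeriv j (fun x => -h x) s = -iteratedDeriv j h s := by
          simp
        rw [h3, abs_neg]
        exact hj3) (Neg.neg ⁻¹' E) (measurable_neg hE) (by rw [neg_vol hE]; exact hEt)
      rw [neg_preim] at this
      rw [Measure.real, Measure.real, neg_vol hE] at this
      exact this

end Pool.Agent.RadF
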