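import Pool.Agent.RadF.Net

/-!
The part of the curve near the centre.
-/

open MeasureTheory Set Filter Topology Metric
open scoped ENNReal RealInnerProductSpace ContDiff

namespace Pool.Agent.RadF

open Pool.Agent.MC

variable {n : ℕ}

/-- The squared distance. -/
noncomputable def Ph (γ : ℝ → En n) (x : En n) (t : ℝ) : ℝ → ℝ := fun s => ‖x - t • γ s‖ ^ 2

lemma contDiff_Ph {γ : ℝ → En n} (hγ : ContDiff ℝ ∞ γ) (x : En n) (t : ℝ) :
    ContDiff ℝ ∞ (Ph γ x t) := by
  have h : Ph γ x t = fun s => ‖x‖ ^ 2 + t * Ps γ x t s := by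
    funext s
    exact sq_dist γ x t s
  rw [h]
  exact contDiff_const.add (contDiff_const.mul (contDiff_Ps hγ x t))

lemma it2_Ph {γ : ℝ → En n} (hγ : ContDiff ℝ ∞ γ) (x : En n) (t s : ℝ) :
    iteratedDeriv 2 (Ph γ x t) s = 2 * t ^ 2 * ‖iteratedDeriv 1 γ s‖ ^ 2 -
      2 * t * ⟪x - t • γ s, iteratedDeriv 2 γ s⟫ := by
  have hd0 : ∀ u, HasDerivAt γ (deriv γ u) u := fun u =>
    (hγ.differentiable (by simp) u).hasDerivAt
  have hγ1 : ContDiff ℝ ∞ (deriv γ) := (contDiff_infty_iff_deriv.1 hγ).2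
  have hd1 : ∀ u, HasDerivAt (deriv γ) (deriv (deriv γ) u) u := fun u =>
    (hγ1.differentiable (by simp) u).hasDerivAt
  have h1 : ∀ u, HasDerivAt (fun s => x - t • γ s) (-(t • deriv γ u)) u := by
    intro u
    exact ((hd0 u).const_smul t).const_sub x
  have h2 : deriv (Ph γ x t) = fun u => 2 * ⟪x - t • γ u, -(t • deriv γ u)⟫ := by
    funext u
    exact (h1 u).norm_sq.deriv
  have h3 : HasDerivAt (fun u => -(t • deriv γ u)) (-(t • deriv (deriv γ) s)) s :=
    ((hd1 s).const_smul t).neg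
  have h4 := ((h1 s).inner ℝ h3).const_mul 2
  rw [iteratedDeriv_succ, iteratedDeriv_one, h2, h4.deriv, iteratedDeriv_one, iteratedDeriv_succ,
    iteratedDeriv_one, inner_neg_right, inner_neg_neg, inner_smul_right, real_inner_smul_left,
    inner_smul_right, real_inner_self_eq_norm_sq]
  ring

/-- The part of the curve near the centre. -/
theorem small (hn : 4 ≤ n) (γ : ℝ → En n) (a b : ℝ) (hab : a < b) (hγ : ContDiff ℝ ∞ γ)
    (hnd : ∀ s ∈ Icc a b, LinearIndependent ℝ (fun k : Fin n => iteratedDeriv ((k : ℕ) + 1) γ s)) :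
    ∃ ε C : ℝ, 0 < ε ∧ 0 < C ∧ ∀ (x : En n) (t : ℝ), 0 < t → ∀ E : Set ℝ, MeasurableSet E →
      volume E ≠ ⊤ → E ⊆ Iio ((ε * t) ^ 2) →
        volume.real (Ioo a b ∩ Ph γ x t ⁻¹' E) ^ 2 ≤ C * (volume.real E / t ^ 2) := by
  obtain ⟨C1, hC1, H⟩ := oneInt 1
  obtain ⟨G, hG1, hG⟩ := exists_G hγ a b 2
  have hG0 : 0 < G := by linarith
  -- the speed is bounded below
  obtain ⟨g, hg0, hg⟩ : ∃ g : ℝ, 0 < g ∧ ∀ s ∈ Icc a b, g ≤ ‖iteratedDeriv 1 γ s‖ := by
    have hc : ContinuousOn (fun s => ‖iteratedDeriv 1 γ s‖) (Icc a b) :=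
      (hγ.continuous_iteratedDeriv 1 (by exact_mod_cast le_top)).norm.continuousOn
    obtain ⟨s0, hs0, hmin⟩ := isCompact_Icc.exists_isMinOn (nonempty_Icc.2 hab.le) hc
    refine ⟨‖iteratedDeriv 1 γ s0‖, ?_, fun s hs => hmin hs⟩
    rw [norm_pos_iff]
    have := (hnd s0 hs0).ne_zero (⟨0, by omega⟩ : Fin n)
    simpa using this
  set ε := g ^ 2 / (4 * G) with hε
  have hε0 : 0 < ε := by positivity
  set N := ⌈(b - a) * G / ε⌉₊ with hN
  have hN1 : (b - a) * G / ε ≤ N := Nat.le_ceil _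
  have hNpos : 0 < N := Nat.ceil_pos.2 (div_pos (mul_pos (by linarith) hG0) hε0)
  have hN0 : (0 : ℝ) < N := by exact_mod_cast hNpos
  set w := (b - a) / N with hw
  have hw0 : 0 ≤ w := div_nonneg (by linarith) hN0.le
  have hwε : G * w ≤ ε := by
    rw [div_le_iff₀ hε0] at hN1
    rw [hw, mul_div_assoc', div_le_iff₀ hN0]
    linarith
  set X : ℕ → ℝ := fun i => a + i * w with hX
  have hX0 : X 0 = a := by simp [hX]
  have hXN : X N = b := by
    simp only [hX, hw]
    field_simp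
    ring
  have hXI : ∀ i < N, Icc (X i) (X (i + 1)) ⊆ Icc a b := by
    intro i hi s hs
    have h1 : (i : ℝ) + 1 ≤ N := by exact_mod_cast hi
    constructor
    · refine le_trans ?_ hs.1
      simp only [hX]
      have : 0 ≤ (i : ℝ) * w := by positivity
      linarith
    · refine hs.2.trans ?_
      rw [← hXN]
      simp only [hX]
      push_cast
      gcongr
  refine ⟨ε, N ^ 2 * (C1 / g ^ 2), hε0, by positivity, ?_⟩
  intro x t ht E hE hEt hEs
  have hE0 : 0 ≤ volume.real E := measureReal_nonneg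
  set B := C1 * volume.real E / (t ^ 2 * g ^ 2) with hB
  have hB0 : 0 ≤ B := by positivity
  have hterm : ∀ i < N, volume.real (Ioo (X i) (X (i + 1)) ∩ Ph γ x t ⁻¹' E) ^ 2 ≤ B := by
    intro i hi
    by_cases hne : ∃ s0 ∈ Ioo (X i) (X (i + 1)), ‖x - t • γ s0‖ ≤ ε * t
    · obtain ⟨s0, hs0, hs0'⟩ := hne
      refine H (Ph γ x t) (contDiff_Ph hγ x t) (X i) (X (i + 1)) (t ^ 2 * g ^ 2) (by positivity)
        (Or.inl ?_) E hE hEt
      intro s hs
      have hsI := hXI i hi (Ioo_subset_Icc_self hs)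
      have hs0I := hXI i hi (Ioo_subset_Icc_self hs0)
      have hd : ‖γ s - γ s0‖ ≤ ε := by
        have h1 := (convex_Icc a b).norm_image_sub_le_of_norm_deriv_le (f := γ) (C := G)
          (fun u _ => hγ.differentiable (by simp) u) (fun u hu => by
            have := (hG 1 (by norm_num) u hu).1
            rwa [iteratedDeriv_one] at this) hs0I hsI
        refine h1.trans (le_trans ?_ hwε)
        gcongr
        rw [Real.norm_eq_abs, abs_le]
        have hlen : X (i + 1) - X i = w := by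
          simp only [hX]
          push_cast
          ring
        constructor <;> linarith [hs.1, hs.2, hs0.1, hs0.2]
      have h2 : ‖x - t • γ s‖ ≤ 2 * ε * t := by
        have e : x - t • γ s = (x - t • γ s0) - t • (γ s - γ s0) := by
          rw [smul_sub]
          abel
        rw [e]
        refine (norm_sub_le _ _).trans ?_
        rw [norm_smul, Real.norm_eq_abs, abs_of_pos ht]
        have : t * ‖γ s - γ s0‖ ≤ t * ε := by gcongr
        linarith
      rw [show (1 + 1 : ℕ) = 2 from rfl, it2_Ph hγ]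
      have h3 : |⟪x - t • γ s, iteratedDeriv 2 γ s⟫| ≤ 2 * ε * t * G := by
        refine (abs_real_inner_le_norm _ _).trans ?_
        gcongr
        exact (hG 2 le_rfl s hsI).1
      have h4 := (abs_le.1 h3).2
      have h5 : g ^ 2 ≤ ‖iteratedDeriv 1 γ s‖ ^ 2 := by
        have := hg s hsI
        gcongr
      have h6 : ε * G * 4 = g ^ 2 := by
        rw [hε]
        field_simp
      have h7 : t ^ 2 * g ^ 2 ≤ t ^ 2 * ‖iteratedDeriv 1 γ s‖ ^ 2 := by gcongr
      have h8 : 2 * t * ⟪x - t • γ s, iteratedDeriv 2 γ s⟫ ≤ 2 * t * (2 * ε * t * G) := by gcongr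
      have h9 : 2 * t * (2 * ε * t * G) = t ^ 2 * g ^ 2 := by
        rw [← h6]
        ring
      linarith
    · have he : Ioo (X i) (X (i + 1)) ∩ Ph γ x t ⁻¹' E = ∅ := by
        rw [eq_empty_iff_forall_notMem]
        rintro s ⟨hs, hsE⟩
        apply hne
        refine ⟨s, hs, ?_⟩
        have h1 : Ph γ x t s < (ε * t) ^ 2 := hEs hsE
        have h2 : ‖x - t • γ s‖ ^ 2 < (ε * t) ^ 2 := h1
        exact (lt_of_pow_lt_pow_left₀ 2 (by positivity) h2).le
      rw [he, measureReal_empty, zero_pow (by norm_num)]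
      exact hB0
  have hterm2 : ∀ i < N, volume.real (Ioo (X i) (X (i + 1)) ∩ Ph γ x t ⁻¹' E) ≤ √B := by
    intro i hi
    exact Real.le_sqrt_of_sq_le (hterm i hi)
  have hsum : volume.real (Ioo a b ∩ Ph γ x t ⁻¹' E) ≤ N * √B := by
    have h1 := split_many (Ph γ x t ⁻¹' E) X N
    rw [hX0, hXN] at h1
    refine h1.trans ?_
    calc ∑ i ∈ Finset.range N, volume.real (Ioo (X i) (X (i + 1)) ∩ Ph γ x t ⁻¹' E)
        ≤ ∑ _i ∈ Finset.range N, √B :=
          Finset.sum_le_sum fun i hi => hterm2 i (Finset.mem_range.1 hi)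
      _ = N * √B := by rw [Finset.sum_const, Finset.card_range, nsmul_eq_mul]
  calc volume.real (Ioo a b ∩ Ph γ x t ⁻¹' E) ^ 2 ≤ (N * √B) ^ 2 := by
        have : 0 ≤ volume.real (Ioo a b ∩ Ph γ x t ⁻¹' E) := measureReal_nonneg
        gcongr
    _ = N ^ 2 * B := by rw [mul_pow, Real.sq_sqrt hB0]
    _ = _ := by
        rw [hB]
        field_simp

/-- The curve meets a point only on a null set. -/
theorem null_point (hn : 4 ≤ n) (γ : ℝ → En n) (a b : ℝ) (hab : a < b) (hγ : ContDiff ℝ ∞ γ)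
    (hnd : ∀ s ∈ Icc a b, LinearIndependent ℝ (fun k : Fin n => iteratedDeriv ((k : ℕ) + 1) γ s))
    (x : En n) (t : ℝ) (ht : 0 < t) : volume (Ioo a b ∩ Ph γ x t ⁻¹' {0}) = 0 := by
  obtain ⟨ε, C, hε, hC, H⟩ := small hn γ a b hab hγ hnd
  have h1 := H x t ht {0} (measurableSet_singleton 0) (by simp) (by
    rw [singleton_subset_iff, mem_Iio]
    positivity)
  have h2 : volume.real ({0} : Set ℝ) = 0 := by simp [Measure.real]
  rw [h2, zero_div, mul_zero] at h1
  have h3 : volume.real (Ioo a b ∩ Ph γ x t ⁻¹' {0}) = 0 := by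
    have := sq_nonneg (volume.real (Ioo a b ∩ Ph γ x t ⁻¹' {0}))
    exact pow_eq_zero_iff (two_ne_zero) |>.1 (le_antisymm h1 this)
  rw [Measure.real, ENNReal.toReal_eq_zero_iff] at h3
  rcases h3 with h3 | h3
  · exact h3
  · exact absurd h3 (real_Ioo_fin _ _ _)

end Pool.Agent.RadF
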