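import Pool.Agent.RadF.Recur

/-!
Preimages under smooth functions for which at every point some derivative of order between `1`
and `n` is large.
-/

open MeasureTheory Set Filter Topology
open scoped ENNReal ContDiff

namespace Pool.Agent.RadF

open Pool.Agent.MC

lemma diff_it {h : ℝ → ℝ} (hh : ContDiff ℝ ∞ h) (i : ℕ) : Differentiable ℝ (iteratedDeriv i h) :=
  hh.differentiable_iteratedDeriv i (by exact_mod_cast WithTop.coe_lt_top _)

lemma deriv_it (h : ℝ → ℝ) (i : ℕ) : deriv (iteratedDeriv i h) = iteratedDeriv (i + 1) h :=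
  (iteratedDeriv_succ (n := i) (f := h)).symm

/-- The variation of a derivative. -/
lemma var_le {h : ℝ → ℝ} (hh : ContDiff ℝ ∞ h) (i : ℕ) {α β B : ℝ}
    (hB : ∀ s ∈ Icc α β, |iteratedDeriv (i + 1) h s| ≤ B) {x y : ℝ} (hx : x ∈ Icc α β)
    (hy : y ∈ Icc α β) : |iteratedDeriv i h x - iteratedDeriv i h y| ≤ B * (β - α) := by
  have h1 := (convex_Icc α β).norm_image_sub_le_of_norm_deriv_le (f := iteratedDeriv i h)
    (C := B) (fun s _ => diff_it hh i s) (fun s hs => by
      rw [deriv_it, Real.norm_eq_abs]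
      exact hB s hs) hy hx
  rw [Real.norm_eq_abs, Real.norm_eq_abs] at h1
  have hB0 : 0 ≤ B := (abs_nonneg _).trans (hB x hx)
  refine h1.trans ?_
  gcongr
  rw [abs_le]
  constructor <;> linarith [hx.1, hx.2, hy.1, hy.2]

/-- One short interval. -/
theorem piece (n : ℕ) (hn : 1 ≤ n) (k : ℕ) : ∃ C : ℝ, 0 < C ∧ ∀ h : ℝ → ℝ, ContDiff ℝ ∞ h →
    ∀ α β D L : ℝ, β - α ≤ 1 / 4 → 0 < D →
    (∀ s ∈ Icc α β, |iteratedDeriv (n + k + 1) h s| ≤ L) → L * (β - α) ^ (k + 1) ≤ D / 4 →
    (∀ s ∈ Icc α β, ∃ j, 1 ≤ j ∧ j ≤ n ∧ D ≤ |iteratedDeriv j h s|) →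
      ∀ E : Set ℝ, MeasurableSet E → volume E ≠ ⊤ →
        volume.real (Ioo α β ∩ h ⁻¹' E) ^ n ≤ C * volume.real E / D := by
  choose c1 hc1 H1 using fun k' => recur1 n hn k'
  choose c2 hc2 H2 using oneInt
  set C1 := ∑ k' ∈ Finset.range k, c1 k' with hC1
  set C2 := ∑ i ∈ Finset.range n, c2 i with hC2
  have hC10 : 0 ≤ C1 := Finset.sum_nonneg fun i _ => (hc1 i).le
  have hC20 : 0 ≤ C2 := Finset.sum_nonneg fun i _ => (hc2 i).le
  refine ⟨C1 + 2 * C2 + 1, by positivity, ?_⟩
  intro h hh α β D L hαβ hD hL hLD hnd E hE hEt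
  have hE0 : 0 ≤ volume.real E := measureReal_nonneg
  rcases le_or_gt β α with hab | hab
  · rw [Ioo_eq_empty (not_lt.2 hab), empty_inter, measureReal_empty, zero_pow (by omega)]
    positivity
  by_cases hA : ∃ k' < k, (∀ s ∈ Ioo α β, 0 ≤ iteratedDeriv (n + k' + 1) h s) ∨
      (∀ s ∈ Ioo α β, iteratedDeriv (n + k' + 1) h s ≤ 0)
  · obtain ⟨k', hk', hsg⟩ := hA
    have h1 := H1 k' h hh α β D (by linarith) hD hsg
      (fun s hs => hnd s (Ioo_subset_Icc_self hs)) E hE hEt
    refine h1.trans ?_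
    have h2 : c1 k' ≤ C1 + 2 * C2 + 1 := by
      have : c1 k' ≤ C1 := Finset.single_le_sum (f := c1) (fun i _ => (hc1 i).le)
        (Finset.mem_range.2 hk')
      linarith
    gcongr
  · push Not at hA
    -- all the derivatives of order larger than n are small
    have hsm : ∀ i : ℕ, i ≤ k → ∀ s ∈ Icc α β,
        |iteratedDeriv (n + (k - i) + 1) h s| ≤ L * (β - α) ^ i := by
      intro i
      induction i with
      | zero =>
        intro _ s hs
        rw [pow_zero, mul_one, Nat.sub_zero]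
        exact hL s hs
      | succ i ih =>
        intro hi s hs
        obtain ⟨⟨s1, hs1, hs1'⟩, s2, hs2, hs2'⟩ := hA (k - (i + 1)) (by omega)
        have hcont : ContinuousOn (iteratedDeriv (n + (k - (i + 1)) + 1) h) (uIcc s1 s2) :=
          (diff_it hh _).continuous.continuousOn
        obtain ⟨z, hz, hz0⟩ : (0 : ℝ) ∈ (iteratedDeriv (n + (k - (i + 1)) + 1) h) '' (uIcc s1 s2) :=
          intermediate_value_uIcc hcont (by
            rw [mem_uIcc]
            left
            exact ⟨hs1'.le, hs2'.le⟩)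
        have hzI : z ∈ Icc α β := by
          have : uIcc s1 s2 ⊆ Icc α β := uIcc_subset_Icc (Ioo_subset_Icc_self hs1)
            (Ioo_subset_Icc_self hs2)
          exact this hz
        have h3 := var_le hh (n + (k - (i + 1)) + 1) (α := α) (β := β) (B := L * (β - α) ^ i)
          (fun t ht => by
            have := ih (by omega) t ht
            rw [show n + (k - (i + 1)) + 1 + 1 = n + (k - i) + 1 by omega]
            exact this) hs hzI
        rw [hz0, sub_zero] at h3
        calc _ ≤ L * (β - α) ^ i * (β - α) := h3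
          _ = _ := by rw [pow_succ]; ring
    have hvn : ∀ x ∈ Icc α β, ∀ y ∈ Icc α β,
        |iteratedDeriv n h x - iteratedDeriv n h y| ≤ D / 4 := by
      intro x hx y hy
      have h3 := var_le hh n (α := α) (β := β) (B := L * (β - α) ^ k) (fun t ht => by
        have := hsm k le_rfl t ht
        rw [Nat.sub_self, add_zero] at this
        exact this) hx hy
      refine h3.trans (le_trans (le_of_eq ?_) hLD)
      rw [pow_succ]; ring
    -- the largest order
    have hex : ∃ j, (1 ≤ j ∧ j ≤ n ∧ ∃ s ∈ Icc α β, D ≤ |iteratedDeriv j h s|) ∧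
        ∀ j', j < j' → j' ≤ n → ∀ s ∈ Icc α β, |iteratedDeriv j' h s| < D := by
      classical
      set P : ℕ → Prop := fun j => 1 ≤ j ∧ j ≤ n ∧ ∃ s ∈ Icc α β, D ≤ |iteratedDeriv j h s| with hP
      have hP0 : ∃ j ≤ n, P j := by
        obtain ⟨j, h1, h2, h3⟩ := hnd α ⟨le_rfl, hab.le⟩
        exact ⟨j, h2, h1, h2, α, ⟨le_rfl, hab.le⟩, h3⟩
      obtain ⟨j0, hj0, hPj0⟩ := hP0
      refine ⟨Nat.findGreatest P n, Nat.findGreatest_spec hj0 hPj0, ?_⟩
      intro j' hj' hj'n s hs
      by_contra hcon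
      have h4 : P j' := ⟨by
        have := (Nat.findGreatest_spec hj0 hPj0).1
        omega, hj'n, s, hs, not_lt.1 hcon⟩
      exact absurd (Nat.le_findGreatest hj'n h4) (by omega)
    obtain ⟨j, ⟨hj1, hjn, s0, hs0, hDs0⟩, hmax⟩ := hex
    have hvj : ∀ x ∈ Icc α β, |iteratedDeriv j h x - iteratedDeriv j h s0| ≤ D / 4 := by
      intro x hx
      rcases hjn.eq_or_lt with hjn | hjn
      · rw [hjn]
        exact hvn x hx s0 hs0
      · have h3 := var_le hh j (α := α) (β := β) (B := D) (fun t ht =>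
          (hmax (j + 1) (by omega) (by omega) t ht).le) hx hs0
        refine h3.trans ?_
        calc D * (β - α) ≤ D * (1 / 4) := by gcongr
          _ = D / 4 := by ring
    obtain ⟨i, rfl⟩ : ∃ i, j = i + 1 := ⟨j - 1, by omega⟩
    have hsgn : (∀ s ∈ Ioo α β, D / 2 ≤ iteratedDeriv (i + 1) h s) ∨
        (∀ s ∈ Ioo α β, iteratedDeriv (i + 1) h s ≤ -(D / 2)) := by
      rcases le_abs.1 hDs0 with h4 | h4
      · left
        intro s hs
        have := (abs_le.1 (hvj s (Ioo_subset_Icc_self hs))).1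
        linarith
      · right
        intro s hs
        have := (abs_le.1 (hvj s (Ioo_subset_Icc_self hs))).2
        linarith
    have h1 := H2 i h hh α β (D / 2) (by positivity) hsgn E hE hEt
    have h2 : volume.real (Ioo α β ∩ h ⁻¹' E) ≤ 1 := real_Ioo_le (by linarith) _
    have h5 : c2 i ≤ C2 := Finset.single_le_sum (f := c2) (fun i _ => (hc2 i).le)
      (Finset.mem_range.2 (by omega))
    calc volume.real (Ioo α β ∩ h ⁻¹' E) ^ n
        ≤ volume.real (Ioo α β ∩ h ⁻¹' E) ^ (i + 1) :=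
          pow_le_pow_of_le_one measureReal_nonneg h2 hjn
      _ ≤ c2 i * volume.real E / (D / 2) := h1
      _ = 2 * c2 i * volume.real E / D := by field_simp
      _ ≤ (C1 + 2 * C2 + 1) * volume.real E / D := by
          gcongr
          linarith

lemma split_many (S : Set ℝ) (x : ℕ → ℝ) (N : ℕ) :
    volume.real (Ioo (x 0) (x N) ∩ S) ≤
      ∑ i ∈ Finset.range N, volume.real (Ioo (x i) (x (i + 1)) ∩ S) := by
  induction N with
  | zero => simp
  | succ N ih =>
    rw [Finset.sum_range_succ]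
    exact (split_two (θ := x N) S).trans (by linarith)

/-- The sublevel theorem. -/
theorem sub (n : ℕ) (hn : 1 ≤ n) (k : ℕ) (a b : ℝ) (hab : a < b) : ∃ C : ℝ, 0 < C ∧
    ∀ h : ℝ → ℝ, ContDiff ℝ ∞ h → ∀ D L : ℝ, 0 < D → D ≤ 1 → 1 ≤ L →
    (∀ s ∈ Icc a b, |iteratedDeriv (n + k + 1) h s| ≤ L) →
    (∀ s ∈ Icc a b, ∃ j, 1 ≤ j ∧ j ≤ n ∧ D ≤ |iteratedDeriv j h s|) →
      ∀ E : Set ℝ, MeasurableSet E → volume E ≠ ⊤ →
        volume.real (Ioo a b ∩ h ⁻¹' E) ^ n ≤
          C * (L / D) ^ ((n : ℝ) / (k + 1)) * (volume.real E / D) := by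
  obtain ⟨C, hC, H⟩ := piece n hn k
  set A := (b - a + 1) * 4 with hA
  have hA0 : 0 < A := by
    have : 0 < b - a + 1 := by linarith
    positivity
  refine ⟨A ^ n * C, by positivity, ?_⟩
  intro h hh D L hD hD1 hL hhL hnd E hE hEt
  have hL0 : 0 < L := by linarith
  have hE0 : 0 ≤ volume.real E := measureReal_nonneg
  have hk1 : (0 : ℝ) < k + 1 := by positivity
  set q := (D / L) ^ (1 / ((k : ℝ) + 1)) with hq
  have hq0 : 0 < q := by positivity
  have hq1 : q ≤ 1 := Real.rpow_le_one (by positivity) (by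
    rw [div_le_one hL0]
    linarith) (by positivity)
  have hqk : q ^ (k + 1) = D / L := by
    rw [hq, ← Real.rpow_natCast, ← Real.rpow_mul (by positivity)]
    push_cast
    rw [one_div, inv_mul_cancel₀ hk1.ne', Real.rpow_one]
  set l := q / 4 with hl
  have hl0 : 0 < l := by positivity
  have hl1 : l ≤ 1 / 4 := by rw [hl]; linarith
  set N := ⌈(b - a) / l⌉₊ with hN
  have hN1 : (b - a) / l ≤ N := Nat.le_ceil _
  have hNpos : 0 < N := Nat.ceil_pos.2 (div_pos (by linarith) hl0)
  have hN0 : (0 : ℝ) < N := by exact_mod_cast hNpos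
  have hN2 : (N : ℝ) ≤ (b - a + 1) / l := by
    have h1 : (N : ℝ) < (b - a) / l + 1 := Nat.ceil_lt_add_one (div_nonneg (by linarith) hl0.le)
    have h2 : 1 ≤ 1 / l := by
      rw [le_div_iff₀ hl0]
      linarith
    rw [add_div]
    linarith
  set w := (b - a) / N with hw
  have hw0 : 0 ≤ w := div_nonneg (by linarith) hN0.le
  have hwl : w ≤ l := by
    rw [hw, div_le_iff₀ hN0]
    rw [div_le_iff₀ hl0] at hN1
    linarith
  set x : ℕ → ℝ := fun i => a + i * w with hx
  have hx0 : x 0 = a := by simp [hx]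
  have hxN : x N = b := by
    simp only [hx, hw]
    field_simp
    ring
  have hxI : ∀ i < N, Icc (x i) (x (i + 1)) ⊆ Icc a b := by
    intro i hi s hs
    have h1 : (i : ℝ) + 1 ≤ N := by exact_mod_cast hi
    constructor
    · refine le_trans ?_ hs.1
      simp only [hx]
      have : 0 ≤ (i : ℝ) * w := by positivity
      linarith
    · refine hs.2.trans ?_
      rw [← hxN]
      simp only [hx]
      push_cast
      gcongr
  set B := C * volume.real E / D with hB
  have hB0 : 0 ≤ B := by positivity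
  have hterm : ∀ i < N, volume.real (Ioo (x i) (x (i + 1)) ∩ h ⁻¹' E) ^ n ≤ B := by
    intro i hi
    have hlen : x (i + 1) - x i = w := by
      simp only [hx]
      push_cast
      ring
    apply H h hh (x i) (x (i + 1)) D L (by rw [hlen]; linarith) hD
      (fun s hs => hhL s (hxI i hi hs)) _ (fun s hs => hnd s (hxI i hi hs)) E hE hEt
    rw [hlen]
    calc L * w ^ (k + 1) ≤ L * l ^ (k + 1) := by gcongr
      _ = L * (D / L) / 4 ^ (k + 1) := by
          rw [hl, div_pow, hqk]
          ring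
      _ = D / 4 ^ (k + 1) := by
          rw [mul_div_cancel₀ _ hL0.ne']
      _ ≤ D / 4 := by
          gcongr
          calc (4 : ℝ) = 4 ^ 1 := (pow_one 4).symm
            _ ≤ 4 ^ (k + 1) := pow_le_pow_right₀ (by norm_num) (by omega)
  set r := B ^ (1 / (n : ℝ)) with hr
  have hn0 : (n : ℝ) ≠ 0 := by
    have : n ≠ 0 := by omega
    exact_mod_cast this
  have hrn : r ^ n = B := by
    rw [hr, ← Real.rpow_natCast, ← Real.rpow_mul hB0, one_div, inv_mul_cancel₀ hn0, Real.rpow_one]
  have hr0 : 0 ≤ r := by positivity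
  have hterm2 : ∀ i < N, volume.real (Ioo (x i) (x (i + 1)) ∩ h ⁻¹' E) ≤ r := by
    intro i hi
    refine le_of_pow_le_pow_left₀ (by omega : n ≠ 0) hr0 ?_
    rw [hrn]
    exact hterm i hi
  have hsum : volume.real (Ioo a b ∩ h ⁻¹' E) ≤ N * r := by
    have h1 := split_many (h ⁻¹' E) x N
    rw [hx0, hxN] at h1
    refine h1.trans ?_
    calc ∑ i ∈ Finset.range N, volume.real (Ioo (x i) (x (i + 1)) ∩ h ⁻¹' E)
        ≤ ∑ _i ∈ Finset.range N, r := Finset.sum_le_sum fun i hi => hterm2 i (Finset.mem_range.1 hi)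
      _ = N * r := by rw [Finset.sum_const, Finset.card_range, nsmul_eq_mul]
  have hNA : (N : ℝ) ^ n ≤ A ^ n * (L / D) ^ ((n : ℝ) / (k + 1)) := by
    have h1 : (N : ℝ) ≤ A / q := by
      refine hN2.trans (le_of_eq ?_)
      rw [hl, hA]
      field_simp
    have h2 : (1 / q) ^ n = (L / D) ^ ((n : ℝ) / (k + 1)) := by
      rw [hq, one_div, ← Real.inv_rpow (by positivity), inv_div, ← Real.rpow_natCast,
        ← Real.rpow_mul (by positivity)]
      congr 1
      field_simp
    calc (N : ℝ) ^ n ≤ (A / q) ^ n := by gcongr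
      _ = A ^ n * (1 / q) ^ n := by rw [← mul_pow]; congr 1; ring
      _ = _ := by rw [h2]
  calc volume.real (Ioo a b ∩ h ⁻¹' E) ^ n ≤ (N * r) ^ n := by
        gcongr
    _ = (N : ℝ) ^ n * B := by rw [mul_pow, hrn]
    _ ≤ (A ^ n * (L / D) ^ ((n : ℝ) / (k + 1))) * B := by gcongr
    _ = _ := by rw [hB]; ring

end Pool.Agent.RadF
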