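import Pool.Agent.RadF.Net

/-!
The weight on the sphere.
-/

open MeasureTheory Set Filter Topology Metric
open scoped ENNReal RealInnerProductSpace ContDiff Pointwise

namespace Pool.Agent.RadF

open Pool.Agent.MC

variable {n : ℕ}

/-- The weight. -/
noncomputable def Wf (γ : ℝ → En n) (a b T q : ℝ) (x : En n) : ℝ≥0∞ :=
  1 + ∑' i : ℕ, (Bd γ a b T ((1 / 2) ^ i)).indicator
    (fun _ => ENNReal.ofReal ((2 : ℝ) ^ (((i : ℝ) + 1) * q))) x

lemma measurable_Wf {γ : ℝ → En n} (hγ : ContDiff ℝ ∞ γ) (a b T q : ℝ) :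
    Measurable (Wf γ a b T q) := by
  unfold Wf
  refine measurable_const.add (Measurable.ennreal_tsum fun i => ?_)
  exact measurable_const.indicator (isClosed_Bd hγ _ _ _ _).measurableSet

lemma one_le_Wf (γ : ℝ → En n) (a b T q : ℝ) (x : En n) : 1 ≤ Wf γ a b T q x := le_self_add

lemma sphere_Bd {γ : ℝ → En n} (hγ : ContDiff ℝ ∞ γ) (a b T δ : ℝ) :
    (volume : Measure (En n)).toSphere {w | (w : En n) ∈ Bd γ a b T δ} ≤
      n * volume (Bd γ a b T δ) := by
  have hm : MeasurableSet {w : sphere (0 : En n) 1 | (w : En n) ∈ Bd γ a b T δ} :=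
    ((isClosed_Bd hγ _ _ _ _).preimage continuous_subtype_val).measurableSet
  rw [Measure.toSphere_apply' _ hm, finrank_euclideanSpace_fin]
  gcongr
  rintro _ ⟨r, hr, _, ⟨w, hw, rfl⟩, rfl⟩
  exact smul_mem_Bd hγ hw hr.1.le hr.2.le

/-- The integral of the weight. -/
theorem sphere_Wf (hn : 4 ≤ n) (γ : ℝ → En n) (a b : ℝ) (hab : a < b) (hγ : ContDiff ℝ ∞ γ)
    (hnd : ∀ s ∈ Icc a b, LinearIndependent ℝ (fun k : Fin n => iteratedDeriv ((k : ℕ) + 1) γ s))
    (q : ℝ) (hq : q < 2) : ∃ C : ℝ≥0∞, C ≠ ⊤ ∧ ∀ T : ℝ, 0 ≤ T →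
      ∫⁻ w : sphere (0 : En n) 1, Wf γ a b T q w ∂(volume : Measure (En n)).toSphere ≤
        C * ENNReal.ofReal ((1 + T) ^ 2) := by
  obtain ⟨C, hC, H⟩ := net hn γ a b hab hγ hnd
  set ρ : ℝ := 2 ^ (q - 2) with hρ
  have hρ0 : 0 < ρ := by positivity
  have hρ1 : ρ < 1 := Real.rpow_lt_one_of_one_lt_of_neg (by norm_num) (by linarith)
  have hsum : Summable fun i : ℕ => n * C * 2 ^ q * ρ ^ i :=
    (summable_geometric_of_lt_one hρ0.le hρ1).mul_left _
  set σ := (volume : Measure (En n)).toSphere with hσ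
  refine ⟨σ univ + ENNReal.ofReal (∑' i : ℕ, n * C * 2 ^ q * ρ ^ i),
    ENNReal.add_ne_top.2 ⟨measure_ne_top _ _, ENNReal.ofReal_ne_top⟩, ?_⟩
  intro T hT
  have h1T : (1 : ℝ) ≤ (1 + T) ^ 2 := by nlinarith
  have hm : ∀ i : ℕ, MeasurableSet {w : sphere (0 : En n) 1 | (w : En n) ∈ Bd γ a b T ((1 / 2) ^ i)} :=
    fun i => ((isClosed_Bd hγ _ _ _ _).preimage continuous_subtype_val).measurableSet
  have hterm : ∀ i : ℕ, ∫⁻ w : sphere (0 : En n) 1, (Bd γ a b T ((1 / 2) ^ i)).indicator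
      (fun _ => ENNReal.ofReal ((2 : ℝ) ^ (((i : ℝ) + 1) * q))) (w : En n) ∂σ ≤
        ENNReal.ofReal (n * C * 2 ^ q * ρ ^ i) * ENNReal.ofReal ((1 + T) ^ 2) := by
    intro i
    have e1 : (fun w : sphere (0 : En n) 1 => (Bd γ a b T ((1 / 2) ^ i)).indicator
        (fun _ => ENNReal.ofReal ((2 : ℝ) ^ (((i : ℝ) + 1) * q))) (w : En n)) =
        {w : sphere (0 : En n) 1 | (w : En n) ∈ Bd γ a b T ((1 / 2) ^ i)}.indicator
          (fun _ => ENNReal.ofReal ((2 : ℝ) ^ (((i : ℝ) + 1) * q))) := by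
      funext w
      by_cases h : (w : En n) ∈ Bd γ a b T ((1 / 2) ^ i)
      · rw [indicator_of_mem h, indicator_of_mem (show w ∈ {w : sphere (0 : En n) 1 |
          (w : En n) ∈ Bd γ a b T ((1 / 2) ^ i)} from h)]
      · rw [indicator_of_notMem h, indicator_of_notMem (show w ∉ {w : sphere (0 : En n) 1 |
          (w : En n) ∈ Bd γ a b T ((1 / 2) ^ i)} from h)]
    rw [e1, lintegral_indicator_const (hm i)]
    calc ENNReal.ofReal ((2 : ℝ) ^ (((i : ℝ) + 1) * q)) *
          σ {w | (w : En n) ∈ Bd γ a b T ((1 / 2) ^ i)}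
        ≤ ENNReal.ofReal ((2 : ℝ) ^ (((i : ℝ) + 1) * q)) *
          (n * ENNReal.ofReal (C * (1 + T) ^ 2 * ((1 / 2) ^ i) ^ 2)) := by
          gcongr
          refine (sphere_Bd hγ a b T _).trans ?_
          gcongr
          exact H T _ hT (by positivity) (pow_le_one₀ (by norm_num) (by norm_num))
      _ = ENNReal.ofReal ((2 : ℝ) ^ (((i : ℝ) + 1) * q) *
            (n * (C * (1 + T) ^ 2 * ((1 / 2) ^ i) ^ 2))) := by
          rw [ENNReal.ofReal_mul (p := (2 : ℝ) ^ (((i : ℝ) + 1) * q)) (by positivity),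
            ENNReal.ofReal_mul (p := (n : ℝ)) (by positivity), ENNReal.ofReal_natCast]
      _ = ENNReal.ofReal (n * C * 2 ^ q * ρ ^ i) * ENNReal.ofReal ((1 + T) ^ 2) := by
          rw [← ENNReal.ofReal_mul (by positivity)]
          congr 1
          have e2 : (2 : ℝ) ^ (((i : ℝ) + 1) * q) = 2 ^ q * ((2 : ℝ) ^ q) ^ i := by
            rw [← Real.rpow_natCast _ i, ← Real.rpow_mul (by norm_num),
              ← Real.rpow_add (by norm_num)]
            congr 1
            ring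
          have e3 : ((1 / 2 : ℝ) ^ i) ^ 2 = ((2 : ℝ) ^ (-(2 : ℝ))) ^ i := by
            rw [← pow_mul, mul_comm i 2, pow_mul]
            congr 1
            rw [Real.rpow_neg (by norm_num)]
            norm_num
          have e4 : ρ ^ i = ((2 : ℝ) ^ q) ^ i * ((2 : ℝ) ^ (-(2 : ℝ))) ^ i := by
            rw [← mul_pow, ← Real.rpow_add (by norm_num), hρ]
            congr 1
          rw [e2, e3, e4]
          ring
  unfold Wf
  rw [lintegral_add_left measurable_const, lintegral_one, lintegral_tsum, add_mul]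
  · gcongr
    · calc σ univ = σ univ * 1 := (mul_one _).symm
        _ ≤ σ univ * ENNReal.ofReal ((1 + T) ^ 2) := by
            gcongr
            rw [← ENNReal.ofReal_one]
            exact ENNReal.ofReal_le_ofReal h1T
    · rw [ENNReal.ofReal_tsum_of_nonneg (fun i => by positivity) hsum, ← ENNReal.tsum_mul_right]
      exact ENNReal.tsum_le_tsum hterm
  · intro i
    exact ((measurable_const.indicator (isClosed_Bd hγ _ _ _ _).measurableSet).comp
      measurable_subtype_coe).aemeasurable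

/-- Preimages under the normalised squared distance. -/
theorem sw (hn : 4 ≤ n) (γ : ℝ → En n) (a b : ℝ) (hab : a < b) (hγ : ContDiff ℝ ∞ γ)
    (p0 : ℝ) (h1 : (n : ℝ) < p0) (h2 : p0 < 2 * n) :
    ∃ q κ : ℝ, 0 < q ∧ q < 2 ∧ 0 ≤ κ ∧ κ + p0 / n < 2 ∧ ∃ C : ℝ≥0∞, C ≠ ⊤ ∧ ∀ T : ℝ, 0 ≤ T →
      ∀ x : En n, ‖x‖ = 1 → ∀ t ∈ Icc 0 T, ∀ E : Set ℝ, MeasurableSet E → volume E ≠ ⊤ →
        (volume E = 0 → E = ∅) →
          volume (Ioo a b ∩ Ps γ x t ⁻¹' E) ^ p0 ≤
            C * ENNReal.ofReal ((1 + T) ^ κ) * Wf γ a b T q x * volume E ^ (p0 / n) := by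
  have hn0 : (0 : ℝ) < n := by
    have : 0 < n := by omega
    exact_mod_cast this
  set θ := p0 / n with hθ
  have hθ1 : 1 < θ := (one_lt_div hn0).2 h1
  have hθ2 : θ < 2 := by rw [hθ, div_lt_iff₀ hn0]; exact h2
  have hp0 : 0 < p0 := hn0.trans h1
  obtain ⟨k, hk⟩ := exists_nat_gt (p0 / (2 - θ))
  have hk1 : (0 : ℝ) < k + 1 := by positivity
  have h2θ : 0 < 2 - θ := by linarith
  set κ := p0 / (k + 1) with hκ
  have hκ0 : 0 < κ := by positivity
  have hκ1 : κ < 2 - θ := by
    rw [hκ, div_lt_iff₀ hk1]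
    rw [div_lt_iff₀ h2θ] at hk
    linarith
  set q := θ + κ with hq
  have hq0 : 0 < q := by linarith
  obtain ⟨C, hC, H⟩ := sub n (by omega) k a b hab
  obtain ⟨G, hG1, hG⟩ := exists_G hγ a b (n + k + 1)
  refine ⟨q, κ, hq0, by linarith, hκ0.le, by linarith, ENNReal.ofReal (C ^ θ * (2 * G) ^ κ) + 1,
    by simp, ?_⟩
  intro T hT x hx t ht E hEm hEt hE0
  set W := Wf γ a b T q x with hW
  have hW1 : 1 ≤ W := one_le_Wf _ _ _ _ _ _
  have h1T : (0 : ℝ) < 1 + T := by linarith
  rcases eq_or_ne W ⊤ with hWt | hWt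
  · by_cases hE : volume E = 0
    · rw [hE0 hE, preimage_empty, inter_empty, measure_empty, ENNReal.zero_rpow_of_pos hp0]
      exact zero_le
    · have h3 : volume E ^ θ ≠ 0 := by
        rw [Ne, ENNReal.rpow_eq_zero_iff]
        rintro (h | h)
        · exact hE h.1
        · exact hEt h.1
      have h4 : (ENNReal.ofReal (C ^ θ * (2 * G) ^ κ) + 1) * ENNReal.ofReal ((1 + T) ^ κ) ≠ 0 := by
        apply mul_ne_zero
        · simp
        · rw [Ne, ENNReal.ofReal_eq_zero, not_le]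
          positivity
      rw [hWt, ENNReal.mul_top h4, ENNReal.top_mul h3]
      exact le_top
  · have hWr : 1 ≤ W.toReal := by
      rw [← ENNReal.toReal_one]
      exact ENNReal.toReal_mono hWt hW1
    have hWr0 : 0 < W.toReal := by linarith
    set D := W.toReal ^ (-(1 / q)) with hD
    have hD0 : 0 < D := by positivity
    have hD1 : D ≤ 1 := Real.rpow_le_one_of_one_le_of_nonpos hWr (by
      have : 0 < 1 / q := by positivity
      linarith)
    have hDq : D ^ (-q) = W.toReal := by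
      rw [hD, ← Real.rpow_mul hWr0.le]
      rw [show -(1 / q) * -q = 1 by field_simp, Real.rpow_one]
    have hnd' : ∀ s ∈ Icc a b, ∃ j, 1 ≤ j ∧ j ≤ n ∧ D ≤ |iteratedDeriv j (Ps γ x t) s| := by
      intro s hs
      by_contra hcon
      push Not at hcon
      obtain ⟨i, hi1, hi2⟩ := exists_nat_pow_near_of_lt_one hD0 hD1
        (by norm_num : (0 : ℝ) < 1 / 2) (by norm_num : (1 / 2 : ℝ) < 1)
      have hmem : x ∈ Bd γ a b T ((1 / 2) ^ i) :=
        ⟨hx.le, t, ht, s, hs, fun j hj1 hjn => (hcon j hj1 hjn).le.trans hi2⟩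
      have h5 : ENNReal.ofReal ((2 : ℝ) ^ (((i : ℝ) + 1) * q)) ≤ W := by
        rw [hW, Wf]
        refine le_trans ?_ le_add_self
        refine le_trans ?_ (ENNReal.le_tsum i)
        rw [indicator_of_mem hmem]
      have h6 : (2 : ℝ) ^ (((i : ℝ) + 1) * q) ≤ W.toReal := by
        have := ENNReal.toReal_mono hWt h5
        rwa [ENNReal.toReal_ofReal (by positivity)] at this
      have h7 : D ^ (-q) < (2 : ℝ) ^ (((i : ℝ) + 1) * q) := by
        have e1 : (2 : ℝ) ^ (((i : ℝ) + 1) * q) = ((1 / 2 : ℝ) ^ (i + 1)) ^ (-q) := by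
          rw [← Real.rpow_natCast (1 / 2) (i + 1), ← Real.rpow_mul (by norm_num), one_div,
            Real.inv_rpow (by norm_num), ← Real.rpow_neg (by norm_num)]
          congr 1
          push_cast
          ring
        rw [e1]
        exact Real.rpow_lt_rpow_of_neg (by positivity) hi1 (by linarith)
      rw [hDq] at h7
      linarith
    have hL1 : 1 ≤ 2 * G * (1 + T) := by nlinarith
    have hsub := H (Ps γ x t) (contDiff_Ps hγ x t) D (2 * G * (1 + T)) hD0 hD1 hL1
      (fun s hs => it_bound hγ (hG (n + k + 1) le_rfl) hx.le ht.1 ht.2 hs) hnd' E hEm hEt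
    set v := volume.real (Ioo a b ∩ Ps γ x t ⁻¹' E) with hv
    have hv0 : 0 ≤ v := measureReal_nonneg
    have hvt : volume (Ioo a b ∩ Ps γ x t ⁻¹' E) ≠ ⊤ := real_Ioo_fin _ _ _
    have hvr : volume (Ioo a b ∩ Ps γ x t ⁻¹' E) = ENNReal.ofReal v := by
      rw [hv, Measure.real, ENNReal.ofReal_toReal hvt]
    set e := volume.real E with he
    have he0 : 0 ≤ e := measureReal_nonneg
    have her : volume E = ENNReal.ofReal e := by
      rw [he, Measure.real, ENNReal.ofReal_toReal hEt]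
    have hG0 : 0 < G := by linarith
    have h8 : v ^ p0 ≤ C ^ θ * (2 * G) ^ κ * (1 + T) ^ κ * W.toReal * e ^ θ := by
      have e1 : v ^ p0 = (v ^ n) ^ θ := by
        rw [← Real.rpow_natCast v n, ← Real.rpow_mul hv0, hθ]
        congr 1
        field_simp
      rw [e1]
      calc (v ^ n) ^ θ ≤ (C * (2 * G * (1 + T) / D) ^ ((n : ℝ) / (k + 1)) * (e / D)) ^ θ := by
            gcongr
        _ = C ^ θ * ((2 * G * (1 + T) / D) ^ ((n : ℝ) / (k + 1))) ^ θ * (e / D) ^ θ := by
            rw [Real.mul_rpow (by positivity) (by positivity),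
              Real.mul_rpow (by positivity) (by positivity)]
        _ = C ^ θ * (2 * G * (1 + T) / D) ^ κ * (e / D) ^ θ := by
            rw [← Real.rpow_mul (by positivity)]
            congr 3
            rw [hκ, hθ]
            field_simp
        _ = C ^ θ * ((2 * G) ^ κ * (1 + T) ^ κ * D ^ (-κ)) * (e ^ θ * D ^ (-θ)) := by
            rw [Real.div_rpow (by positivity) hD0.le, Real.div_rpow he0 hD0.le,
              Real.mul_rpow (by positivity) (by positivity), Real.rpow_neg hD0.le,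
              Real.rpow_neg hD0.le]
            rfl
        _ = C ^ θ * (2 * G) ^ κ * (1 + T) ^ κ * D ^ (-q) * e ^ θ := by
            have : D ^ (-q) = D ^ (-θ) * D ^ (-κ) := by
              rw [← Real.rpow_add hD0, hq]
              congr 1
              ring
            rw [this]
            ring
        _ = _ := by rw [hDq]
    rw [hvr, her, ENNReal.ofReal_rpow_of_nonneg hv0 hp0.le,
      ENNReal.ofReal_rpow_of_nonneg he0 (by linarith), ← ENNReal.ofReal_toReal hWt]
    calc ENNReal.ofReal (v ^ p0)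
        ≤ ENNReal.ofReal (C ^ θ * (2 * G) ^ κ * (1 + T) ^ κ * W.toReal * e ^ θ) :=
          ENNReal.ofReal_le_ofReal h8
      _ = ENNReal.ofReal (C ^ θ * (2 * G) ^ κ) * ENNReal.ofReal ((1 + T) ^ κ) *
            ENNReal.ofReal W.toReal * ENNReal.ofReal (e ^ θ) := by
          rw [ENNReal.ofReal_mul (by positivity), ENNReal.ofReal_mul (by positivity),
            ENNReal.ofReal_mul (by positivity)]
      _ ≤ _ := by
          gcongr
          exact le_self_add

end Pool.Agent.RadF
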